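import Mathlib

/-!
Absence of conjugate points for a conformally flat metric `u⁻² |dx|²` from a positive
supersolution of the scalar Jacobi equation.
-/

set_option autoImplicit false

namespace Pool.Agent.Y495.SM

open scoped BigOperators ContDiff InnerProductSpace
open Set

noncomputable section

variable {V : Type*} [NormedAddCommGroup V] [InnerProductSpace ℝ V]

/-- The data of a geodesic `x` (velocity `v`, acceleration `w`) of the metric `u⁻² |dx|²` with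
unit speed on the interval `[s, t]`. -/
structure Geo (u : V → ℝ) (x v w : ℝ → V) (s t : ℝ) : Prop where
  d1 : ∀ τ ∈ Icc s t, HasDerivAt x (v τ) τ
  d2 : ∀ τ ∈ Icc s t, HasDerivAt v (w τ) τ
  sp : ∀ τ ∈ Icc s t, ‖v τ‖ = u (x τ)
  eq : ∀ τ ∈ Icc s t, ∀ z, ⟪w τ, z⟫_ℝ = 2 / u (x τ) * fderiv ℝ u (x τ) (v τ) * ⟪v τ, z⟫_ℝ
    - u (x τ) * fderiv ℝ u (x τ) z

/-- The Jacobi equation along a geodesic, tested against an arbitrary vector `z`. -/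
structure Jac (u : V → ℝ) (x v J J1 J2 : ℝ → V) (s t : ℝ) : Prop where
  d1 : ∀ τ ∈ Icc s t, HasDerivAt J (J1 τ) τ
  d2 : ∀ τ ∈ Icc s t, HasDerivAt J1 (J2 τ) τ
  eq : ∀ τ ∈ Icc s t, ∀ z, ⟪J2 τ, z⟫_ℝ
    = 2 * (fderiv ℝ (fderiv ℝ u) (x τ) (J τ) (v τ) / u (x τ)
        - fderiv ℝ u (x τ) (J τ) * fderiv ℝ u (x τ) (v τ) / u (x τ) ^ 2) * ⟪v τ, z⟫_ℝ
      - u (x τ) * fderiv ℝ (fderiv ℝ u) (x τ) (J τ) z
      + fderiv ℝ u (x τ) (J τ) * fderiv ℝ u (x τ) z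
      + 2 / u (x τ) * (fderiv ℝ u (x τ) (v τ) * ⟪J1 τ, z⟫_ℝ
        + fderiv ℝ u (x τ) (J1 τ) * ⟪v τ, z⟫_ℝ - ⟪v τ, J1 τ⟫_ℝ * fderiv ℝ u (x τ) z)

lemma const_of_deriv_zero {f : ℝ → ℝ} {s t : ℝ} (h : ∀ τ ∈ Icc s t, HasDerivAt f 0 τ) {τ : ℝ}
    (hτ : τ ∈ Icc s t) : f τ = f s :=
  constant_of_has_deriv_right_zero (fun z hz => (h z hz).continuousAt.continuousWithinAt)
    (fun z hz => (h z (Ico_subset_Icc_self hz)).hasDerivWithinAt) τ hτ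

section

variable {u : V → ℝ} {x v w J J1 J2 : ℝ → V} {s t : ℝ}

lemma du_deriv (hu : ContDiff ℝ 2 u) {τ : ℝ} {x v J J1 : ℝ → V} (hx : HasDerivAt x (v τ) τ)
    (hJ : HasDerivAt J (J1 τ) τ) :
    HasDerivAt (fun r => fderiv ℝ u (x r) (J r))
      (fderiv ℝ (fderiv ℝ u) (x τ) (v τ) (J τ) + fderiv ℝ u (x τ) (J1 τ)) τ := by
  have h1 : HasFDerivAt (fderiv ℝ u) (fderiv ℝ (fderiv ℝ u) (x τ)) (x τ) :=
    (((hu.contDiffAt).fderiv_right (m := 1) (by norm_num)).differentiableAt (by simp)).hasFDerivAt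
  have h2 := h1.comp_hasDerivAt τ hx
  exact h2.clm_apply hJ

lemma u_deriv (hu : ContDiff ℝ 2 u) {τ : ℝ} (hx : HasDerivAt x (v τ) τ) :
    HasDerivAt (fun r => u (x r)) (fderiv ℝ u (x τ) (v τ)) τ :=
  ((hu.differentiable (by simp)) (x τ)).hasFDerivAt.comp_hasDerivAt τ hx

lemma snd_symm (hu : ContDiff ℝ 2 u) (y a b : V) :
    fderiv ℝ (fderiv ℝ u) y a b = fderiv ℝ (fderiv ℝ u) y b a :=
  (hu.contDiffAt.isSymmSndFDerivAt (by simp)) a b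

/-- A Jacobi field vanishing at both ends is orthogonal to the geodesic. -/
lemma jac_perp (hu : ContDiff ℝ 2 u) (hpos : ∀ y, 0 < u y) (hst : s < t) (hg : Geo u x v w s t)
    (hJ : Jac u x v J J1 J2 s t) (h0 : J s = 0) (h1 : J t = 0) :
    ∀ τ ∈ Icc s t, ⟪J τ, v τ⟫_ℝ = 0 ∧ ⟪J1 τ, v τ⟫_ℝ = u (x τ) * fderiv ℝ u (x τ) (J τ) := by
  have hd1 : ∀ τ ∈ Icc s t, HasDerivAt (fun r => ⟪J r, v r⟫_ℝ / u (x r) ^ 2)
      (⟪J1 τ, v τ⟫_ℝ / u (x τ) ^ 2 - fderiv ℝ u (x τ) (J τ) / u (x τ)) τ := by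
    intro τ hτ
    have hp := (hpos (x τ)).ne'
    have a1 := (hJ.d1 τ hτ).inner ℝ (hg.d2 τ hτ)
    have a2 : HasDerivAt (fun r => u (x r) ^ 2) (2 * u (x τ) * fderiv ℝ u (x τ) (v τ)) τ := by
      have := (u_deriv hu (hg.d1 τ hτ)).pow 2
      refine this.congr_deriv ?_
      norm_num
    refine (a1.div a2 (pow_ne_zero 2 hp)).congr_deriv ?_
    have e1 := hg.eq τ hτ (J τ)
    rw [real_inner_comm (v τ) (J τ)] 
    rw [real_inner_comm] at e1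
    rw [e1]
    rw [real_inner_comm (J τ) (v τ)]
    field_simp
    ring
  have hd2 : ∀ τ ∈ Icc s t, HasDerivAt
      (fun r => ⟪J1 r, v r⟫_ℝ / u (x r) ^ 2 - fderiv ℝ u (x r) (J r) / u (x r)) 0 τ := by
    intro τ hτ
    have hp := (hpos (x τ)).ne'
    have a0 := u_deriv hu (hg.d1 τ hτ)
    have a1 := (hJ.d2 τ hτ).inner ℝ (hg.d2 τ hτ)
    have a2 : HasDerivAt (fun r => u (x r) ^ 2) (2 * u (x τ) * fderiv ℝ u (x τ) (v τ)) τ := by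
      refine (a0.pow 2).congr_deriv ?_
      norm_num
    have a3 := du_deriv hu (hg.d1 τ hτ) (hJ.d1 τ hτ)
    refine ((a1.div a2 (pow_ne_zero 2 hp)).sub (a3.div a0 hp)).congr_deriv ?_
    have e1 := hg.eq τ hτ (J1 τ)
    have e2 := hJ.eq τ hτ (v τ)
    have e3 : ⟪v τ, v τ⟫_ℝ = u (x τ) ^ 2 := by rw [real_inner_self_eq_norm_sq, hg.sp τ hτ]
    rw [snd_symm hu (x τ) (v τ) (J τ)]
    rw [real_inner_comm] at e1
    rw [real_inner_comm (v τ) (J1 τ)]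
    rw [e1, e2, e3]
    rw [real_inner_comm (v τ) (J1 τ)]
    field_simp
    ring
  have hc : ∀ τ ∈ Icc s t, ⟪J1 τ, v τ⟫_ℝ / u (x τ) ^ 2 - fderiv ℝ u (x τ) (J τ) / u (x τ)
      = ⟪J1 s, v s⟫_ℝ / u (x s) ^ 2 - fderiv ℝ u (x s) (J s) / u (x s) := fun τ hτ =>
    const_of_deriv_zero hd2 hτ
  obtain ⟨c, hcdef⟩ : ∃ c, c = ⟪J1 s, v s⟫_ℝ / u (x s) ^ 2 - fderiv ℝ u (x s) (J s) / u (x s) :=
    ⟨_, rfl⟩
  rw [← hcdef] at hc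
  have hlin : ∀ τ ∈ Icc s t, ⟪J τ, v τ⟫_ℝ / u (x τ) ^ 2 - c * (τ - s) = 0 := by
    intro τ hτ
    have h3 : ∀ r ∈ Icc s t, HasDerivAt (fun r => ⟪J r, v r⟫_ℝ / u (x r) ^ 2 - c * (r - s)) 0 r := by
      intro r hr
      have h4 := (hd1 r hr).sub (((hasDerivAt_id r).sub_const s).const_mul c)
      refine h4.congr_deriv ?_
      rw [hc r hr]; ring
    have h5 := const_of_deriv_zero h3 hτ
    rw [h5, h0]
    simp
  have hct : c = 0 := by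
    have h3 := hlin t (right_mem_Icc.2 hst.le)
    rw [h1] at h3
    simp only [inner_zero_left, zero_div, zero_sub, neg_eq_zero, mul_eq_zero] at h3
    rcases h3 with h3 | h3
    · exact h3
    · exact absurd h3 (sub_ne_zero.2 hst.ne')
  intro τ hτ
  have hp := (hpos (x τ)).ne'
  refine ⟨?_, ?_⟩
  · have h3 := hlin τ hτ
    rw [hct, zero_mul, sub_zero, div_eq_zero_iff] at h3
    rcases h3 with h3 | h3
    · exact h3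
    · exact absurd h3 (pow_ne_zero 2 hp)
  · have h3 := hc τ hτ
    rw [hct, sub_eq_zero] at h3
    field_simp at h3
    linarith

/-- **No conjugate points.** If `K` bounds the sectional curvatures along the geodesic and there
is a positive function `ψ` with `ψ'' + K ψ ≤ 0`, a Jacobi field that vanishes at both ends is
zero. -/
theorem jac_zero (hu : ContDiff ℝ 2 u) (hpos : ∀ y, 0 < u y) (hst : s < t) (hg : Geo u x v w s t)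
    (hJ : Jac u x v J J1 J2 s t) (h0 : J s = 0) (h1 : J t = 0)
    {K ψ ψ1 ψ2 : ℝ → ℝ} {G : ℝ → V} (hG : ∀ τ ∈ Icc s t, ∀ z, ⟪G τ, z⟫_ℝ = fderiv ℝ u (x τ) z)
    (hK : ∀ τ ∈ Icc s t, ∀ z,
      u (x τ) * fderiv ℝ (fderiv ℝ u) (x τ) z z
        + fderiv ℝ (fderiv ℝ u) (x τ) (v τ) (v τ) / u (x τ) * ‖z‖ ^ 2
        - ‖G τ‖ ^ 2 * ‖z‖ ^ 2 ≤ K τ * ‖z‖ ^ 2)
    (hψ : ∀ τ ∈ Icc s t, 0 < ψ τ) (hψ1 : ∀ τ ∈ Icc s t, HasDerivAt ψ (ψ1 τ) τ)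
    (hψ2 : ∀ τ ∈ Icc s t, HasDerivAt ψ1 (ψ2 τ) τ)
    (hsup : ∀ τ ∈ Icc s t, ψ2 τ + K τ * ψ τ ≤ 0) :
    ∀ τ ∈ Icc s t, J τ = 0 := by
  have hperp := jac_perp hu hpos hst hg hJ h0 h1
  -- `N = |J|² / u²`
  have hN : ∀ τ ∈ Icc s t, HasDerivAt (fun r => ‖J r‖ ^ 2 / u (x r) ^ 2)
      (2 * (⟪J τ, J1 τ⟫_ℝ / u (x τ) ^ 2
        - fderiv ℝ u (x τ) (v τ) * ‖J τ‖ ^ 2 / u (x τ) ^ 3)) τ := by
    intro τ hτ
    have hp := (hpos (x τ)).ne'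
    have a0 := u_deriv hu (hg.d1 τ hτ)
    have a1 := (hJ.d1 τ hτ).norm_sq
    have a2 : HasDerivAt (fun r => u (x r) ^ 2) (2 * u (x τ) * fderiv ℝ u (x τ) (v τ)) τ := by
      refine (a0.pow 2).congr_deriv ?_
      norm_num
    refine (a1.div a2 (pow_ne_zero 2 hp)).congr_deriv ?_
    field_simp
    try ring
  -- derivative of `N'/2`
  have hB : ∀ τ ∈ Icc s t, HasDerivAt (fun r => ⟪J r, J1 r⟫_ℝ / u (x r) ^ 2
        - fderiv ℝ u (x r) (v r) * ‖J r‖ ^ 2 / u (x r) ^ 3)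
      ((‖J1 τ‖ ^ 2 + ⟪J2 τ, J τ⟫_ℝ) / u (x τ) ^ 2
        - 4 * fderiv ℝ u (x τ) (v τ) * ⟪J τ, J1 τ⟫_ℝ / u (x τ) ^ 3
        - (fderiv ℝ (fderiv ℝ u) (x τ) (v τ) (v τ) + fderiv ℝ u (x τ) (w τ)) * ‖J τ‖ ^ 2
          / u (x τ) ^ 3
        + 3 * fderiv ℝ u (x τ) (v τ) ^ 2 * ‖J τ‖ ^ 2 / u (x τ) ^ 4) τ := by
    intro τ hτ
    have hp := (hpos (x τ)).ne'
    have a0 := u_deriv hu (hg.d1 τ hτ)
    have a1 := (hJ.d1 τ hτ).inner ℝ (hJ.d2 τ hτ)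
    have a2 : HasDerivAt (fun r => u (x r) ^ 2) (2 * u (x τ) * fderiv ℝ u (x τ) (v τ)) τ := by
      refine (a0.pow 2).congr_deriv ?_
      norm_num
    have a3 : HasDerivAt (fun r => u (x r) ^ 3) (3 * u (x τ) ^ 2 * fderiv ℝ u (x τ) (v τ)) τ := by
      refine (a0.pow 3).congr_deriv ?_
      norm_num
    have a4 := du_deriv hu (hg.d1 τ hτ) (hg.d2 τ hτ)
    have a5 := a4.fun_mul (hJ.d1 τ hτ).norm_sq
    refine ((a1.div a2 (pow_ne_zero 2 hp)).sub (a5.div a3 (pow_ne_zero 3 hp))).congr_deriv ?_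
    rw [real_inner_self_eq_norm_sq, real_inner_comm (J2 τ) (J τ)]
    field_simp
    ring
  -- the basic inequality
  have hine : ∀ τ ∈ Icc s t, ∀ f : ℝ,
      -(f ^ 2 + K τ) * (‖J τ‖ ^ 2 / u (x τ) ^ 2)
        + 2 * f * (⟪J τ, J1 τ⟫_ℝ / u (x τ) ^ 2
          - fderiv ℝ u (x τ) (v τ) * ‖J τ‖ ^ 2 / u (x τ) ^ 3)
      ≤ (‖J1 τ‖ ^ 2 + ⟪J2 τ, J τ⟫_ℝ) / u (x τ) ^ 2
        - 4 * fderiv ℝ u (x τ) (v τ) * ⟪J τ, J1 τ⟫_ℝ / u (x τ) ^ 3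
        - (fderiv ℝ (fderiv ℝ u) (x τ) (v τ) (v τ) + fderiv ℝ u (x τ) (w τ)) * ‖J τ‖ ^ 2
          / u (x τ) ^ 3
        + 3 * fderiv ℝ u (x τ) (v τ) ^ 2 * ‖J τ‖ ^ 2 / u (x τ) ^ 4 := by
    intro τ hτ f
    obtain ⟨p1, p2⟩ := hperp τ hτ
    have hp := (hpos (x τ)).ne'
    have hp0 := hpos (x τ)
    have e1 := hJ.eq τ hτ (J τ)
    have e2 := hg.eq τ hτ (G τ)
    have e3 := hK τ hτ (J τ)
    have e4 : ⟪v τ, v τ⟫_ℝ = u (x τ) ^ 2 := by rw [real_inner_self_eq_norm_sq, hg.sp τ hτ]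
    have e5 : fderiv ℝ u (x τ) (w τ) = ⟪w τ, G τ⟫_ℝ := by
      rw [real_inner_comm, hG τ hτ]
    have e6 : ⟪v τ, G τ⟫_ℝ = fderiv ℝ u (x τ) (v τ) := by
      rw [real_inner_comm, hG τ hτ]
    have e7 : fderiv ℝ u (x τ) (G τ) = ‖G τ‖ ^ 2 := by
      rw [← hG τ hτ, real_inner_self_eq_norm_sq]
    rw [e5, e2, e6, e7]
    rw [real_inner_comm (J τ) (v τ), p1, real_inner_comm (J1 τ) (v τ), p2,
      real_inner_comm (J τ) (J1 τ)] at e1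
    rw [e1]
    have e8 : 0 ≤ ‖(1 / u (x τ)) • J1 τ - ((fderiv ℝ u (x τ) (v τ) / u (x τ) ^ 2 + f / u (x τ)) • J τ
        + (fderiv ℝ u (x τ) (J τ) / u (x τ) ^ 2) • v τ)‖ ^ 2 := by positivity
    rw [norm_sub_sq_real, norm_add_sq_real, inner_add_right] at e8
    simp only [norm_smul, inner_smul_left, inner_smul_right, mul_pow, Real.norm_eq_abs, sq_abs,
      p1, p2, hg.sp τ hτ, conj_trivial] at e8
    rw [real_inner_comm (J τ) (J1 τ)] at e8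
    generalize fderiv ℝ u (x τ) (v τ) = a at *
    generalize fderiv ℝ u (x τ) (J τ) = b at *
    generalize fderiv ℝ (fderiv ℝ u) (x τ) (J τ) (J τ) = HJ at *
    generalize fderiv ℝ (fderiv ℝ u) (x τ) (v τ) (v τ) = Hv at *
    generalize ⟪J τ, J1 τ⟫_ℝ = q at *
    generalize u (x τ) = U at *
    generalize ‖J τ‖ = m at *
    generalize ‖J1 τ‖ = m1 at *
    generalize ‖G τ‖ = gg at *
    generalize K τ = k at *
    have e9 : 0 ≤ (k * m ^ 2 - (U * HJ + Hv / U * m ^ 2 - gg ^ 2 * m ^ 2)) / U ^ 2 :=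
      div_nonneg (by linarith) (by positivity)
    refine le_of_sub_nonneg ?_
    refine (add_nonneg e8 e9).trans (le_of_eq ?_)
    field_simp
    ring
  -- `Q = N'/2 - (ψ'/ψ) N` is nondecreasing
  have hQ : ∀ τ ∈ Icc s t, HasDerivAt (fun r => (⟪J r, J1 r⟫_ℝ / u (x r) ^ 2
        - fderiv ℝ u (x r) (v r) * ‖J r‖ ^ 2 / u (x r) ^ 3)
        - ψ1 r / ψ r * (‖J r‖ ^ 2 / u (x r) ^ 2))
      (((‖J1 τ‖ ^ 2 + ⟪J2 τ, J τ⟫_ℝ) / u (x τ) ^ 2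
        - 4 * fderiv ℝ u (x τ) (v τ) * ⟪J τ, J1 τ⟫_ℝ / u (x τ) ^ 3
        - (fderiv ℝ (fderiv ℝ u) (x τ) (v τ) (v τ) + fderiv ℝ u (x τ) (w τ)) * ‖J τ‖ ^ 2
          / u (x τ) ^ 3
        + 3 * fderiv ℝ u (x τ) (v τ) ^ 2 * ‖J τ‖ ^ 2 / u (x τ) ^ 4)
        - (((ψ2 τ * ψ τ - ψ1 τ * ψ1 τ) / ψ τ ^ 2) * (‖J τ‖ ^ 2 / u (x τ) ^ 2)
          + ψ1 τ / ψ τ * (2 * (⟪J τ, J1 τ⟫_ℝ / u (x τ) ^ 2
        - fderiv ℝ u (x τ) (v τ) * ‖J τ‖ ^ 2 / u (x τ) ^ 3)))) τ := by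
    intro τ hτ
    exact (hB τ hτ).sub (((hψ2 τ hτ).div (hψ1 τ hτ) (hψ τ hτ).ne').fun_mul (hN τ hτ))
  have hmono : MonotoneOn (fun r => (⟪J r, J1 r⟫_ℝ / u (x r) ^ 2
        - fderiv ℝ u (x r) (v r) * ‖J r‖ ^ 2 / u (x r) ^ 3)
        - ψ1 r / ψ r * (‖J r‖ ^ 2 / u (x r) ^ 2)) (Icc s t) := by
    refine monotoneOn_of_deriv_nonneg (convex_Icc s t)
      (fun τ hτ => (hQ τ hτ).continuousAt.continuousWithinAt)
      (fun τ hτ => (hQ τ (interior_subset hτ)).differentiableAt.differentiableWithinAt)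
      (fun τ hτ => ?_)
    have hτ' := interior_subset hτ
    rw [(hQ τ hτ').deriv]
    have h3 := hine τ hτ' (ψ1 τ / ψ τ)
    have h4 := hsup τ hτ'
    have h5 := hψ τ hτ'
    have h6 : 0 ≤ ‖J τ‖ ^ 2 / u (x τ) ^ 2 := by positivity
    have h7 : 0 ≤ -(ψ2 τ + K τ * ψ τ) / ψ τ * (‖J τ‖ ^ 2 / u (x τ) ^ 2) :=
      mul_nonneg (div_nonneg (by linarith) h5.le) h6
    have h8 : -(ψ2 τ + K τ * ψ τ) / ψ τ * (‖J τ‖ ^ 2 / u (x τ) ^ 2)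
        = -((ψ1 τ / ψ τ) ^ 2 + K τ) * (‖J τ‖ ^ 2 / u (x τ) ^ 2)
          - ((ψ2 τ * ψ τ - ψ1 τ * ψ1 τ) / ψ τ ^ 2) * (‖J τ‖ ^ 2 / u (x τ) ^ 2) := by
      have := h5.ne'
      field_simp
      ring
    linarith
  have hQs : (⟪J s, J1 s⟫_ℝ / u (x s) ^ 2
        - fderiv ℝ u (x s) (v s) * ‖J s‖ ^ 2 / u (x s) ^ 3)
        - ψ1 s / ψ s * (‖J s‖ ^ 2 / u (x s) ^ 2) = 0 := by
    rw [h0]; simp
  have hQt : (⟪J t, J1 t⟫_ℝ / u (x t) ^ 2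
        - fderiv ℝ u (x t) (v t) * ‖J t‖ ^ 2 / u (x t) ^ 3)
        - ψ1 t / ψ t * (‖J t‖ ^ 2 / u (x t) ^ 2) = 0 := by
    rw [h1]; simp
  have hQ0 : ∀ τ ∈ Icc s t, (⟪J τ, J1 τ⟫_ℝ / u (x τ) ^ 2
        - fderiv ℝ u (x τ) (v τ) * ‖J τ‖ ^ 2 / u (x τ) ^ 3)
        - ψ1 τ / ψ τ * (‖J τ‖ ^ 2 / u (x τ) ^ 2) = 0 := by
    intro τ hτ
    have h3 := hmono (left_mem_Icc.2 hst.le) hτ hτ.1
    have h4 := hmono hτ (right_mem_Icc.2 hst.le) hτ.2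
    simp only at h3 h4
    rw [hQs] at h3
    rw [hQt] at h4
    exact le_antisymm h4 h3
  have hfin : ∀ τ ∈ Icc s t, HasDerivAt (fun r => ‖J r‖ ^ 2 / u (x r) ^ 2 / ψ r ^ 2) 0 τ := by
    intro τ hτ
    have h5 := (hψ τ hτ).ne'
    have a2 : HasDerivAt (fun r => ψ r ^ 2) (2 * ψ τ * ψ1 τ) τ := by
      refine ((hψ1 τ hτ).pow 2).congr_deriv ?_
      norm_num
    refine ((hN τ hτ).div a2 (pow_ne_zero 2 h5)).congr_deriv ?_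
    have h6 := hQ0 τ hτ
    have h7 : ⟪J τ, J1 τ⟫_ℝ / u (x τ) ^ 2
        - fderiv ℝ u (x τ) (v τ) * ‖J τ‖ ^ 2 / u (x τ) ^ 3
        = ψ1 τ / ψ τ * (‖J τ‖ ^ 2 / u (x τ) ^ 2) := by linarith
    rw [h7]
    field_simp
    ring
  intro τ hτ
  have h3 := const_of_deriv_zero hfin hτ
  rw [h0] at h3
  simp only [norm_zero, ne_eq, OfNat.ofNat_ne_zero, not_false_eq_true, zero_pow, zero_div,
    div_eq_zero_iff, pow_eq_zero_iff, norm_eq_zero] at h3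
  rcases h3 with (h3 | h3) | h3
  · exact h3
  · exact absurd h3 (hpos _).ne'
  · exact absurd h3 (hψ τ hτ).ne'

end

end

end Pool.Agent.Y495.SM
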