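import Pool.Agent.Y495.SM.Defs
import Pool.Agent.Y495.SM.Jac
import Pool.Agent.H498R3.NTGeod

/-!
The conformally flat metrics `u⁻² |dx|²`: translation of the coordinate definitions.
-/

set_option autoImplicit false

namespace Pool.Agent.Y495.SM

open scoped BigOperators ContDiff InnerProductSpace
open Set Pool.Agent.H498R3

noncomputable section

variable {n : ℕ}

lemma christoffel_eq (g : MetricField n) (k i j : Fin n) (x : E n) :
    christoffel g k i j x = NT.christoffel g x k i j := rfl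

lemma hess_eq (g : MetricField n) (f : E n → ℝ) (x v : E n) :
    hess g f x v = NT.hessForm g f x v := rfl

lemma geo_iff {g : MetricField n} {γ : ℝ → E n} {a b : ℝ} (h : IsGeodesic g γ a b) :
    NT.IsUnitSpeedGeodesic g γ a b := ⟨h.smooth, h.unit, h.eqn⟩

/-- The metric `u⁻² |dx|²`. -/
def mt (u : E n → ℝ) : MetricField n := NT.conf fun x => -Real.log (u x)

variable {u : E n → ℝ}

lemma two_of_smooth (hu : ContDiff ℝ ∞ u) : ContDiff ℝ 2 u := contDiff_infty.1 hu 2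

lemma phi_smooth (hu : ContDiff ℝ ∞ u) (hpos : ∀ x, 0 < u x) :
    ContDiff ℝ ∞ fun x => -Real.log (u x) :=
  (hu.log fun x => (hpos x).ne').neg

lemma phi_hasFDerivAt (hu : ContDiff ℝ ∞ u) (hpos : ∀ x, 0 < u x) (x : E n) :
    HasFDerivAt (fun x => -Real.log (u x)) (-((u x)⁻¹ • fderiv ℝ u x)) x := by
  have h1 : HasFDerivAt u (fderiv ℝ u x) x := ((hu.differentiable (by simp)) x).hasFDerivAt
  exact (h1.log (hpos x).ne').neg

lemma phi_fderiv (hu : ContDiff ℝ ∞ u) (hpos : ∀ x, 0 < u x) (x z : E n) :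
    fderiv ℝ (fun x => -Real.log (u x)) x z = -(fderiv ℝ u x z / u x) := by
  rw [(phi_hasFDerivAt hu hpos x).fderiv]
  simp [div_eq_inv_mul]

lemma phi_fderiv_fun (hu : ContDiff ℝ ∞ u) (hpos : ∀ x, 0 < u x) :
    fderiv ℝ (fun x => -Real.log (u x)) = fun x => -((u x)⁻¹ • fderiv ℝ u x) := by
  funext x
  exact (phi_hasFDerivAt hu hpos x).fderiv

lemma phi_fderiv2 (hu : ContDiff ℝ ∞ u) (hpos : ∀ x, 0 < u x) (x y z : E n) :
    fderiv ℝ (fderiv ℝ (fun x => -Real.log (u x))) x y z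
      = -(fderiv ℝ (fderiv ℝ u) x y z / u x) + fderiv ℝ u x y * fderiv ℝ u x z / u x ^ 2 := by
  rw [phi_fderiv_fun hu hpos]
  have h1 : HasFDerivAt u (fderiv ℝ u x) x := ((hu.differentiable (by simp)) x).hasFDerivAt
  have hu2 : ContDiff ℝ 2 u := two_of_smooth hu
  have h2 : HasFDerivAt (fderiv ℝ u) (fderiv ℝ (fderiv ℝ u) x) x :=
    (((hu2.contDiffAt).fderiv_right (m := 1) (by norm_num)).differentiableAt (by simp)).hasFDerivAt
  have h3 : HasFDerivAt (fun x => (u x)⁻¹) (-(u x ^ 2)⁻¹ • fderiv ℝ u x) x :=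
    (hasDerivAt_inv (hpos x).ne').comp_hasFDerivAt x h1
  have h4 := (h3.smul h2).neg
  have h5 : HasFDerivAt (fun x => -((u x)⁻¹ • fderiv ℝ u x)) _ x := h4
  rw [h5.fderiv]
  simp only [neg_apply, add_apply, smul_apply, ContinuousLinearMap.smulRight_apply, smul_eq_mul]
  have := (hpos x).ne'
  field_simp
  ring

lemma bil_sum {f : E n → ℝ} {x : E n} (hf : ContDiffAt ℝ 2 f x) (a b : E n) :
    ∑ i, ∑ j, pd i (pd j f) x * a i * b j = fderiv ℝ (fderiv ℝ f) x a b := by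
  have hd : DifferentiableAt ℝ (fderiv ℝ f) x :=
    (hf.fderiv_right (m := 1) (by norm_num)).differentiableAt (by simp)
  have e : ∀ i j : Fin n, pd i (pd j f) x
      = fderiv ℝ (fderiv ℝ f) x (EuclideanSpace.single i 1) (EuclideanSpace.single j 1) := by
    intro i j
    unfold pd
    rw [fderiv_clm_apply hd (differentiableAt_const _)]
    simp
  have ha : a = ∑ i, a i • (EuclideanSpace.single i (1 : ℝ) : E n) := by
    ext j
    simp [Finset.sum_apply, Pi.single_apply]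
  have hb : b = ∑ i, b i • (EuclideanSpace.single i (1 : ℝ) : E n) := by
    ext j
    simp [Finset.sum_apply, Pi.single_apply]
  conv_rhs => rw [ha, hb]
  simp only [map_sum, map_smul, _root_.sum_apply, _root_.smul_apply, smul_eq_mul, e,
    Finset.mul_sum]
  rw [Finset.sum_comm]
  refine Finset.sum_congr rfl fun i _ => Finset.sum_congr rfl fun j _ => ?_
  ring

lemma bil_sum_left {f : E n → ℝ} {x : E n} (hf : ContDiffAt ℝ 2 f x) (a : E n) (k : Fin n) :
    ∑ l, pd l (pd k f) x * a l = fderiv ℝ (fderiv ℝ f) x a (EuclideanSpace.single k 1) := by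
  have h := bil_sum hf a (EuclideanSpace.single k 1)
  rw [← h]
  refine Finset.sum_congr rfl fun l _ => ?_
  rw [Finset.sum_eq_single k]
  · simp
  · intro j _ hj
    simp [hj]
  · intro h; exact absurd (Finset.mem_univ _) h

section Jacobi

variable {φ : E n → ℝ}

lemma pd_diff (hφ : ContDiff ℝ ∞ φ) (i : Fin n) (x : E n) : DifferentiableAt ℝ (pd i φ) x := by
  have h2 : DifferentiableAt ℝ (fderiv ℝ φ) x :=
    ((((two_of_smooth hφ).contDiffAt).fderiv_right (m := 1) (by norm_num)).differentiableAt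
      (by simp))
  unfold pd
  exact h2.clm_apply (differentiableAt_const _)

lemma pd_christoffel_conf (hφ : ContDiff ℝ ∞ φ) (l k i j : Fin n) (x : E n) :
    pd l (christoffel (NT.conf φ) k i j) x
      = pd l (pd i φ) x * (1 : Matrix (Fin n) (Fin n) ℝ) k j
        + pd l (pd j φ) x * (1 : Matrix (Fin n) (Fin n) ℝ) k i
        - pd l (pd k φ) x * (1 : Matrix (Fin n) (Fin n) ℝ) i j := by
  have h1 : christoffel (NT.conf φ) k i j = fun x =>
      pd i φ x * (1 : Matrix (Fin n) (Fin n) ℝ) k j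
      + pd j φ x * (1 : Matrix (Fin n) (Fin n) ℝ) k i
        - pd k φ x * (1 : Matrix (Fin n) (Fin n) ℝ) i j := by
    funext x
    rw [christoffel_eq, NT.christoffel_conf ((hφ.differentiable (by simp)) x)]
    rfl
  have hd : ∀ (i : Fin n), HasFDerivAt (pd i φ) (fderiv ℝ (pd i φ) x) x := fun i =>
    (pd_diff hφ i x).hasFDerivAt
  rw [h1]
  have h2 := (((hd i).mul_const ((1 : Matrix (Fin n) (Fin n) ℝ) k j)).add
    ((hd j).mul_const ((1 : Matrix (Fin n) (Fin n) ℝ) k i))).sub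
    ((hd k).mul_const ((1 : Matrix (Fin n) (Fin n) ℝ) i j))
  have h3 : HasFDerivAt (fun x => pd i φ x * (1 : Matrix (Fin n) (Fin n) ℝ) k j
      + pd j φ x * (1 : Matrix (Fin n) (Fin n) ℝ) k i
        - pd k φ x * (1 : Matrix (Fin n) (Fin n) ℝ) i j) _ x := h2
  change fderiv ℝ (fun x => pd i φ x * (1 : Matrix (Fin n) (Fin n) ℝ) k j
      + pd j φ x * (1 : Matrix (Fin n) (Fin n) ℝ) k i
        - pd k φ x * (1 : Matrix (Fin n) (Fin n) ℝ) i j) x (EuclideanSpace.single l 1) = _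
  rw [h3.fderiv]
  simp only [sub_apply, add_apply, smul_apply, smul_eq_mul]
  have h4 : ∀ i, fderiv ℝ (pd i φ) x (EuclideanSpace.single l 1) = pd l (pd i φ) x := fun i => rfl
  rw [h4, h4, h4]
  ring

/-- the first part of the Jacobi equation -/
lemma jac_part1 (hφ : ContDiff ℝ ∞ φ) (x J v : E n) (k : Fin n) :
    ∑ i, ∑ j, (∑ l, pd l (christoffel (NT.conf φ) k i j) x * J l) * v i * v j
      = 2 * fderiv ℝ (fderiv ℝ φ) x J v * v k
        - ‖v‖ ^ 2 * fderiv ℝ (fderiv ℝ φ) x J (EuclideanSpace.single k 1) := by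
  have hc := (two_of_smooth hφ).contDiffAt (x := x)
  have e : ∀ i j, (∑ l, pd l (christoffel (NT.conf φ) k i j) x * J l)
      = (∑ l, pd l (pd i φ) x * J l) * (1 : Matrix (Fin n) (Fin n) ℝ) k j
        + (∑ l, pd l (pd j φ) x * J l) * (1 : Matrix (Fin n) (Fin n) ℝ) k i
        - (∑ l, pd l (pd k φ) x * J l) * (1 : Matrix (Fin n) (Fin n) ℝ) i j := by
    intro i j
    simp only [pd_christoffel_conf hφ, Finset.sum_mul]
    rw [← Finset.sum_add_distrib, ← Finset.sum_sub_distrib]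
    refine Finset.sum_congr rfl fun l _ => ?_
    ring
  simp only [e, bil_sum_left hc]
  have e2 : ∀ i j : Fin n, (fderiv ℝ (fderiv ℝ φ) x J (EuclideanSpace.single i 1)
        * (1 : Matrix (Fin n) (Fin n) ℝ) k j
      + fderiv ℝ (fderiv ℝ φ) x J (EuclideanSpace.single j 1)
        * (1 : Matrix (Fin n) (Fin n) ℝ) k i
      - fderiv ℝ (fderiv ℝ φ) x J (EuclideanSpace.single k 1)
        * (1 : Matrix (Fin n) (Fin n) ℝ) i j) * v i * v j
      = (fderiv ℝ (fderiv ℝ φ) x J (EuclideanSpace.single i 1) * v i)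
          * ((1 : Matrix (Fin n) (Fin n) ℝ) k j * v j)
        + ((1 : Matrix (Fin n) (Fin n) ℝ) k i * v i)
          * (fderiv ℝ (fderiv ℝ φ) x J (EuclideanSpace.single j 1) * v j)
        - fderiv ℝ (fderiv ℝ φ) x J (EuclideanSpace.single k 1)
          * ((1 : Matrix (Fin n) (Fin n) ℝ) i j * (v i * v j)) := by
    intro i j; ring
  simp only [e2, Finset.sum_sub_distrib, Finset.sum_add_distrib]
  simp only [← Finset.mul_sum, ← Finset.sum_mul]
  have h1 : ∑ i, (1 : Matrix (Fin n) (Fin n) ℝ) k i * v i = v k := by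
    simp [Matrix.one_apply]
  have h2 : ∑ i, ∑ j, (1 : Matrix (Fin n) (Fin n) ℝ) i j * (v i * v j) = ‖v‖ ^ 2 := by
    rw [EuclideanSpace.norm_sq_eq]
    refine Finset.sum_congr rfl fun i _ => ?_
    simp [Matrix.one_apply, sq]
  have h3 : ∑ i, fderiv ℝ (fderiv ℝ φ) x J (EuclideanSpace.single i 1) * v i
      = fderiv ℝ (fderiv ℝ φ) x J v := by
    have hv : v = ∑ i, v i • (EuclideanSpace.single i (1 : ℝ) : E n) := by
      ext j
      simp [Finset.sum_apply, Pi.single_apply]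
    conv_rhs => rw [hv]
    rw [map_sum]
    refine Finset.sum_congr rfl fun i _ => ?_
    rw [map_smul, smul_eq_mul]; ring
  rw [h1, h2, h3]
  ring

/-- the second part of the Jacobi equation -/
lemma jac_part2 (hφ : ContDiff ℝ ∞ φ) (x v w : E n) (k : Fin n) :
    ∑ i, ∑ j, 2 * christoffel (NT.conf φ) k i j x * v i * w j
      = 2 * (fderiv ℝ φ x v * w k + fderiv ℝ φ x w * v k - ⟪v, w⟫_ℝ * pd k φ x) := by
  have e : ∀ i j, 2 * christoffel (NT.conf φ) k i j x * v i * w j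
      = 2 * ((pd i φ x * v i) * ((1 : Matrix (Fin n) (Fin n) ℝ) k j * w j)
        + ((1 : Matrix (Fin n) (Fin n) ℝ) k i * v i) * (pd j φ x * w j)
        - pd k φ x * ((1 : Matrix (Fin n) (Fin n) ℝ) i j * (v i * w j))) := by
    intro i j
    rw [christoffel_eq, NT.christoffel_conf ((hφ.differentiable (by simp)) x)]
    change 2 * (pd i φ x * _ + pd j φ x * _ - pd k φ x * _) * v i * w j = _
    ring
  simp only [e, ← Finset.mul_sum, Finset.sum_sub_distrib, Finset.sum_add_distrib]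
  simp only [← Finset.sum_mul]
  have h1 : ∀ v : E n, ∑ i, (1 : Matrix (Fin n) (Fin n) ℝ) k i * v i = v k := by
    intro v; simp [Matrix.one_apply]
  have h2 : ∑ i, ∑ j, (1 : Matrix (Fin n) (Fin n) ℝ) i j * (v i * w j) = ⟪v, w⟫_ℝ := by
    rw [PiLp.inner_apply]
    refine Finset.sum_congr rfl fun i _ => ?_
    simp [Matrix.one_apply, mul_comm]
  have h3 : ∀ v : E n, ∑ i, pd i φ x * v i = fderiv ℝ φ x v := fun v => NT.sum_pd_mul φ x v
  rw [h1, h1, h2, h3, h3]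
  ring

lemma jac_weak (hφ : ContDiff ℝ ∞ φ) {γ J : ℝ → E n} {a b : ℝ}
    (hJ : IsJacobi (NT.conf φ) γ J a b) {t : ℝ} (ht : t ∈ Ioo a b) (z : E n) :
    ⟪deriv (deriv J) t, z⟫_ℝ + (2 * fderiv ℝ (fderiv ℝ φ) (γ t) (J t) (deriv γ t) * ⟪deriv γ t, z⟫_ℝ
        - ‖deriv γ t‖ ^ 2 * fderiv ℝ (fderiv ℝ φ) (γ t) (J t) z)
      + 2 * (fderiv ℝ φ (γ t) (deriv γ t) * ⟪deriv J t, z⟫_ℝ
        + fderiv ℝ φ (γ t) (deriv J t) * ⟪deriv γ t, z⟫_ℝ
        - ⟪deriv γ t, deriv J t⟫_ℝ * fderiv ℝ φ (γ t) z) = 0 := by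
  have h1 : ∀ k, deriv (deriv J) t k
      + ((2 * fderiv ℝ (fderiv ℝ φ) (γ t) (J t) (deriv γ t) * deriv γ t k
        - ‖deriv γ t‖ ^ 2 * fderiv ℝ (fderiv ℝ φ) (γ t) (J t) (EuclideanSpace.single k 1))
      + 2 * (fderiv ℝ φ (γ t) (deriv γ t) * deriv J t k + fderiv ℝ φ (γ t) (deriv J t) * deriv γ t k
        - ⟪deriv γ t, deriv J t⟫_ℝ * pd k φ (γ t))) = 0 := by
    intro k
    have h2 := hJ.eqn t ht k
    simp only [Finset.sum_add_distrib] at h2
    rw [jac_part1 hφ, jac_part2 hφ] at h2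
    exact h2
  have hin : ∀ a : E n, ⟪a, z⟫_ℝ = ∑ k, a k * z k := by
    intro a
    rw [PiLp.inner_apply]
    refine Finset.sum_congr rfl fun i _ => ?_
    simp [mul_comm]
  have h3 : ∑ k, fderiv ℝ (fderiv ℝ φ) (γ t) (J t) (EuclideanSpace.single k 1) * z k
      = fderiv ℝ (fderiv ℝ φ) (γ t) (J t) z := by
    have hv : z = ∑ i, z i • (EuclideanSpace.single i (1 : ℝ) : E n) := by
      ext j
      simp [Finset.sum_apply, Pi.single_apply]
    conv_rhs => rw [hv]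
    rw [map_sum]
    refine Finset.sum_congr rfl fun i _ => ?_
    rw [map_smul, smul_eq_mul]; ring
  have h4 : ∑ k, pd k φ (γ t) * z k = fderiv ℝ φ (γ t) z := NT.sum_pd_mul φ (γ t) z
  have h5 : ∑ k, (deriv (deriv J) t k
      + ((2 * fderiv ℝ (fderiv ℝ φ) (γ t) (J t) (deriv γ t) * deriv γ t k
        - ‖deriv γ t‖ ^ 2 * fderiv ℝ (fderiv ℝ φ) (γ t) (J t) (EuclideanSpace.single k 1))
      + 2 * (fderiv ℝ φ (γ t) (deriv γ t) * deriv J t k + fderiv ℝ φ (γ t) (deriv J t) * deriv γ t k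
        - ⟪deriv γ t, deriv J t⟫_ℝ * pd k φ (γ t)))) * z k = 0 :=
    Finset.sum_eq_zero fun k _ => by rw [h1 k, zero_mul]
  rw [hin, hin (deriv γ t), hin (deriv J t), ← h3, ← h4]
  rw [← h5]
  simp only [Finset.mul_sum, ← Finset.sum_add_distrib, ← Finset.sum_sub_distrib]
  refine Finset.sum_congr rfl fun k _ => ?_
  ring

end Jacobi

/-- A unit-speed geodesic of `u⁻² |dx|²`. -/
lemma geo_of (hu : ContDiff ℝ ∞ u) (hpos : ∀ x, 0 < u x) {γ : ℝ → E n} {a b : ℝ}
    (hγ : IsGeodesic (mt u) γ a b) {s t : ℝ} (hs : a < s) (ht : t < b) :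
    Geo u γ (deriv γ) (deriv (deriv γ)) s t := by
  have hsub : Icc s t ⊆ Ioo a b := fun τ hτ => ⟨lt_of_lt_of_le hs hτ.1, lt_of_le_of_lt hτ.2 ht⟩
  have hg := geo_iff hγ
  have hsp : ∀ τ ∈ Icc s t, ‖deriv γ τ‖ = u (γ τ) := by
    intro τ hτ
    rw [NT.geod_norm hg (hsub hτ), neg_neg, Real.exp_log (hpos _)]
  refine ⟨fun τ hτ => NT.geod_d1 hg (hsub hτ), fun τ hτ => NT.geod_d2 hg (hsub hτ), hsp, ?_⟩
  intro τ hτ z
  rw [NT.geod_acc (phi_smooth hu hpos) hg (hsub hτ), inner_add_left, inner_smul_left,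
    inner_smul_left, NT.inner_gr, hsp τ hτ, phi_fderiv hu hpos, phi_fderiv hu hpos]
  have := (hpos (γ τ)).ne'
  simp only [conj_trivial]
  field_simp
  ring

/-- A Jacobi field of `u⁻² |dx|²`. -/
lemma jac_of (hu : ContDiff ℝ ∞ u) (hpos : ∀ x, 0 < u x) {γ J : ℝ → E n} {a b : ℝ}
    (hγ : IsGeodesic (mt u) γ a b) (hJ : IsJacobi (mt u) γ J a b) {s t : ℝ} (hs : a < s)
    (ht : t < b) : Jac u γ (deriv γ) J (deriv J) (deriv (deriv J)) s t := by
  have hsub : Icc s t ⊆ Ioo a b := fun τ hτ => ⟨lt_of_lt_of_le hs hτ.1, lt_of_le_of_lt hτ.2 ht⟩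
  have hg := geo_of hu hpos hγ hs ht
  refine ⟨fun τ hτ => ?_, fun τ hτ => ?_, fun τ hτ z => ?_⟩
  · exact ((hJ.smooth.contDiffAt (isOpen_Ioo.mem_nhds (hsub hτ))).differentiableAt
      (by simp)).hasDerivAt
  · have h : ContDiffAt ℝ 1 (deriv J) τ :=
      (hJ.smooth.contDiffAt (isOpen_Ioo.mem_nhds (hsub hτ))).derivWithin (by norm_num)
    exact (h.differentiableAt (by simp)).hasDerivAt
  · have h1 := jac_weak (phi_smooth hu hpos) hJ (hsub hτ) z
    rw [phi_fderiv2 hu hpos, phi_fderiv2 hu hpos, phi_fderiv hu hpos, phi_fderiv hu hpos,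
      phi_fderiv hu hpos, hg.sp τ hτ] at h1
    have := (hpos (γ τ)).ne'
    field_simp at h1 ⊢
    linarith

lemma mt_riem (hu : ContDiff ℝ ∞ u) (hpos : ∀ x, 0 < u x) : IsRiemannian (mt u) := by
  have h := NT.conf_riem (phi_smooth hu hpos)
  exact ⟨fun i j => contDiffOn_univ.1 (h.smooth i j), fun x => h.posDef x (mem_univ _)⟩

lemma hess_mt (hu : ContDiff ℝ ∞ u) (hpos : ∀ x, 0 < u x) {f : E n → ℝ} {x : E n}
    (hf : ContDiffAt ℝ 2 f x) (v G : E n) (hG : ∀ z, ⟪G, z⟫_ℝ = fderiv ℝ u x z) :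
    hess (mt u) f x v = fderiv ℝ (fderiv ℝ f) x v v
      + (2 * fderiv ℝ u x v * fderiv ℝ f x v - ‖v‖ ^ 2 * fderiv ℝ f x G) / u x := by
  unfold mt
  rw [hess_eq, NT.hessForm_conf ((phi_smooth hu hpos).differentiable (by simp) x),
    phi_fderiv hu hpos, NT.sum_pd_pd hf]
  have h1 : NT.gr (fun x => -Real.log (u x)) x = -((u x)⁻¹ • G) := by
    refine ext_inner_right ℝ fun z => ?_
    rw [NT.inner_gr, phi_fderiv hu hpos, inner_neg_left, inner_smul_left, hG]
    simp [div_eq_inv_mul]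
  rw [h1]
  simp only [map_neg, map_smul, smul_eq_mul]
  ring

end

end Pool.Agent.Y495.SM
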