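import Mathlib

/-!
Geodesics, Jacobi fields, convex functions and simple metrics on closed balls of `ℝ^n`; the
metrics are given by their components `g_ij(x)` in the standard coordinates.
-/

set_option autoImplicit false

namespace Pool.Agent.Y495.SM

open scoped BigOperators ContDiff InnerProductSpace

noncomputable section

/-- Euclidean `n`-space. -/
abbrev E (n : ℕ) := EuclideanSpace ℝ (Fin n)

/-- The components `g_ij(x)` of a metric on `ℝ^n`. -/
abbrev MetricField (n : ℕ) := E n → Matrix (Fin n) (Fin n) ℝ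

variable {n : ℕ}

/-- The partial derivative `∂_i f` at `x`. -/
def pd (i : Fin n) (f : E n → ℝ) (x : E n) : ℝ := fderiv ℝ f x (EuclideanSpace.single i 1)

/-- `g` is a smooth Riemannian metric on `ℝ^n`. -/
structure IsRiemannian (g : MetricField n) : Prop where
  smooth : ∀ i j, ContDiff ℝ ∞ fun x => g x i j
  posDef : ∀ x, (g x).PosDef

/-- Christoffel symbols `Γ^k_ij = g^{km} (∂_i g_mj + ∂_j g_mi - ∂_m g_ij) / 2`. -/
def christoffel (g : MetricField n) (k i j : Fin n) (x : E n) : ℝ :=
  ∑ m, (g x)⁻¹ k m * ((pd i (fun z => g z m j) x + pd j (fun z => g z m i) x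
    - pd m (fun z => g z i j) x) / 2)

/-- The Riemannian Hessian as a quadratic form,
`∇²f (v, v) = (∂_i ∂_j f - Γ^k_ij ∂_k f) v^i v^j` at the point `x`. -/
def hess (g : MetricField n) (f : E n → ℝ) (x v : E n) : ℝ :=
  ∑ i, ∑ j, (pd i (pd j f) x - ∑ k, christoffel g k i j x * pd k f x) * v i * v j

/-- `γ` is a unit-speed geodesic of `g` on the interval `(a, b)`:
`g(γ', γ') = 1` and `γ''^k + Γ^k_ij(γ) γ'^i γ'^j = 0`. -/
structure IsGeodesic (g : MetricField n) (γ : ℝ → E n) (a b : ℝ) : Prop where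
  smooth : ContDiffOn ℝ 2 γ (Set.Ioo a b)
  unit : ∀ t ∈ Set.Ioo a b, ∑ i, ∑ j, g (γ t) i j * deriv γ t i * deriv γ t j = 1
  eqn : ∀ t ∈ Set.Ioo a b, ∀ k, deriv (deriv γ) t k
    + ∑ i, ∑ j, christoffel g k i j (γ t) * deriv γ t i * deriv γ t j = 0

/-- `J` is a Jacobi field along `γ` on `(a, b)`: it solves the linearised geodesic equation
`J''^k + ∂_l Γ^k_ij(γ) J^l γ'^i γ'^j + 2 Γ^k_ij(γ) γ'^i J'^j = 0`. -/
structure IsJacobi (g : MetricField n) (γ J : ℝ → E n) (a b : ℝ) : Prop where
  smooth : ContDiffOn ℝ 2 J (Set.Ioo a b)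
  eqn : ∀ t ∈ Set.Ioo a b, ∀ k, deriv (deriv J) t k
    + ∑ i, ∑ j, ((∑ l, pd l (christoffel g k i j) (γ t) * J t l) * deriv γ t i * deriv γ t j
      + 2 * christoffel g k i j (γ t) * deriv γ t i * deriv J t j) = 0

/-- The boundary sphere of `M = {‖x‖ ≤ R}` is strictly convex with respect to `g`: the Hessian of
the boundary defining function `‖x‖²` is positive on nonzero tangent vectors of the sphere. (The
second fundamental form with respect to the inward unit normal is this Hessian divided by the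
positive number `|∇ ‖x‖²|_g`.) -/
def ConvexBoundary (g : MetricField n) (R : ℝ) : Prop :=
  ∀ x : E n, ‖x‖ = R → ∀ v : E n, v ≠ 0 → ⟪x, v⟫_ℝ = 0 → 0 < hess g (fun z => ‖z‖ ^ 2) x v

/-- `M = {‖x‖ ≤ R}` is nontrapping: the lengths of the geodesics that stay in `M` are bounded. -/
def Nontrapping (g : MetricField n) (R : ℝ) : Prop :=
  ∃ L : ℝ, ∀ (γ : ℝ → E n) (a b : ℝ), IsGeodesic g γ a b →
    (∀ t ∈ Set.Ioo a b, ‖γ t‖ ≤ R) → b - a ≤ L

/-- `M = {‖x‖ ≤ R}` has no conjugate points: a Jacobi field along a geodesic segment in `M` that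
vanishes at both ends of the segment vanishes. -/
def NoConjugatePoints (g : MetricField n) (R : ℝ) : Prop :=
  ∀ (γ J : ℝ → E n) (a b : ℝ), IsGeodesic g γ a b → IsJacobi g γ J a b →
    ∀ s t : ℝ, a < s → s < t → t < b → (∀ τ ∈ Set.Icc s t, ‖γ τ‖ ≤ R) →
      J s = 0 → J t = 0 → ∀ τ ∈ Set.Icc s t, J τ = 0

/-- The closed ball `M = {‖x‖ ≤ R}` with the metric `g` is a simple Riemannian manifold: the
boundary is strictly convex, no geodesic is trapped and there are no conjugate points. -/
structure IsSimple (g : MetricField n) (R : ℝ) : Prop where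
  riemannian : IsRiemannian g
  pos : 0 < R
  convex : ConvexBoundary g R
  nontrapping : Nontrapping g R
  noConj : NoConjugatePoints g R

end

end Pool.Agent.Y495.SM
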