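import Pool.Agent.Y495.SM.Main

/-!
A simple Riemannian ball of dimension `n ≥ 3` with a net that no foliation by strictly convex
hypersurfaces can pass.
-/

set_option autoImplicit false

namespace Pool.Agent.Y495.SM

open scoped ContDiff InnerProductSpace
open Set Metric Filter Topology

noncomputable section

lemma deriv_nonneg_of_max {F : ℝ → ℝ} {G t1 t0 : ℝ} (h1 : t1 < t0) (hF : HasDerivAt F G t0)
    (hle : ∀ t ∈ Icc t1 t0, F t ≤ F t0) : 0 ≤ G := by
  have h2 : Tendsto (slope F t0) (𝓝[<] t0) (𝓝 G) :=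
    (hasDerivAt_iff_tendsto_slope.1 hF).mono_left (nhdsWithin_mono _ fun t ht => ne_of_lt ht)
  refine ge_of_tendsto h2 ?_
  filter_upwards [Ioo_mem_nhdsLT h1] with t ht
  rw [slope_def_field]
  have h3 := hle t ⟨ht.1.le, ht.2.le⟩
  exact div_nonneg_of_nonpos (by linarith) (by linarith [ht.2])

lemma no_second {F G : ℝ → ℝ} {H t1 t0 : ℝ} (h1 : t1 < t0)
    (hF : ∀ t ∈ Icc t1 t0, HasDerivAt F (G t) t) (hG : HasDerivAt G H t0) (hH : 0 < H)
    (hG0 : G t0 = 0) (hle : ∀ t ∈ Icc t1 t0, F t ≤ F t0) : False := by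
  have h2 : Tendsto (slope G t0) (𝓝[<] t0) (𝓝 H) :=
    (hasDerivAt_iff_tendsto_slope.1 hG).mono_left (nhdsWithin_mono _ fun t ht => ne_of_lt ht)
  have h3 : ∀ᶠ t in 𝓝[<] t0, 0 < slope G t0 t := h2.eventually (lt_mem_nhds hH)
  obtain ⟨s, hs, hs2⟩ := (mem_nhdsLT_iff_exists_Ioo_subset.1 h3)
  obtain ⟨t2, ht2, ht3⟩ := exists_between (max_lt hs h1)
  have ht2s : s < t2 := (le_max_left _ _).trans_lt ht2
  have ht21 : t1 < t2 := (le_max_right _ _).trans_lt ht2
  have hanti : StrictAntiOn F (Icc t2 t0) := by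
    refine strictAntiOn_of_deriv_neg (convex_Icc _ _)
      (fun t ht => (hF t ⟨ht21.le.trans ht.1, ht.2⟩).continuousAt.continuousWithinAt)
      (fun t ht => ?_)
    rw [interior_Icc] at ht
    rw [(hF t ⟨ht21.le.trans ht.1.le, ht.2.le⟩).deriv]
    have h4 : 0 < slope G t0 t := hs2 ⟨ht2s.trans ht.1, ht.2⟩
    rw [slope_def_field, hG0, sub_zero] at h4
    by_contra hcon
    have h5 : G t / (t - t0) ≤ 0 :=
      div_nonpos_of_nonneg_of_nonpos (not_lt.1 hcon) (by linarith [ht.2])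
    linarith
  have h4 := hanti (left_mem_Icc.2 ht3.le) (right_mem_Icc.2 ht3.le) ht3
  have h5 := hle t2 ⟨ht21.le, ht3.le⟩
  linarith

section

variable {n : ℕ} {κ : E n → ℝ} {χ X : ℝ → ℝ} {h η Y1 Ck b δ : ℝ}

/-- the Hessian along an edge of the net -/
lemma arc_hess (P : Par κ χ X h η Y1 Ck b δ) {r Y R : ℝ} (hr : Rad χ X b δ r Y) (hrR : r < R)
    {f : E n → ℝ} (hf : ContDiffOn ℝ 2 f (ball 0 R))
    {m d : E n} (hm : ‖m‖ = 1) (hd : ‖d‖ = 1) (hmd : ⟪m, d⟫_ℝ = 0) (t : ℝ)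
    (hκ : κ =ᶠ[nhds (r • (Real.cos t • m + Real.sin t • d))] fun _ => 1) :
    HasDerivAt (fun t => f (r • (Real.cos t • m + Real.sin t • d)))
      (fderiv ℝ f (r • (Real.cos t • m + Real.sin t • d))
        (r • (-(Real.sin t • m) + Real.cos t • d))) t ∧
    HasDerivAt (fun t => fderiv ℝ f (r • (Real.cos t • m + Real.sin t • d))
        (r • (-(Real.sin t • m) + Real.cos t • d)))
      (hess (mt (uu κ X b δ)) f (r • (Real.cos t • m + Real.sin t • d))
        (r • (-(Real.sin t • m) + Real.cos t • d))) t ∧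
    r • (-(Real.sin t • m) + Real.cos t • d) ≠ 0 ∧
    r • (Real.cos t • m + Real.sin t • d) ∈ ball (0 : E n) R := by
  have hr0 := hr.r0
  set c : ℝ → E n := fun t => r • (Real.cos t • m + Real.sin t • d) with hc
  set c' : ℝ → E n := fun t => r • (-(Real.sin t • m) + Real.cos t • d) with hc'
  have hdc : ∀ t, HasDerivAt c (c' t) t := by
    intro t
    have := (((Real.hasDerivAt_cos t).smul_const m).add
      ((Real.hasDerivAt_sin t).smul_const d)).const_smul r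
    refine this.congr_deriv ?_
    simp only [hc', neg_smul]
  have hdc' : ∀ t, HasDerivAt c' (-c t) t := by
    intro t
    have := ((((Real.hasDerivAt_sin t).smul_const m).neg).add
      ((Real.hasDerivAt_cos t).smul_const d)).const_smul r
    refine this.congr_deriv ?_
    simp only [hc, neg_smul, smul_add, smul_neg]
    abel
  have hns : ∀ p q : ℝ, ‖p • m + q • d‖ ^ 2 = p ^ 2 + q ^ 2 := by
    intro p q
    rw [norm_add_sq_real, inner_smul_left, inner_smul_right, hmd]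
    simp only [norm_smul, mul_pow, Real.norm_eq_abs, sq_abs, hm, hd]
    simp
  have hcn : ∀ t, ‖c t‖ = r := by
    intro t
    have h1 : ‖c t‖ ^ 2 = r ^ 2 := by
      simp only [hc, norm_smul, mul_pow, Real.norm_eq_abs, sq_abs, hns]
      rw [add_comm, Real.sin_sq_add_cos_sq, mul_one]
    have h2 := norm_nonneg (c t)
    nlinarith
  have hcn' : ∀ t, ‖c' t‖ ^ 2 = r ^ 2 := by
    intro t
    have e : c' t = r • ((-Real.sin t) • m + Real.cos t • d) := by
      simp only [hc', neg_smul]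
    rw [e, norm_smul, mul_pow, Real.norm_eq_abs, sq_abs, hns, neg_sq, Real.sin_sq_add_cos_sq,
      mul_one]
  have hcc : ∀ t, ⟪c t, c' t⟫_ℝ = 0 := by
    intro t
    simp only [hc, hc', inner_smul_left, inner_smul_right, inner_add_left, inner_add_right,
      inner_neg_right, hmd, real_inner_comm m d, real_inner_self_eq_norm_sq, hm, hd, conj_trivial]
    ring
  have hball : ∀ t, c t ∈ ball (0 : E n) R := by
    intro t
    rw [mem_ball_zero_iff, hcn]
    exact hrR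
  have hfat : ∀ t, ContDiffAt ℝ 2 f (c t) := fun t => hf.contDiffAt (isOpen_ball.mem_nhds (hball t))
  have hF : HasDerivAt (fun t => fderiv ℝ f (c t) (c' t))
      (fderiv ℝ (fderiv ℝ f) (c t) (c' t) (c' t) + fderiv ℝ f (c t) (-c t)) t :=
    du_deriv_at (hfat t) (hdc t) (hdc' t)
  have hne : c' t ≠ 0 := by
    intro h0
    have := hcn' t
    rw [h0, norm_zero] at this
    have h2 : 0 < r ^ 2 := pow_pos hr0 2
    linarith
  have hF0 : HasDerivAt (fun t => f (c t)) (fderiv ℝ f (c t) (c' t)) t :=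
    ((hfat t).differentiableAt (by norm_num)).hasFDerivAt.comp_hasDerivAt t (hdc t)
  refine ⟨hF0, ?_, hne, hball t⟩
  refine hF.congr_deriv ?_
  rw [hess_mt (uu_smooth P) (uu_pos P) (hfat t) (c' t) (grad (uu κ X b δ) (c t))
    (inner_grad _ _)]
  have hg : grad (uu κ X b δ) (c t) = (uu κ X b δ (c t) / r ^ 2) • c t := by
    refine ext_inner_right ℝ fun z => ?_
    rw [inner_grad, inner_smul_left, arc_grad P hr (hcn t) hκ]
    simp
  have hz : fderiv ℝ (uu κ X b δ) (c t) (c' t) = 0 := by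
    rw [arc_grad P hr (hcn t) hκ, hcc, mul_zero]
  have e0 : fderiv ℝ f (c t) ((uu κ X b δ (c t) / r ^ 2) • c t)
      = uu κ X b δ (c t) / r ^ 2 * fderiv ℝ f (c t) (c t) := by
    rw [map_smul, smul_eq_mul]
  rw [hg, hz, hcn', e0]
  have hU := (uu_pos P (c t)).ne'
  have hr2 : r ^ 2 ≠ 0 := (pow_pos hr0 2).ne'
  have e : (2 * 0 * fderiv ℝ f (c t) (c' t) - r ^ 2 * (uu κ X b δ (c t) / r ^ 2
      * fderiv ℝ f (c t) (c t))) / uu κ X b δ (c t) = fderiv ℝ f (c t) (-c t) := by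
    rw [map_neg]
    field_simp
    ring
  rw [e]


lemma pm_one {s : ℝ} (h : s ^ 2 = 1) : s = 1 ∨ s = -1 := by
  have h1 : (s - 1) * (s + 1) = 0 := by linear_combination h
  rcases mul_eq_zero.1 h1 with h2 | h2
  · left; linarith
  · right; linarith

/-- The oriented edges of the net, from the endpoint `m - a - c` to the endpoint `m + a + c`
through `m`. -/
def Adm (e : Fin 3 → E n) (m a c : E n) : Prop :=
  ∃ s0 s1 s2 : ℝ, s0 ^ 2 = 1 ∧ s1 ^ 2 = 1 ∧ s2 ^ 2 = 1 ∧ s0 * s1 * s2 = 1 ∧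
    ((m = s0 • e 0 ∧ a = s1 • e 1 ∧ c = s2 • e 2) ∨
      (m = s1 • e 1 ∧ a = s2 • e 2 ∧ c = s0 • e 0) ∨
      (m = s2 • e 2 ∧ a = s0 • e 0 ∧ c = s1 • e 1))

lemma Adm.cyc {e : Fin 3 → E n} {m a c : E n} (h : Adm e m a c) : Adm e a c m := by
  obtain ⟨s0, s1, s2, h0, h1, h2, h3, h | h | h⟩ := h
  · exact ⟨s0, s1, s2, h0, h1, h2, h3, Or.inr (Or.inl ⟨h.2.1, h.2.2, h.1⟩)⟩
  · exact ⟨s0, s1, s2, h0, h1, h2, h3, Or.inr (Or.inr ⟨h.2.1, h.2.2, h.1⟩)⟩
  · exact ⟨s0, s1, s2, h0, h1, h2, h3, Or.inl ⟨h.2.1, h.2.2, h.1⟩⟩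

lemma Adm.rev {e : Fin 3 → E n} {m a c : E n} (h : Adm e m a c) : Adm e m (-a) (-c) := by
  obtain ⟨s0, s1, s2, h0, h1, h2, h3, ⟨hm, ha, hc⟩ | ⟨hm, ha, hc⟩ | ⟨hm, ha, hc⟩⟩ := h
  · exact ⟨s0, -s1, -s2, h0, by rw [neg_sq]; exact h1, by rw [neg_sq]; exact h2,
      by rw [← h3]; ring, Or.inl ⟨hm, by rw [ha, neg_smul], by rw [hc, neg_smul]⟩⟩
  · exact ⟨-s0, s1, -s2, by rw [neg_sq]; exact h0, h1, by rw [neg_sq]; exact h2,
      by rw [← h3]; ring, Or.inr (Or.inl ⟨hm, by rw [ha, neg_smul], by rw [hc, neg_smul]⟩)⟩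
  · exact ⟨-s0, -s1, s2, by rw [neg_sq]; exact h0, by rw [neg_sq]; exact h1, h2,
      by rw [← h3]; ring, Or.inr (Or.inr ⟨hm, by rw [ha, neg_smul], by rw [hc, neg_smul]⟩)⟩

lemma orth_aux {e : Fin 3 → E n} (he : Orthonormal ℝ e) {i j k : Fin 3} (hij : i ≠ j)
    (hik : i ≠ k) (hjk : j ≠ k) {x y z : ℝ} (hx : x ^ 2 = 1) (hy : y ^ 2 = 1) (hz : z ^ 2 = 1) :
    ‖x • e i‖ = 1 ∧ ‖y • e j‖ = 1 ∧ ‖z • e k‖ = 1 ∧ ⟪x • e i, y • e j⟫_ℝ = 0 ∧
      ⟪x • e i, z • e k⟫_ℝ = 0 ∧ ⟪y • e j, z • e k⟫_ℝ = 0 := by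
  have a1 : ∀ w : ℝ, w ^ 2 = 1 → |w| = 1 := by
    intro w hw
    rcases pm_one hw with h1 | h1 <;> rw [h1] <;> simp
  refine ⟨?_, ?_, ?_, ?_, ?_, ?_⟩
  · rw [norm_smul, Real.norm_eq_abs, a1 x hx, he.1, one_mul]
  · rw [norm_smul, Real.norm_eq_abs, a1 y hy, he.1, one_mul]
  · rw [norm_smul, Real.norm_eq_abs, a1 z hz, he.1, one_mul]
  · rw [inner_smul_left, inner_smul_right, he.2 hij]; simp
  · rw [inner_smul_left, inner_smul_right, he.2 hik]; simp
  · rw [inner_smul_left, inner_smul_right, he.2 hjk]; simp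

lemma Adm.orth {e : Fin 3 → E n} (he : Orthonormal ℝ e) {m a c : E n} (h : Adm e m a c) :
    ‖m‖ = 1 ∧ ‖a‖ = 1 ∧ ‖c‖ = 1 ∧ ⟪m, a⟫_ℝ = 0 ∧ ⟪m, c⟫_ℝ = 0 ∧ ⟪a, c⟫_ℝ = 0 := by
  obtain ⟨s0, s1, s2, h0, h1, h2, h3, ⟨rfl, rfl, rfl⟩ | ⟨rfl, rfl, rfl⟩ | ⟨rfl, rfl, rfl⟩⟩ := h
  · exact orth_aux he (by decide) (by decide) (by decide) h0 h1 h2
  · exact orth_aux he (by decide) (by decide) (by decide) h1 h2 h0
  · exact orth_aux he (by decide) (by decide) (by decide) h2 h0 h1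

lemma netR_base {k C D x y z : ℝ} (hk : k ≤ C) (hx : x ^ 2 = 1) (hy : y ^ 2 = 1)
    (h3 : x * y * z = 1) : NetR k (C * x) (D * y) (D * z) := by
  rcases pm_one hx with h1 | h1
  · left
    rw [h1, one_mul] at h3
    have h4 : y = z := by linear_combination (-y) * h3 + z * hy
    rw [h1, h4, mul_one]
    exact ⟨rfl, hk⟩
  · right; left
    rw [h1] at h3
    have h4 : y = -z := by linear_combination (-y) * h3 - z * hy
    rw [h1, h4]
    exact ⟨by ring, by linarith⟩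

lemma Adm.net {e : Fin 3 → E n} (he : Orthonormal ℝ e) {m a c : E n} (h : Adm e m a c)
    {C D : ℝ} (hCD : C ^ 2 + 2 * D ^ 2 = 1) (hC : Real.sqrt 3 / 3 ≤ C) :
    C • m + D • (a + c) ∈ Net e := by
  obtain ⟨s0, s1, s2, h0, h1, h2, h3, ⟨rfl, rfl, rfl⟩ | ⟨rfl, rfl, rfl⟩ | ⟨rfl, rfl, rfl⟩⟩ := h
  · have := net_coords he (p := C * s0) (q := D * s1) (r := D * s2)
      (by rw [mul_pow, mul_pow, mul_pow, h0, h1, h2]; linarith) (netR_base hC h0 h1 h3)
    convert this using 1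
    module
  · have := net_coords he (p := D * s0) (q := C * s1) (r := D * s2)
      (by rw [mul_pow, mul_pow, mul_pow, h0, h1, h2]; linarith)
      (netR_base hC h1 h2 (by rw [← h3]; ring)).cyc.cyc
    convert this using 1
    module
  · have := net_coords he (p := D * s0) (q := D * s1) (r := C * s2)
      (by rw [mul_pow, mul_pow, mul_pow, h0, h1, h2]; linarith)
      (netR_base hC h2 h0 (by rw [← h3]; ring)).cyc
    convert this using 1
    module

lemma net_cases {e : Fin 3 → E n} (he : Orthonormal ℝ e) {y : E n} (hy : y ∈ Net e) :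
    ∃ m a c, Adm e m a c ∧ ∃ C D : ℝ, C ^ 2 + 2 * D ^ 2 = 1 ∧ Real.sqrt 3 / 3 ≤ C ∧
      y = C • m + D • (a + c) := by
  obtain ⟨h1, h2, h3⟩ := hy
  obtain ⟨p, hp⟩ : ∃ p, p = ⟪e 0, y⟫_ℝ := ⟨_, rfl⟩
  obtain ⟨q, hq⟩ : ∃ q, q = ⟪e 1, y⟫_ℝ := ⟨_, rfl⟩
  obtain ⟨s, hs⟩ : ∃ s, s = ⟪e 2, y⟫_ℝ := ⟨_, rfl⟩
  rw [← hp, ← hq, ← hs] at h2 h3
  have n0 := he.1 0
  have n1 := he.1 1
  have n2 := he.1 2
  have o01 : ⟪e 0, e 1⟫_ℝ = 0 := he.2 (by decide)
  have o02 : ⟪e 0, e 2⟫_ℝ = 0 := he.2 (by decide)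
  have o12 : ⟪e 1, e 2⟫_ℝ = 0 := he.2 (by decide)
  have o10 : ⟪e 1, e 0⟫_ℝ = 0 := he.2 (by decide)
  have o20 : ⟪e 2, e 0⟫_ℝ = 0 := he.2 (by decide)
  have o21 : ⟪e 2, e 1⟫_ℝ = 0 := he.2 (by decide)
  have hyy : y = p • e 0 + q • e 1 + s • e 2 := by
    have i1 : ⟪p • e 0 + q • e 1 + s • e 2, y⟫_ℝ = 1 := by
      rw [inner_add_left, inner_add_left, inner_smul_left, inner_smul_left, inner_smul_left,
        ← hp, ← hq, ← hs]
      simp only [conj_trivial]
      linarith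
    have i2 : ‖p • e 0 + q • e 1 + s • e 2‖ ^ 2 = 1 := by
      rw [← real_inner_self_eq_norm_sq]
      simp only [inner_add_left, inner_add_right, inner_smul_left, inner_smul_right,
        real_inner_self_eq_norm_sq, n0, n1, n2, o01, o02, o12, o10, o20, o21, conj_trivial]
      linarith
    have i3 : ‖(p • e 0 + q • e 1 + s • e 2) - y‖ ^ 2 = 0 := by
      rw [norm_sub_sq_real, i1, i2, h1]
      norm_num
    exact (sub_eq_zero.1 (norm_eq_zero.1 (pow_eq_zero_iff two_ne_zero |>.1 i3))).symm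
  rcases h3 with ⟨h4, h5⟩ | ⟨h4, h5⟩ | ⟨h4, h5⟩ | ⟨h4, h5⟩ | ⟨h4, h5⟩ | ⟨h4, h5⟩
  · refine ⟨e 0, e 1, e 2, ⟨1, 1, 1, by norm_num, by norm_num, by norm_num, by norm_num,
      Or.inl (by simp)⟩, p, q, by rw [← h2, ← h4]; ring, h5, ?_⟩
    rw [hyy, ← h4]; module
  · refine ⟨-e 0, e 1, -e 2, ⟨-1, 1, -1, by norm_num, by norm_num, by norm_num, by norm_num,
      Or.inl (by simp)⟩, -p, q, by rw [← h2, h4]; ring, h5, ?_⟩
    rw [hyy, h4]; module
  · refine ⟨e 1, e 2, e 0, ⟨1, 1, 1, by norm_num, by norm_num, by norm_num, by norm_num,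
      Or.inr (Or.inl (by simp))⟩, q, s, by rw [← h2, h4]; ring, h5, ?_⟩
    rw [hyy, h4]; module
  · refine ⟨-e 1, e 2, -e 0, ⟨-1, -1, 1, by norm_num, by norm_num, by norm_num, by norm_num,
      Or.inr (Or.inl (by simp))⟩, -q, s, by rw [← h2, h4]; ring, h5, ?_⟩
    rw [hyy, h4]; module
  · refine ⟨e 2, e 0, e 1, ⟨1, 1, 1, by norm_num, by norm_num, by norm_num, by norm_num,
      Or.inr (Or.inr (by simp))⟩, s, p, by rw [← h2, h4]; ring, h5, ?_⟩
    rw [hyy, h4]; module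
  · refine ⟨-e 2, e 0, -e 1, ⟨1, -1, -1, by norm_num, by norm_num, by norm_num, by norm_num,
      Or.inr (Or.inr (by simp))⟩, -s, p, by rw [← h2, h4]; ring, h5, ?_⟩
    rw [hyy, h4]; module

/-- **The level sets of a function cannot pass the net as strictly convex hypersurfaces.** -/
theorem no_fol (P : Par κ χ X h η Y1 Ck b δ) {r Y R ε : ℝ} (hr : Rad χ X b δ r Y)
    (hrR : r < R) (hr1 : r ≤ 1) (hrε : 1 - r < ε) {e : Fin 3 → E n} (he : Orthonormal ℝ e)
    (hκ : ∀ x, infDist x (Net e) ≤ ε → κ x = 1)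
    {f : E n → ℝ} (hf : ContDiffOn ℝ 2 f (ball 0 R)) {c0 : ℝ}
    (hcon : ∀ x ∈ ball (0 : E n) R, c0 < f x → ∀ v, v ≠ 0 → fderiv ℝ f x v = 0 →
      0 < hess (mt (uu κ X b δ)) f x v) :
    ∀ y ∈ Net e, f (r • y) ≤ c0 := by
  by_contra hcon2
  push Not at hcon2
  obtain ⟨y1, hy1, hy1c⟩ := hcon2
  have hr0 := hr.r0
  have hin : ∀ y ∈ Net e, r • y ∈ ball (0 : E n) R := by
    intro y hy
    rw [mem_ball_zero_iff, norm_smul, hy.1, mul_one, Real.norm_eq_abs, abs_of_pos hr0]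
    exact hrR
  have hcpt : IsCompact (Net e) := (isCompact_sphere (0 : E n) 1).of_isClosed_subset (Net_closed e)
    fun y hy => mem_sphere_zero_iff_norm.2 hy.1
  have hcont : ContinuousOn (fun y => f (r • y)) (Net e) :=
    hf.continuousOn.comp (continuous_const_smul r).continuousOn hin
  obtain ⟨y0, hy0, hmax⟩ := hcpt.exists_isMaxOn ⟨y1, hy1⟩ hcont
  have hM : ∀ y ∈ Net e, f (r • y) ≤ f (r • y0) := fun y hy => hmax hy
  have hgt : c0 < f (r • y0) := hy1c.trans_le (hM y1 hy1)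
  -- the angle
  obtain ⟨k, hk⟩ : ∃ k, k = Real.sqrt 3 / 3 := ⟨_, rfl⟩
  have h3 := Real.sq_sqrt (show (0 : ℝ) ≤ 3 by norm_num)
  have h30 := Real.sqrt_pos.2 (show (0 : ℝ) < 3 by norm_num)
  have hk2 : k ^ 2 = 1 / 3 := by rw [hk, div_pow, h3]; norm_num
  have hk0 : 0 < k := by rw [hk]; positivity
  have hk1 : k ≤ 1 := by nlinarith
  obtain ⟨α, hα⟩ : ∃ α, α = Real.arccos k := ⟨_, rfl⟩
  have hcosα : Real.cos α = k := by rw [hα]; exact Real.cos_arccos (by linarith) hk1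
  have hα0 : 0 < α := by rw [hα, Real.arccos_pos]; nlinarith
  have hαπ : α ≤ Real.pi := by rw [hα]; exact Real.arccos_le_pi k
  obtain ⟨S, hS⟩ : ∃ S, S = Real.sin α := ⟨_, rfl⟩
  have hS0 : 0 < S := by
    rw [hS, hα, Real.sin_arccos]
    apply Real.sqrt_pos.2
    nlinarith
  have hS2 : S ^ 2 = 2 / 3 := by
    have := Real.sin_sq_add_cos_sq α
    rw [← hS, hcosα, hk2] at this
    linarith
  obtain ⟨q, hq⟩ : ∃ q, q = Real.sqrt 2 / 2 := ⟨_, rfl⟩
  have h2 := Real.sq_sqrt (show (0 : ℝ) ≤ 2 by norm_num)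
  have h20 := Real.sqrt_pos.2 (show (0 : ℝ) < 2 by norm_num)
  have hq2 : q ^ 2 = 1 / 2 := by rw [hq, div_pow, h2]; norm_num
  have hq0 : 0 < q := by rw [hq]; positivity
  have hSq : S * q = k := by
    have h1 : (S * q) ^ 2 = k ^ 2 := by rw [mul_pow, hS2, hq2, hk2]; norm_num
    have h2 : 0 < S * q := mul_pos hS0 hq0
    nlinarith
  have hkq : k * q = S / 2 := by
    rw [← hSq]
    calc S * q * q = S * q ^ 2 := by ring
      _ = S / 2 := by rw [hq2]; ring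
  have hcost : ∀ t ∈ Icc (-α) α, Real.sqrt 3 / 3 ≤ Real.cos t := by
    intro t ht
    rw [← hk, ← hcosα, ← Real.cos_abs t]
    exact Real.cos_le_cos_of_nonneg_of_le_pi (abs_nonneg t) hαπ (abs_le.2 ht)
  -- the points of an edge
  have hmem : ∀ m a c : E n, Adm e m a c → ∀ t ∈ Icc (-α) α,
      Real.cos t • m + Real.sin t • q • (a + c) ∈ Net e := by
    intro m a c hadm t ht
    have h1 := hadm.net he (C := Real.cos t) (D := Real.sin t * q) (by
      rw [mul_pow, hq2]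
      have := Real.sin_sq_add_cos_sq t
      linarith) (hcost t ht)
    rwa [← smul_smul] at h1
  have hκ' : ∀ y ∈ Net e, κ =ᶠ[nhds (r • y)] fun _ => 1 := by
    intro y hy
    have hlt : infDist (r • y) (Net e) < ε := by
      refine lt_of_le_of_lt (infDist_le_dist_of_mem hy) ?_
      rw [dist_eq_norm]
      have e1 : r • y - y = (r - 1) • y := by
        rw [sub_smul, one_smul]
      rw [e1, norm_smul, hy.1, mul_one, Real.norm_eq_abs, abs_sub_comm,
        abs_of_nonneg (by linarith)]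
      exact hrε
    have hopen : IsOpen {y : E n | infDist y (Net e) < ε} :=
      isOpen_lt (continuous_infDist_pt _) continuous_const
    filter_upwards [hopen.mem_nhds hlt] with y hy
    exact hκ y (le_of_lt hy)
  have hdir : ∀ m a c : E n, Adm e m a c → ‖q • (a + c)‖ = 1 ∧ ⟪m, q • (a + c)⟫_ℝ = 0 := by
    intro m a c hadm
    obtain ⟨hm, ha, hc, hma, hmc, hac⟩ := hadm.orth he
    constructor
    · have h1 : ‖q • (a + c)‖ ^ 2 = 1 := by
        rw [norm_smul, mul_pow, Real.norm_eq_abs, sq_abs, norm_add_sq_real, hac, ha, hc, hq2]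
        norm_num
      have h2 := norm_nonneg (q • (a + c))
      nlinarith
    · rw [inner_smul_right, inner_add_right, hma, hmc]; simp
  have hedge : ∀ m a c : E n, Adm e m a c → ∀ t ∈ Icc (-α) α, _ := fun m a c hadm t ht =>
    arc_hess P hr hrR hf (hadm.orth he).1 (hdir m a c hadm).1 (hdir m a c hadm).2 t
      (hκ' _ (hmem m a c hadm t ht))
  -- a critical point of an edge
  have fin : ∀ m a c : E n, Adm e m a c → ∀ t0 ∈ Ioc (-α) α,
      y0 = Real.cos t0 • m + Real.sin t0 • q • (a + c) →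
      fderiv ℝ f (r • y0) (r • (-(Real.sin t0 • m) + Real.cos t0 • q • (a + c))) = 0 →
      False := by
    intro m a c hadm t0 ht0 hy h0
    have ht0' : t0 ∈ Icc (-α) α := ⟨ht0.1.le, ht0.2⟩
    obtain ⟨-, d2, d3, d4⟩ := hedge m a c hadm t0 ht0'
    refine no_second (F := fun t => f (r • (Real.cos t • m + Real.sin t • q • (a + c))))
      (t1 := -α) ht0.1 (fun t ht => (hedge m a c hadm t ⟨ht.1, ht.2.trans ht0.2⟩).1) d2 ?_ ?_ ?_
    · refine hcon _ d4 ?_ _ d3 ?_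
      · rw [← hy]; exact hgt
      · rw [← hy]; exact h0
    · rw [← hy]; exact h0
    · intro t ht
      rw [← hy]
      exact hM _ (hmem m a c hadm t ⟨ht.1, ht.2.trans ht0.2⟩)
  have endp : ∀ m a c : E n, Adm e m a c →
      y0 = Real.cos α • m + Real.sin α • q • (a + c) → False := by
    intro m a c hadm hy
    have hαm : α ∈ Icc (-α) α := ⟨by linarith, le_rfl⟩
    have g : ∀ m a c : E n, Adm e m a c → y0 = Real.cos α • m + Real.sin α • q • (a + c) →
        0 ≤ fderiv ℝ f (r • y0) (r • (-(Real.sin α • m) + Real.cos α • q • (a + c))) := by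
      intro m a c hadm hy
      obtain ⟨d1, -, -, -⟩ := hedge m a c hadm α hαm
      rw [hy]
      refine deriv_nonneg_of_max (t1 := -α) (by linarith) d1 fun t ht => ?_
      rw [← hy]
      exact hM _ (hmem m a c hadm t ht)
    have e4 : ∀ m a c : E n, r • (-(Real.sin α • m) + Real.cos α • q • (a + c))
        = (r * S / 2) • (-((2 : ℝ) • m) + a + c) := by
      intro m a c
      rw [hcosα, ← hS, smul_smul k, hkq]
      module
    have ev : ∀ m a c : E n, Real.cos α • m + Real.sin α • q • (a + c) = k • (m + a + c) := by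
      intro m a c
      rw [hcosα, ← hS, smul_smul S, hSq]
      module
    have g1 := g m a c hadm hy
    have g2 := g a c m hadm.cyc (by
      rw [hy, ev, ev]
      congr 1
      abel)
    have g3 := g c m a hadm.cyc.cyc (by
      rw [hy, ev, ev]
      congr 1
      abel)
    have hpos : 0 < r * S / 2 := by positivity
    rw [e4] at g1 g2 g3
    simp only [map_smul, map_add, map_neg, smul_eq_mul] at g1 g2 g3
    have g1' := nonneg_of_mul_nonneg_right g1 hpos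
    have g2' := nonneg_of_mul_nonneg_right g2 hpos
    have g3' := nonneg_of_mul_nonneg_right g3 hpos
    refine fin m a c hadm α ⟨by linarith, le_rfl⟩ hy ?_
    rw [e4]
    simp only [map_smul, map_add, map_neg, smul_eq_mul]
    have : -(2 * fderiv ℝ f (r • y0) m) + fderiv ℝ f (r • y0) a + fderiv ℝ f (r • y0) c = 0 := by
      linarith
    rw [this, mul_zero]
  -- the position of the maximum
  obtain ⟨m, a, c, hadm, C, D, hCD, hC, hy⟩ := net_cases he hy0
  have hC0 : 0 < C := by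
    rw [← hk] at hC
    linarith
  obtain ⟨t0, ht0⟩ : ∃ t0, t0 = Real.arcsin (D / q) := ⟨_, rfl⟩
  have hDq : (D / q) ^ 2 = 1 - C ^ 2 := by
    rw [div_pow, hq2]
    linarith
  have hDq1 : -1 ≤ D / q ∧ D / q ≤ 1 := by
    constructor <;> nlinarith [sq_nonneg C]
  have hsin : Real.sin t0 = D / q := by rw [ht0]; exact Real.sin_arcsin hDq1.1 hDq1.2
  have hcos : Real.cos t0 = C := by
    rw [ht0, Real.cos_arcsin, hDq]
    rw [show 1 - (1 - C ^ 2) = C ^ 2 by ring, Real.sqrt_sq hC0.le]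
  have hy' : y0 = Real.cos t0 • m + Real.sin t0 • q • (a + c) := by
    rw [hy, hcos, hsin, smul_smul, div_mul_cancel₀ _ hq0.ne']
  have habs : |t0| ≤ α := by
    by_contra hlt
    rw [not_le] at hlt
    have h1 : |t0| ≤ Real.pi := by
      rw [abs_le, ht0]
      have := Real.neg_pi_div_two_le_arcsin (D / q)
      have := Real.arcsin_le_pi_div_two (D / q)
      have := Real.pi_pos
      constructor <;> linarith
    have h2 := Real.cos_lt_cos_of_nonneg_of_le_pi hα0.le h1 hlt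
    rw [Real.cos_abs, hcos, hcosα, hk] at h2
    linarith
  obtain ⟨hl, hu⟩ := abs_le.1 habs
  rcases hu.lt_or_eq with hu1 | hu1
  · rcases hl.lt_or_eq with hl1 | hl1
    · refine fin m a c hadm t0 ⟨hl1, hu⟩ hy' ?_
      obtain ⟨d1, -, -, -⟩ := hedge m a c hadm t0 ⟨hl, hu⟩
      rw [← hy'] at d1
      refine IsLocalMax.hasDerivAt_eq_zero ?_ d1
      filter_upwards [Ioo_mem_nhds hl1 hu1] with t ht
      rw [← hy']
      exact hM _ (hmem m a c hadm t ⟨ht.1.le, ht.2.le⟩)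
    · refine endp m (-a) (-c) hadm.rev ?_
      rw [hy', ← hl1, Real.cos_neg, Real.sin_neg]
      module
  · exact endp m a c hadm (by rw [hy', hu1])

end

/-- **A simple Riemannian ball with a net that cannot be passed by strictly convex level sets.** -/
theorem simple_no_fol (n : ℕ) (hn : 3 ≤ n) :
    ∃ (g : MetricField n) (R r : ℝ) (e : Fin 3 → E n), IsSimple g R ∧ 0 < r ∧ r < R ∧
      Orthonormal ℝ e ∧ ∀ (f : E n → ℝ) (c : ℝ), ContDiffOn ℝ 2 f (ball 0 R) →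
        (∀ x ∈ ball (0 : E n) R, c < f x → ∀ v : E n, v ≠ 0 → fderiv ℝ f x v = 0 →
          0 < hess g f x v) →
        ∀ y ∈ Net e, f (r • y) ≤ c := by
  -- three orthonormal vectors
  obtain ⟨e, he⟩ : ∃ e : Fin 3 → E n, Orthonormal ℝ e := by
    refine ⟨fun i => EuclideanSpace.basisFun (Fin n) ℝ (Fin.castLE hn i), ?_⟩
    exact (EuclideanSpace.basisFun (Fin n) ℝ).orthonormal.comp _ (Fin.castLE_injective hn)
  obtain ⟨ε, hε, hε1, hN⟩ := Net_unif he
  obtain ⟨κ, hκs, hκ0, hκ1, hκon, hκoff⟩ := exists_cutoff e hε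
  obtain ⟨Ck, hCk, hd, hdd⟩ := exists_Ck hκs
  obtain ⟨om, B, hom, hB, hcp⟩ := c0_props hε hε1
  obtain ⟨ε8, he8, he8a, he8b⟩ : ∃ ε8 : ℝ, 0 < ε8 ∧ ε8 ≤ 1 / 60 ∧ ε8 * B ≤ 1 / 2 := by
    refine ⟨min (1 / 60) (1 / (2 * B)), by positivity, min_le_left _ _, ?_⟩
    calc min (1 / 60) (1 / (2 * B)) * B ≤ 1 / (2 * B) * B := by
          gcongr
          exact min_le_right _ _
      _ = 1 / 2 := by field_simp
  obtain ⟨Y1, χ, X, hY1, hprof⟩ := exists_prof (h := ε8 / 64) (η := ε8 / 128) (by positivity)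
    (by positivity)
  have hCC2 := CC2_ge hY1 hCk
  have hAA0 := AA0_ge hY1 hCk
  have hBB0 : 0 ≤ BB0 Y1 Ck := by unfold BB0; linarith
  have hCC3 : 0 ≤ CC3 Y1 Ck := by
    unfold CC3
    have : 0 ≤ Ck * Y1 := by positivity
    linarith
  obtain ⟨K, hK⟩ : ∃ K, K = 1 + Y1 + Y1 * (1 + 3 * Ck) + Ck * Y1 + (2 * Ck + 1) * (1 + Y1)
      + CC3 Y1 Ck := ⟨_, rfl⟩
  have p1 : 0 ≤ Y1 * (1 + 3 * Ck) := by positivity
  have p2 : 0 ≤ Ck * Y1 := by positivity
  have p3 : 0 ≤ (2 * Ck + 1) * (1 + Y1) := by positivity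
  have hK1 : 1 ≤ K := by rw [hK]; linarith
  obtain ⟨m, hm0, hm1, hm2⟩ : ∃ m : ℝ, 0 < m ∧ m ≤ ε ∧ m ≤ ε8 :=
    ⟨min ε ε8, lt_min hε he8, min_le_left _ _, min_le_right _ _⟩
  obtain ⟨δ, hδ⟩ : ∃ δ, δ = m / (1024 * K) := ⟨_, rfl⟩
  have hδ0 : 0 < δ := by rw [hδ]; positivity
  have hδK : δ * K = m / 1024 := by rw [hδ]; field_simp
  have hle : ∀ c, c ≤ K → δ * c ≤ m / 1024 := by
    intro c hc
    rw [← hδK]
    exact mul_le_mul_of_nonneg_left hc hδ0.le
  have hδm : δ ≤ m / 1024 := by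
    have := hle 1 hK1
    linarith
  have hδ1 : δ ≤ 1 / 4 := by linarith
  have P : Par κ χ X (ε8 / 64) (ε8 / 128) Y1 Ck (1 + ε8 / 16) δ := by
    refine ⟨hκs, hκ0, hκ1, hd, hdd, hCk, hprof, by positivity, by positivity, hY1, by linarith,
      by linarith, hδ0, hδ1, ?_⟩
    have h1 := hle Y1 (by rw [hK]; linarith)
    have h2 : δ * (δ * Y1) ≤ 1 / 4 * (m / 1024) := mul_le_mul hδ1 h1 (by positivity) (by norm_num)
    have e : δ ^ 2 * Y1 = δ * (δ * Y1) := by ring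
    rw [e]
    linarith
  have S : Sml ε om B ε8 (ε8 / 128) Y1 Ck (1 + ε8 / 16) δ := by
    refine ⟨hε, hε1, hom, hcp, he8, he8a, he8b, by linarith, by linarith, ?_, ?_, ?_⟩
    · have h1 := hle (Y1 * (1 + 3 * Ck)) (by rw [hK]; linarith)
      linarith
    · have h1 := hle (Ck * Y1) (by rw [hK]; linarith)
      have h2 := hle ((2 * Ck + 1) * (1 + Y1)) (by rw [hK]; linarith)
      linarith
    · have h1 := hle (CC3 Y1 Ck) (by rw [hK]; linarith)
      linarith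
  have hb : 1 + ε8 / 64 ≤ (1 + ε8 / 16) * (1 - 2 * δ * (1 + ε8 / 64)) := by
    have h1 : 2 * δ * (1 + ε8 / 64) ≤ 4 * (m / 1024) := by
      have : δ * (1 + ε8 / 64) ≤ m / 1024 * 2 :=
        mul_le_mul hδm (by linarith) (by positivity) (by positivity)
      linarith
    have h2 : (1 + ε8 / 16) * (2 * δ * (1 + ε8 / 64)) ≤ 2 * (4 * (m / 1024)) :=
      mul_le_mul (by linarith) h1 (by positivity) (by norm_num)
    nlinarith
  obtain ⟨Y, hY0, hY1', hYeq⟩ := exists_rad P (by linarith) hb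
  have hYpos : 0 < Y := by linarith
  obtain ⟨r, hr⟩ : ∃ r, r = Real.sqrt (1 - 2 * δ * (1 + Y)) := ⟨_, rfl⟩
  have hin : 0 < 1 - 2 * δ * (1 + Y) := by
    have : δ * (1 + Y) ≤ 1 / 1024 * 2 := by
      apply mul_le_mul _ (by linarith) (by positivity) (by norm_num)
      linarith
    linarith
  have hr0 : 0 < r := by rw [hr]; exact Real.sqrt_pos.2 hin
  have hrr : r ^ 2 = 1 - 2 * δ * (1 + Y) := by rw [hr]; exact Real.sq_sqrt hin.le
  have hRad : Rad χ X (1 + ε8 / 16) δ r Y := ⟨hr0, hrr, hYeq⟩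
  have hrR : r < Real.sqrt (1 - 2 * δ) := by
    rw [hr]
    apply Real.sqrt_lt_sqrt hin.le
    nlinarith
  have hr1 : r ≤ 1 := by
    have : 0 < δ * (1 + Y) := by positivity
    nlinarith
  have hrε : 1 - r < ε := by
    have h1 : δ * (1 + Y) ≤ m / 1024 * 2 :=
      mul_le_mul hδm (by linarith) (by positivity) (by positivity)
    nlinarith
  exact ⟨mt (uu κ X (1 + ε8 / 16) δ), Real.sqrt (1 - 2 * δ), r, e, simple_of P S hκoff hN,
    hr0, hrR, he, fun f c hf hcon => no_fol P hRad hrR hr1 hrε he hκon hf hcon⟩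

end

end Pool.Agent.Y495.SM
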