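import Pool.Agent.Y495.SM.Traj

/-!
Long geodesics contain an interval that avoids the perturbed region.
-/

set_option autoImplicit false

namespace Pool.Agent.Y495.SM

open scoped ContDiff InnerProductSpace
open Set Metric

noncomputable section

variable {V : Type*} [NormedAddCommGroup V] [InnerProductSpace ℝ V]

/-- bound for `Z'' + Z` -/
def CC2 (Y1 Ck : ℝ) : ℝ := 8 * (Y1 * (1 + 3 * Ck)) + 20

/-- a large height -/
def AA0 (Y1 Ck : ℝ) : ℝ := 4 * (CC2 Y1 Ck + Y1 + 1)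

/-- bound for `Z'` -/
def BB0 (Y1 Ck : ℝ) : ℝ := 2 * AA0 Y1 Ck + 4 * CC2 Y1 Ck

/-- bound for `|w + x| / δ` -/
def CC3 (Y1 Ck : ℝ) : ℝ := 3 * BB0 Y1 Ck + 2 * (Ck * Y1) + AA0 Y1 Ck + Y1 + 2

section

variable {κ : V → ℝ} {χ X : ℝ → ℝ} {h η Y1 Ck b δ : ℝ} {x v w : ℝ → V} {s t : ℝ}

lemma norm_le_of {δ : ℝ} (hδ : 0 < δ) {y : V} (hy : ‖y‖ ^ 2 ≤ 1 - 2 * δ) : ‖y‖ ≤ 1 := by
  nlinarith [norm_nonneg y]

lemma CC2_ge (hY : 1 ≤ Y1) (hCk : 0 ≤ Ck) : 20 ≤ CC2 Y1 Ck := by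
  unfold CC2
  have : 0 ≤ Y1 * (1 + 3 * Ck) := by positivity
  linarith

lemma AA0_ge (hY : 1 ≤ Y1) (hCk : 0 ≤ Ck) : 88 ≤ AA0 Y1 Ck := by
  unfold AA0
  have := CC2_ge hY hCk
  linarith

lemma Z_two (P : Par κ χ X h η Y1 Ck b δ) (hg : Geo (uu κ X b δ) x v w s t) {τ : ℝ}
    (hτ : τ ∈ Icc s t) (hx : ‖x τ‖ ≤ 1) :
    -CC2 Y1 Ck ≤ Z2 δ x v w τ + Z0 δ x τ ∧ Z2 δ x v w τ + Z0 δ x τ ≤ CC2 Y1 Ck := by
  have h1 := Z_bounds P hg hτ hx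
  refine ⟨h1.2, h1.1.trans ?_⟩
  unfold CC2
  have hb := P.b2
  have hb1 := P.b1
  have h2 := P.κ0 (x τ)
  have h3 := P.κ1 (x τ)
  have h4 := P.prof.χ0 (dep δ (x τ))
  have h5 := P.prof.χ1 (dep δ (x τ))
  have h6 : κ (x τ) * χ (dep δ (x τ)) ≤ 1 * 1 := mul_le_mul h3 h5 h4 (by norm_num)
  have h7 : b * (κ (x τ) * χ (dep δ (x τ))) ≤ 2 * (1 * 1) :=
    mul_le_mul hb h6 (mul_nonneg h2 h4) (by norm_num)
  have hY := P.Y11
  have hC := P.Ck0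
  have h8 : 0 ≤ Y1 * (1 + 3 * Ck) := by positivity
  have h9 : δ * (Y1 * (1 + 3 * Ck)) ≤ 1 / 4 * (Y1 * (1 + 3 * Ck)) :=
    mul_le_mul_of_nonneg_right P.δ1 h8
  linarith

lemma Z0_ge_one (hδ : 0 < δ) {y : V} (hy : ‖y‖ ^ 2 ≤ 1 - 2 * δ) :
    1 ≤ (1 - ‖y‖ ^ 2) / (1 + ‖y‖ ^ 2) / δ := by
  have h0 : 0 ≤ ‖y‖ ^ 2 := by positivity
  rw [le_div_iff₀ hδ, le_div_iff₀ (by positivity)]
  nlinarith

lemma Z0_le_dep (hδ : 0 < δ) {y : V} (hy : ‖y‖ ^ 2 ≤ 1 - 2 * δ) :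
    (1 - ‖y‖ ^ 2) / (1 + ‖y‖ ^ 2) / δ ≤ 2 * (1 + dep δ y) := by
  have h0 : 0 ≤ ‖y‖ ^ 2 := by positivity
  have e : 2 * (1 + dep δ y) = (1 - ‖y‖ ^ 2) / δ := by
    unfold dep
    field_simp
    ring
  rw [e]
  gcongr
  exact div_le_self (by linarith) (by linarith)

/-- the derivative bound when the height is bounded -/
lemma Z1_bd (P : Par κ χ X h η Y1 Ck b δ) (hg : Geo (uu κ X b δ) x v w s t)
    (h3 : 3 ≤ t - s) (hM : ∀ τ ∈ Icc s t, ‖x τ‖ ^ 2 ≤ 1 - 2 * δ)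
    (hA : ∀ τ ∈ Icc s t, Z0 δ x τ ≤ AA0 Y1 Ck) {τ : ℝ} (hτ : τ ∈ Icc s t) :
    |Z1 δ x v τ| ≤ BB0 Y1 Ck := by
  have hC2 := CC2_ge P.Y11 P.Ck0
  have hπ := Real.pi_gt_three
  have hs1 := sin_one_ge
  have hc1 := cos_one_ge
  have hc1' := Real.cos_le_one 1
  have hZ0 : ∀ r ∈ Icc s t, 1 ≤ Z0 δ x r := fun r hr => Z0_ge_one P.δ0 (hM r hr)
  have hZ2 : ∀ r ∈ Icc s t, -CC2 Y1 Ck ≤ Z2 δ x v w r + Z0 δ x r ∧
      Z2 δ x v w r + Z0 δ x r ≤ CC2 Y1 Ck := fun r hr =>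
    Z_two P hg hr (norm_le_of P.δ0 (hM r hr))
  have h1 := hZ0 τ hτ
  have h2 := hA τ hτ
  have hcA : Z0 δ x τ * Real.cos 1 ≤ AA0 Y1 Ck := by nlinarith
  have hcP : 0 ≤ Z0 δ x τ * Real.cos 1 := by positivity
  unfold BB0
  rcases le_total (τ + 1) t with hle | hle
  · have hsub : Icc τ (τ + 1) ⊆ Icc s t := Icc_subset_Icc hτ.1 hle
    have e : τ + 1 - τ = 1 := by ring
    have a1 := step_lower (f := Z0 δ x) (f1 := Z1 δ x v) (f2 := Z2 δ x v w) (s := τ) (t := τ + 1)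
      (C := CC2 Y1 Ck) (by linarith) (by linarith) (by linarith)
      (fun r hr => Z0_d hg (hsub hr)) (fun r hr => Z1_d hg (hsub hr))
      (fun r hr => (hZ2 r (hsub hr)).1)
    have a2 := step_upper (f := Z0 δ x) (f1 := Z1 δ x v) (f2 := Z2 δ x v w) (s := τ) (t := τ + 1)
      (C := CC2 Y1 Ck) (by linarith) (by linarith) (by linarith)
      (fun r hr => Z0_d hg (hsub hr)) (fun r hr => Z1_d hg (hsub hr))
      (fun r hr => (hZ2 r (hsub hr)).2)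
    rw [e] at a1 a2
    have b1 := hA (τ + 1) (hsub (right_mem_Icc.2 (by linarith)))
    have b2 := hZ0 (τ + 1) (hsub (right_mem_Icc.2 (by linarith)))
    rw [abs_le]
    constructor
    · nlinarith
    · nlinarith
  · have hle' : s ≤ τ - 1 := by linarith
    have hsub : Icc (τ - 1) τ ⊆ Icc s t := Icc_subset_Icc hle' hτ.2
    have e : τ - (τ - 1) = 1 := by ring
    have a1 := step_lower_b (f := Z0 δ x) (f1 := Z1 δ x v) (f2 := Z2 δ x v w) (s := τ - 1) (t := τ)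
      (C := CC2 Y1 Ck) (by linarith) (by linarith) (by linarith)
      (fun r hr => Z0_d hg (hsub hr)) (fun r hr => Z1_d hg (hsub hr))
      (fun r hr => (hZ2 r (hsub hr)).1)
    have a2 := step_upper_b (f := Z0 δ x) (f1 := Z1 δ x v) (f2 := Z2 δ x v w) (s := τ - 1) (t := τ)
      (C := CC2 Y1 Ck) (by linarith) (by linarith) (by linarith)
      (fun r hr => Z0_d hg (hsub hr)) (fun r hr => Z1_d hg (hsub hr))
      (fun r hr => (hZ2 r (hsub hr)).2)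
    rw [e] at a1 a2
    have b1 := hA (τ - 1) (hsub (left_mem_Icc.2 (by linarith)))
    have b2 := hZ0 (τ - 1) (hsub (left_mem_Icc.2 (by linarith)))
    rw [abs_le]
    constructor
    · nlinarith
    · nlinarith

/-- the inner product of position and velocity -/
lemma xv_bd (hδ : 0 < δ) {B : ℝ} {τ : ℝ} (hx : ‖x τ‖ ≤ 1) (hZ : |Z1 δ x v τ| ≤ B) :
    |⟪x τ, v τ⟫_ℝ| ≤ δ * B := by
  have hm : ‖x τ‖ ^ 2 ≤ 1 := by nlinarith [norm_nonneg (x τ)]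
  have hm0 : 0 ≤ ‖x τ‖ ^ 2 := by positivity
  have e : ⟪x τ, v τ⟫_ℝ = -(δ * (Z1 δ x v τ * ((1 + ‖x τ‖ ^ 2) ^ 2 / 4))) := by
    unfold Z1
    have : (1 + ‖x τ‖ ^ 2) ≠ 0 := by positivity
    field_simp
  rw [e, abs_neg, abs_mul, abs_mul, abs_of_pos hδ,
    abs_of_nonneg (by positivity : 0 ≤ (1 + ‖x τ‖ ^ 2) ^ 2 / 4)]
  have h1 : (1 + ‖x τ‖ ^ 2) ^ 2 / 4 ≤ 1 := by nlinarith
  have h2 : |Z1 δ x v τ| * ((1 + ‖x τ‖ ^ 2) ^ 2 / 4) ≤ B * 1 :=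
    mul_le_mul hZ h1 (by positivity) ((abs_nonneg _).trans hZ)
  rw [mul_one] at h2
  exact mul_le_mul_of_nonneg_left h2 hδ.le

lemma one_sub_u (P : Par κ χ X h η Y1 Ck b δ) {A : ℝ} {y : V} (hy : ‖y‖ ^ 2 ≤ 1 - 2 * δ)
    (hA : (1 - ‖y‖ ^ 2) / (1 + ‖y‖ ^ 2) / δ ≤ A) :
    1 - ‖y‖ ^ 2 ≤ 2 * (δ * A) ∧ 1 - uu κ X b δ y ≤ δ * (A + Y1) ∧ 0 ≤ 1 - uu κ X b δ y := by
  have hδ := P.δ0
  have hδ1 := P.δ1
  have h0 : 0 ≤ ‖y‖ ^ 2 := by positivity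
  have hA' : 1 - ‖y‖ ^ 2 ≤ 2 * (δ * A) := by
    rw [div_le_iff₀ hδ, div_le_iff₀ (by positivity)] at hA
    have h1 : 0 ≤ A * δ := by
      by_contra hcon
      push Not at hcon
      nlinarith
    nlinarith
  have h2 := rho_le P y
  have h3 := rho_nonneg P y
  have hY := P.Y11
  refine ⟨hA', ?_, ?_⟩
  · unfold uu
    have h4 : δ ^ 2 * Y1 ≤ 1 / 4 * (δ * Y1) := by
      have : δ * (δ * Y1) ≤ 1 / 4 * (δ * Y1) := mul_le_mul_of_nonneg_right hδ1 (by positivity)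
      nlinarith
    have h5 : 0 ≤ δ * Y1 := by positivity
    linarith
  · unfold uu
    linarith

/-- the acceleration is close to `-x` -/
lemma acc_bd (P : Par κ χ X h η Y1 Ck b δ) (hg : Geo (uu κ X b δ) x v w s t) {A B : ℝ}
    {τ : ℝ} (hτ : τ ∈ Icc s t) (hM : ‖x τ‖ ^ 2 ≤ 1 - 2 * δ)
    (hA : Z0 δ x τ ≤ A) (hB : |Z1 δ x v τ| ≤ B) (z : V) :
    |⟪w τ, z⟫_ℝ + ⟪x τ, z⟫_ℝ| ≤ δ * (3 * B + 2 * (Ck * Y1) + A + Y1 + 2) * ‖z‖ := by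
  have hδ := P.δ0
  have hδ1 := P.δ1
  have hx := norm_le_of hδ hM
  have hxv := xv_bd hδ hx hB
  obtain ⟨h1, h2, h3⟩ := one_sub_u P hM hA
  have hU := uu_pos P (x τ)
  have hsp := hg.sp τ hτ
  have hCY : 0 ≤ Ck * Y1 := mul_nonneg P.Ck0 (by linarith [P.Y11])
  have hB0 : 0 ≤ B := (abs_nonneg _).trans hB
  have e1 := hg.eq τ hτ z
  rw [uu_fderiv P, uu_fderiv P] at e1
  have d1 := drho_le P hx (v τ)
  have d2 := drho_le P hx z
  rw [hsp] at d1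
  set U := uu κ X b δ (x τ) with hUdef
  set dv := drho κ χ X b δ (x τ) (v τ) with hdv
  set dz := drho κ χ X b δ (x τ) z with hdz
  have hU1 : U ≤ 1 := by linarith
  have hxz : |⟪x τ, z⟫_ℝ| ≤ ‖z‖ := by
    refine (abs_real_inner_le_norm _ _).trans ?_
    calc ‖x τ‖ * ‖z‖ ≤ 1 * ‖z‖ := by gcongr
      _ = ‖z‖ := one_mul _
  have hvz : |⟪v τ, z⟫_ℝ| ≤ U * ‖z‖ := by
    rw [← hsp]; exact abs_real_inner_le_norm _ _
  have hz0 := norm_nonneg z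
  -- first term
  have b1 : |⟪x τ, v τ⟫_ℝ - dv| ≤ δ * (3 / 2 * B + 1 / 2 * (Ck * Y1)) := by
    have c1 : |dv| ≤ 2 * (δ ^ 2 * (Ck * Y1 * U) + δ * (δ * B)) := by
      refine d1.trans ?_
      gcongr
    have c2 : δ ^ 2 * (Ck * Y1 * U) ≤ 1 / 4 * (δ * (Ck * Y1)) := by
      have : (δ * (Ck * Y1)) * (δ * U) ≤ (δ * (Ck * Y1)) * (1 / 4 * 1) :=
        mul_le_mul_of_nonneg_left (mul_le_mul hδ1 hU1 hU.le (by norm_num)) (by positivity)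
      nlinarith
    have c3 : δ * (δ * B) ≤ 1 / 4 * (δ * B) := mul_le_mul_of_nonneg_right hδ1 (by positivity)
    have c4 := abs_sub ⟪x τ, v τ⟫_ℝ dv
    nlinarith
  have b2 : |2 / U * (⟪x τ, v τ⟫_ℝ - dv) * ⟪v τ, z⟫_ℝ| ≤ δ * (3 * B + Ck * Y1) * ‖z‖ := by
    rw [abs_mul, abs_mul, abs_of_pos (by positivity : 0 < 2 / U)]
    calc 2 / U * |⟪x τ, v τ⟫_ℝ - dv| * |⟪v τ, z⟫_ℝ|
        ≤ 2 / U * (δ * (3 / 2 * B + 1 / 2 * (Ck * Y1))) * (U * ‖z‖) := by gcongr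
      _ = δ * (3 * B + Ck * Y1) * ‖z‖ := by field_simp
  -- second term
  have b3 : |(1 - U) * ⟪x τ, z⟫_ℝ| ≤ δ * (A + Y1) * ‖z‖ := by
    rw [abs_mul, abs_of_nonneg h3]
    exact mul_le_mul h2 hxz (abs_nonneg _) (h3.trans h2)
  have b4 : |U * dz| ≤ δ * (Ck * Y1 + 2) * ‖z‖ := by
    rw [abs_mul, abs_of_pos hU]
    have c1 : |dz| ≤ 2 * (δ ^ 2 * (Ck * Y1 * ‖z‖) + δ * ‖z‖) := by
      refine d2.trans ?_
      gcongr
    have c2 : δ ^ 2 * (Ck * Y1 * ‖z‖) ≤ 1 / 4 * (δ * (Ck * Y1 * ‖z‖)) := by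
      have : δ * (δ * (Ck * Y1 * ‖z‖)) ≤ 1 / 4 * (δ * (Ck * Y1 * ‖z‖)) :=
        mul_le_mul_of_nonneg_right hδ1 (by positivity)
      nlinarith
    have c3 : U * |dz| ≤ 1 * |dz| := mul_le_mul_of_nonneg_right hU1 (abs_nonneg _)
    have c4 : 0 ≤ δ * (Ck * Y1 * ‖z‖) := by positivity
    nlinarith
  have e2 : ⟪w τ, z⟫_ℝ + ⟪x τ, z⟫_ℝ = 2 / U * (⟪x τ, v τ⟫_ℝ - dv) * ⟪v τ, z⟫_ℝ
      + (1 - U) * ⟪x τ, z⟫_ℝ + U * dz := by
    rw [e1]; ring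
  rw [e2]
  have f1 := abs_add_le (2 / U * (⟪x τ, v τ⟫_ℝ - dv) * ⟪v τ, z⟫_ℝ + (1 - U) * ⟪x τ, z⟫_ℝ) (U * dz)
  have f2 := abs_add_le (2 / U * (⟪x τ, v τ⟫_ℝ - dv) * ⟪v τ, z⟫_ℝ) ((1 - U) * ⟪x τ, z⟫_ℝ)
  have f3 : δ * (3 * B + 2 * (Ck * Y1) + A + Y1 + 2) * ‖z‖ = δ * (3 * B + Ck * Y1) * ‖z‖
      + δ * (A + Y1) * ‖z‖ + δ * (Ck * Y1 + 2) * ‖z‖ := by ring
  rw [f3]
  linarith

/-- the geodesic is close to a great circle -/
lemma near_circle (hg : Geo (uu κ X b δ) x v w s t) (hπ : t - s ≤ Real.pi) {C : ℝ} (hC : 0 ≤ C)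
    (hw : ∀ τ ∈ Icc s t, ∀ z, |⟪w τ, z⟫_ℝ + ⟪x τ, z⟫_ℝ| ≤ C * ‖z‖) {τ : ℝ} (hτ : τ ∈ Icc s t) :
    ‖x τ - (Real.cos (τ - s) • x s + Real.sin (τ - s) • v s)‖ ≤ 2 * C := by
  set z := x τ - (Real.cos (τ - s) • x s + Real.sin (τ - s) • v s) with hz
  have hsub : Icc s τ ⊆ Icc s t := Icc_subset_Icc le_rfl hτ.2
  have h1 : ∀ r ∈ Icc s τ, HasDerivAt (fun r => ⟪x r, z⟫_ℝ) ⟪v r, z⟫_ℝ r := by
    intro r hr
    have := (hg.d1 r (hsub hr)).inner ℝ (hasDerivAt_const r z)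
    simpa using this
  have h2 : ∀ r ∈ Icc s τ, HasDerivAt (fun r => ⟪v r, z⟫_ℝ) ⟪w r, z⟫_ℝ r := by
    intro r hr
    have := (hg.d2 r (hsub hr)).inner ℝ (hasDerivAt_const r z)
    simpa using this
  have a1 := step_upper (f := fun r => ⟪x r, z⟫_ℝ) (f1 := fun r => ⟪v r, z⟫_ℝ)
    (f2 := fun r => ⟪w r, z⟫_ℝ) (C := C * ‖z‖) hτ.1 (by linarith [hτ.2])
    (mul_nonneg hC (norm_nonneg z)) h1 h2
    (fun r hr => (abs_le.1 (hw r (hsub hr) z)).2)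
  have e : ⟪x τ, z⟫_ℝ - (⟪x s, z⟫_ℝ * Real.cos (τ - s) + ⟪v s, z⟫_ℝ * Real.sin (τ - s))
      = ‖z‖ ^ 2 := by
    rw [← real_inner_self_eq_norm_sq]
    conv_rhs => rw [hz]
    rw [inner_sub_left, inner_add_left, real_inner_smul_left, real_inner_smul_left]
    ring
  have hz2 : ‖z‖ ^ 2 ≤ 2 * C * ‖z‖ := by
    linarith
  rcases eq_or_lt_of_le (norm_nonneg z) with h0 | h0
  · rw [← h0]; linarith
  · nlinarith

/-- **Good interval.** -/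
theorem good_interval (P : Par κ χ X h η Y1 Ck b δ) {ε : ℝ} (hε : 0 < ε) (hε1 : ε ≤ 1 / 100)
    {N : Set V} (hκ : ∀ y, 2 * ε ≤ infDist y N → κ y = 0)
    (hN : ∀ a b : V, |‖a‖ ^ 2 - 1| ≤ ε → |‖b‖ ^ 2 - 1| ≤ ε →
      |⟪a, b⟫_ℝ| ≤ ε → ∃ t ∈ Icc (1 / 4 : ℝ) (11 / 4),
        4 * ε ≤ infDist (Real.cos t • a + Real.sin t • b) N)
    (hδC : 2 * (δ * CC3 Y1 Ck) ≤ ε)
    (hg : Geo (uu κ X b δ) x v w s t) (h3 : 3 ≤ t - s) (hπ : t - s ≤ Real.pi)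
    (hM : ∀ τ ∈ Icc s t, ‖x τ‖ ^ 2 ≤ 1 - 2 * δ) :
    ∃ p ∈ Icc (s + 1 / 4) (t - 1 / 4), ∀ τ ∈ Icc s t, |τ - p| ≤ ε →
      κ (x τ) * χ (dep δ (x τ)) = 0 := by
  have hδ := P.δ0
  have hC2 := CC2_ge P.Y11 P.Ck0
  have hA0 := AA0_ge P.Y11 P.Ck0
  have hY := P.Y11
  have hCY : 0 ≤ Ck * Y1 := mul_nonneg P.Ck0 (by linarith [P.Y11])
  have hpi3 := Real.pi_gt_three
  have hpi2 := Real.pi_lt_d2
  have hZ0 : ∀ r ∈ Icc s t, 1 ≤ Z0 δ x r := fun r hr => Z0_ge_one hδ (hM r hr)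
  have hZ2 : ∀ r ∈ Icc s t, -CC2 Y1 Ck ≤ Z2 δ x v w r + Z0 δ x r ∧
      Z2 δ x v w r + Z0 δ x r ≤ CC2 Y1 Ck := fun r hr =>
    Z_two P hg hr (norm_le_of hδ (hM r hr))
  by_cases hA : ∀ τ ∈ Icc s t, Z0 δ x τ ≤ AA0 Y1 Ck
  · -- the geodesic stays near the boundary
    have hB : ∀ τ ∈ Icc s t, |Z1 δ x v τ| ≤ BB0 Y1 Ck := fun τ hτ => Z1_bd P hg h3 hM hA hτ
    have hw : ∀ τ ∈ Icc s t, ∀ z, |⟪w τ, z⟫_ℝ + ⟪x τ, z⟫_ℝ| ≤ (δ * CC3 Y1 Ck) * ‖z‖ :=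
      fun τ hτ z => acc_bd P hg hτ (hM τ hτ) (hA τ hτ) (hB τ hτ) z
    have hB0 : 0 ≤ BB0 Y1 Ck := (abs_nonneg _).trans (hB s (left_mem_Icc.2 (by linarith)))
    have hC3 : 0 ≤ CC3 Y1 Ck := by unfold CC3; linarith
    have hnear : ∀ τ ∈ Icc s t,
        ‖x τ - (Real.cos (τ - s) • x s + Real.sin (τ - s) • v s)‖ ≤ ε := fun τ hτ =>
      (near_circle hg hπ (by positivity) hw hτ).trans hδC
    have hs : s ∈ Icc s t := left_mem_Icc.2 (by linarith)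
    obtain ⟨h1, h2, h2'⟩ := one_sub_u P (hM s hs) (hA s hs)
    have hxv := xv_bd hδ (norm_le_of hδ (hM s hs)) (hB s hs)
    have hmul : ∀ c, c ≤ CC3 Y1 Ck → 2 * (δ * c) ≤ ε := by
      intro c hc
      have : δ * c ≤ δ * CC3 Y1 Ck := mul_le_mul_of_nonneg_left hc hδ.le
      linarith
    have k1 : |‖x s‖ ^ 2 - 1| ≤ ε := by
      have := hmul (AA0 Y1 Ck) (by unfold CC3; linarith)
      have h0 : 0 ≤ 1 - ‖x s‖ ^ 2 := by linarith [hM s hs]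
      rw [abs_sub_comm, abs_of_nonneg h0]
      linarith
    have k2 : |‖v s‖ ^ 2 - 1| ≤ ε := by
      rw [hg.sp s hs]
      have := hmul (AA0 Y1 Ck + Y1) (by unfold CC3; linarith)
      have hU := uu_pos P (x s)
      have h0 : 0 ≤ 1 - uu κ X b δ (x s) ^ 2 := by nlinarith
      rw [abs_sub_comm, abs_of_nonneg h0]
      nlinarith
    have k3 : |⟪x s, v s⟫_ℝ| ≤ ε := by
      have h4 := hmul (BB0 Y1 Ck) (by unfold CC3; linarith)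
      have h5 : 0 ≤ δ * BB0 Y1 Ck := by positivity
      linarith
    obtain ⟨t0, ht0, hinf⟩ := hN _ _ k1 k2 k3
    refine ⟨s + t0, ⟨by linarith [ht0.1], by linarith [ht0.2]⟩, fun τ hτ hτp => ?_⟩
    have hp : s + t0 ∈ Icc s t := ⟨by linarith [ht0.1], by linarith [ht0.2]⟩
    rw [hκ _ ?_, zero_mul]
    have m1 := hnear _ hp
    rw [show s + t0 - s = t0 by ring] at m1
    have m2 : ‖x τ - x (s + t0)‖ ≤ 1 * ‖τ - (s + t0)‖ := by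
      refine (convex_Icc s t).norm_image_sub_le_of_norm_hasDerivWithin_le
        (f := x) (f' := v) (fun r hr => (hg.d1 r hr).hasDerivWithinAt) (fun r hr => ?_) hp hτ
      rw [hg.sp r hr]
      have := uu_le P (x r)
      have := hM r hr
      linarith
    rw [Real.norm_eq_abs, one_mul] at m2
    have m3 := infDist_le_infDist_add_dist (s := N)
      (x := Real.cos t0 • x s + Real.sin t0 • v s) (y := x τ)
    have m4 : dist (Real.cos t0 • x s + Real.sin t0 • v s) (x τ) ≤ 2 * ε := by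
      rw [dist_comm, dist_eq_norm]
      calc ‖x τ - (Real.cos t0 • x s + Real.sin t0 • v s)‖
          = ‖(x τ - x (s + t0)) + (x (s + t0) - (Real.cos t0 • x s + Real.sin t0 • v s))‖ := by
            congr 1; abel
        _ ≤ _ := norm_add_le _ _
        _ ≤ 2 * ε := by linarith
    linarith
  · -- the geodesic goes deep
    push Not at hA
    obtain ⟨τ0, hτ0, hbig⟩ := hA
    have hcosneg : ∀ r : ℝ, 5 / 2 ≤ r → r ≤ Real.pi → Real.cos r ≤ -(1 / 2) := by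
      intro r h5 hr
      have h1 : Real.cos (Real.pi - Real.pi / 3) = -(1 / 2) := by
        rw [Real.cos_pi_sub, Real.cos_pi_div_three]
      rw [← h1]
      exact Real.cos_le_cos_of_nonneg_of_le_pi (by linarith) hr (by linarith)
    have hcospos : ∀ r : ℝ, 0 ≤ r → r ≤ 1 → 1 / 2 ≤ Real.cos r := by
      intro r h0 h1
      refine cos_one_ge.trans ?_
      exact Real.cos_le_cos_of_nonneg_of_le_pi h0 (by linarith) h1
    have hdeep : ∀ r ∈ Icc s t, AA0 Y1 Ck / 2 - 2 * CC2 Y1 Ck ≤ Z0 δ x r →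
        κ (x r) * χ (dep δ (x r)) = 0 := by
      intro r hr h1
      have h2 : Z0 δ x r ≤ 2 * (1 + dep δ (x r)) := Z0_le_dep hδ (hM r hr)
      have h4 : Y1 ≤ dep δ (x r) := by
        have : AA0 Y1 Ck = 4 * (CC2 Y1 Ck + Y1 + 1) := rfl
        linarith
      rw [P.prof.high _ h4, mul_zero]
    have hAe : AA0 Y1 Ck = 4 * (CC2 Y1 Ck + Y1 + 1) := rfl
    rcases le_total 0 (Z1 δ x v τ0) with hz | hz
    · -- going up
      have hle : τ0 - s < 5 / 2 := by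
        by_contra hcon
        push Not at hcon
        have hsub : Icc s τ0 ⊆ Icc s t := Icc_subset_Icc le_rfl hτ0.2
        have a2 := step_upper_b (f := Z0 δ x) (f1 := Z1 δ x v) (f2 := Z2 δ x v w) (s := s)
          (t := τ0) (C := CC2 Y1 Ck) (by linarith) (by linarith [hτ0.2]) (by linarith)
          (fun r hr => Z0_d hg (hsub hr)) (fun r hr => Z1_d hg (hsub hr))
          (fun r hr => (hZ2 r (hsub hr)).2)
        have b1 := hZ0 s (left_mem_Icc.2 (by linarith))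
        have b2 := hcosneg (τ0 - s) hcon (by linarith [hτ0.2])
        have b3 : 0 ≤ Real.sin (τ0 - s) :=
          Real.sin_nonneg_of_nonneg_of_le_pi (by linarith) (by linarith [hτ0.2])
        have b4 : 0 ≤ Z1 δ x v τ0 * Real.sin (τ0 - s) := mul_nonneg hz b3
        have b5 : Z0 δ x τ0 * Real.cos (τ0 - s) ≤ Z0 δ x τ0 * -(1 / 2) :=
          mul_le_mul_of_nonneg_left b2 (by linarith)
        linarith
      refine ⟨τ0 + 1 / 4, ⟨by linarith [hτ0.1], by linarith⟩, fun τ hτ hτp => ?_⟩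
      rw [abs_le] at hτp
      have c1 : τ0 ≤ τ := by linarith [hτp.1]
      have c2 : τ - τ0 ≤ 1 := by linarith [hτp.2]
      have hsub : Icc τ0 τ ⊆ Icc s t := Icc_subset_Icc hτ0.1 hτ.2
      have a1 := step_lower (f := Z0 δ x) (f1 := Z1 δ x v) (f2 := Z2 δ x v w) (s := τ0)
          (t := τ) (C := CC2 Y1 Ck) c1 (by linarith) (by linarith)
          (fun r hr => Z0_d hg (hsub hr)) (fun r hr => Z1_d hg (hsub hr))
          (fun r hr => (hZ2 r (hsub hr)).1)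
      have b2 := hcospos (τ - τ0) (by linarith) c2
      have b3 : 0 ≤ Real.sin (τ - τ0) :=
        Real.sin_nonneg_of_nonneg_of_le_pi (by linarith) (by linarith)
      have b4 : 0 ≤ Z1 δ x v τ0 * Real.sin (τ - τ0) := mul_nonneg hz b3
      have b5 : Z0 δ x τ0 * (1 / 2) ≤ Z0 δ x τ0 * Real.cos (τ - τ0) :=
        mul_le_mul_of_nonneg_left b2 (by linarith)
      refine hdeep τ hτ ?_
      linarith
    · have hle : t - τ0 < 5 / 2 := by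
        by_contra hcon
        push Not at hcon
        have hsub : Icc τ0 t ⊆ Icc s t := Icc_subset_Icc hτ0.1 le_rfl
        have a2 := step_upper (f := Z0 δ x) (f1 := Z1 δ x v) (f2 := Z2 δ x v w) (s := τ0)
          (t := t) (C := CC2 Y1 Ck) (by linarith) (by linarith [hτ0.1]) (by linarith)
          (fun r hr => Z0_d hg (hsub hr)) (fun r hr => Z1_d hg (hsub hr))
          (fun r hr => (hZ2 r (hsub hr)).2)
        have b1 := hZ0 t (right_mem_Icc.2 (by linarith))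
        have b2 := hcosneg (t - τ0) hcon (by linarith [hτ0.1])
        have b3 : 0 ≤ Real.sin (t - τ0) :=
          Real.sin_nonneg_of_nonneg_of_le_pi (by linarith) (by linarith [hτ0.1])
        have b4 : Z1 δ x v τ0 * Real.sin (t - τ0) ≤ 0 := mul_nonpos_of_nonpos_of_nonneg hz b3
        have b5 : Z0 δ x τ0 * Real.cos (t - τ0) ≤ Z0 δ x τ0 * -(1 / 2) :=
          mul_le_mul_of_nonneg_left b2 (by linarith)
        linarith
      refine ⟨τ0 - 1 / 4, ⟨by linarith, by linarith [hτ0.2]⟩, fun τ hτ hτp => ?_⟩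
      rw [abs_le] at hτp
      have c1 : τ ≤ τ0 := by linarith [hτp.2]
      have c2 : τ0 - τ ≤ 1 := by linarith [hτp.1]
      have hsub : Icc τ τ0 ⊆ Icc s t := Icc_subset_Icc hτ.1 hτ0.2
      have a1 := step_lower_b (f := Z0 δ x) (f1 := Z1 δ x v) (f2 := Z2 δ x v w) (s := τ)
          (t := τ0) (C := CC2 Y1 Ck) c1 (by linarith) (by linarith)
          (fun r hr => Z0_d hg (hsub hr)) (fun r hr => Z1_d hg (hsub hr))
          (fun r hr => (hZ2 r (hsub hr)).1)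
      have b2 := hcospos (τ0 - τ) (by linarith) c2
      have b3 : 0 ≤ Real.sin (τ0 - τ) :=
        Real.sin_nonneg_of_nonneg_of_le_pi (by linarith) (by linarith)
      have b4 : Z1 δ x v τ0 * Real.sin (τ0 - τ) ≤ 0 := mul_nonpos_of_nonpos_of_nonneg hz b3
      have b5 : Z0 δ x τ0 * (1 / 2) ≤ Z0 δ x τ0 * Real.cos (τ0 - τ) :=
        mul_le_mul_of_nonneg_left b2 (by linarith)
      refine hdeep τ hτ ?_
      linarith

end

end

end Pool.Agent.Y495.SM
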