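import Pool.Agent.Y495.SM.Good

/-!
Supersolutions along the geodesics; no geodesic has length `π`.
-/

set_option autoImplicit false

namespace Pool.Agent.Y495.SM

open scoped ContDiff InnerProductSpace
open Set Metric

noncomputable section

variable {V : Type*} [NormedAddCommGroup V] [InnerProductSpace ℝ V]

/-- the smallness assumptions -/
structure Sml (ε om B ε8 η Y1 Ck b δ : ℝ) : Prop where
  ε0 : 0 < ε
  ε1 : ε ≤ 1 / 100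
  om0 : 0 < om
  cp : ∀ p t : ℝ, |t - p| ≤ Real.pi - 1 / 4 →
      0 < c0 om p t ∧ c0 om p t ≤ 30 ∧ c2 om p t + c0 om p t ≤ B ∧
        (ε ≤ |t - p| → c2 om p t + c0 om p t ≤ -(1 / 2))
  e0 : 0 < ε8
  e1 : ε8 ≤ 1 / 60
  eB : ε8 * B ≤ 1 / 2
  hb : b - 1 ≤ ε8 / 16
  hη : 8 * η ≤ ε8 / 16
  d1 : 8 * (δ * (Y1 * (1 + 3 * Ck))) ≤ ε8 / 16
  d2 : 8 * (δ * (Ck * Y1)) + 8 * (δ * ((2 * Ck + 1) * (1 + Y1))) ≤ ε8 / 16
  d3 : 2 * (δ * CC3 Y1 Ck) ≤ ε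

section

variable {κ : V → ℝ} {χ X : ℝ → ℝ} {h η Y1 Ck b δ ε om B ε8 : ℝ} {x v w : ℝ → V} {s t : ℝ}

lemma cos_three_half : 1 / 20 ≤ Real.cos (3 / 2) := by
  have h1 : Real.cos (3 / 2) = Real.sin (Real.pi / 2 - 3 / 2) := by
    rw [Real.sin_pi_div_two_sub]
  have h2 := Real.pi_gt_d2
  have h3 := Real.pi_lt_d2
  have h6 := Real.sin_gt_sub_cube (x := Real.pi / 2 - 3 / 2) (by linarith)
  rw [h1]
  have h7 : (Real.pi / 2 - 3 / 2) ^ 3 ≤ 1 / 1000 := by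
    have : (Real.pi / 2 - 3 / 2) ^ 3 ≤ (1 / 10) ^ 3 :=
      pow_le_pow_left₀ (by linarith) (by linarith) 3
    linarith
  linarith

lemma qq_nonneg (P : Par κ χ X h η Y1 Ck b δ) (y : V) : 0 ≤ qq χ Y1 Ck δ y := by
  unfold qq
  have h1 := P.Ck0
  have h2 := P.Y11
  have h3 := P.δ0
  have h4 := P.prof.χ0 (dep δ y)
  have h5 : 0 ≤ max (-deriv χ (dep δ y)) 0 := le_max_right _ _
  positivity

lemma qq_Z (P : Par κ χ X h η Y1 Ck b δ) {y : V} (hy : ‖y‖ ^ 2 ≤ 1 - 2 * δ) :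
    qq χ Y1 Ck δ y * ((1 - ‖y‖ ^ 2) / (1 + ‖y‖ ^ 2) / δ)
      ≤ 8 * (δ * (Ck * Y1)) + 8 * (δ * ((2 * Ck + 1) * (1 + Y1))) + 8 * η := by
  have hδ := P.δ0
  have hZ1 := Z0_ge_one hδ hy
  have hZ2 := Z0_le_dep hδ hy
  have hm0 : 0 ≤ ‖y‖ ^ 2 := by positivity
  have hZ3 : δ * ((1 - ‖y‖ ^ 2) / (1 + ‖y‖ ^ 2) / δ) ≤ 1 := by
    have e : δ * ((1 - ‖y‖ ^ 2) / (1 + ‖y‖ ^ 2) / δ) = (1 - ‖y‖ ^ 2) / (1 + ‖y‖ ^ 2) := by
      field_simp
    rw [e, div_le_one (by positivity)]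
    linarith
  set Z := (1 - ‖y‖ ^ 2) / (1 + ‖y‖ ^ 2) / δ with hZ
  have hd0 : 0 ≤ dep δ y := by
    unfold dep
    apply div_nonneg _ hδ.le
    linarith
  set d := dep δ y with hd
  have hC := P.Ck0
  have hY := P.Y11
  have hχ0 := P.prof.χ0 d
  have hχ1 := P.prof.χ1 d
  have hη := P.η0
  have hslow := P.prof.slow d hd0
  set m := max (-deriv χ d) 0 with hm
  have k3 : m * (1 + d) ≤ η := by
    rcases le_total (-deriv χ d) 0 with h1 | h1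
    · rw [hm, max_eq_right h1]; linarith
    · rw [hm, max_eq_left h1]; linarith
  have k3' : 0 ≤ m := le_max_right _ _
  have k2 : χ d * (1 + d) ≤ 1 + Y1 := by
    rcases le_total Y1 d with h1 | h1
    · rw [P.prof.high d h1, zero_mul]; linarith
    · calc χ d * (1 + d) ≤ 1 * (1 + Y1) := mul_le_mul hχ1 (by linarith) (by linarith) (by norm_num)
        _ = 1 + Y1 := one_mul _
  unfold qq
  rw [← hd, ← hm]
  have t1 : δ ^ 2 * (Ck * Y1) * Z ≤ δ * (Ck * Y1) := by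
    calc δ ^ 2 * (Ck * Y1) * Z = (δ * (Ck * Y1)) * (δ * Z) := by ring
      _ ≤ (δ * (Ck * Y1)) * 1 := mul_le_mul_of_nonneg_left hZ3 (by positivity)
      _ = δ * (Ck * Y1) := mul_one _
  have t2 : δ * (χ d * (2 * Ck + 1)) * Z ≤ 2 * (δ * ((2 * Ck + 1) * (1 + Y1))) := by
    calc δ * (χ d * (2 * Ck + 1)) * Z ≤ δ * (χ d * (2 * Ck + 1)) * (2 * (1 + d)) :=
          mul_le_mul_of_nonneg_left hZ2 (by positivity)
      _ = 2 * (δ * ((2 * Ck + 1) * (χ d * (1 + d)))) := by ring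
      _ ≤ 2 * (δ * ((2 * Ck + 1) * (1 + Y1))) := by gcongr
  have t3 : m * Z ≤ 2 * η := by
    calc m * Z ≤ m * (2 * (1 + d)) := mul_le_mul_of_nonneg_left hZ2 k3'
      _ = 2 * (m * (1 + d)) := by ring
      _ ≤ 2 * η := by linarith
  have e : (8 * (δ ^ 2 * (Ck * Y1)) + 4 * (δ * (χ d * (2 * Ck + 1))) + 4 * m) * Z
      = 8 * (δ ^ 2 * (Ck * Y1) * Z) + 4 * (δ * (χ d * (2 * Ck + 1)) * Z) + 4 * (m * Z) := by ring
  rw [e]
  linarith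

/-- the auxiliary function -/
lemma exists_aux (P : Par κ χ X h η Y1 Ck b δ) (S : Sml ε om B ε8 η Y1 Ck b δ)
    {N : Set V} (hκ : ∀ y, 2 * ε ≤ infDist y N → κ y = 0)
    (hN : ∀ a b : V, |‖a‖ ^ 2 - 1| ≤ ε → |‖b‖ ^ 2 - 1| ≤ ε →
      |⟪a, b⟫_ℝ| ≤ ε → ∃ t ∈ Icc (1 / 4 : ℝ) (11 / 4),
        4 * ε ≤ infDist (Real.cos t • a + Real.sin t • b) N)
    (hg : Geo (uu κ X b δ) x v w s t) (hπ : t - s ≤ Real.pi)
    (hM : ∀ τ ∈ Icc s t, ‖x τ‖ ^ 2 ≤ 1 - 2 * δ) :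
    ∃ c c' c'' : ℝ → ℝ, (∀ τ, HasDerivAt c (c' τ) τ) ∧ (∀ τ, HasDerivAt c' (c'' τ) τ) ∧
      (∀ τ ∈ Icc s t, 0 < c τ ∧ c τ ≤ 30 ∧ (c'' τ + c τ ≤ -(1 / 2) ∨
        (c'' τ + c τ ≤ B ∧ κ (x τ) * χ (dep δ (x τ)) = 0))) := by
  have hpi := Real.pi_gt_three
  rcases lt_or_ge (t - s) 3 with h3 | h3
  · refine ⟨fun τ => -1 + 30 * Real.cos (τ - (s + t) / 2), fun τ => -(30 * Real.sin (τ - (s + t) / 2)),
      fun τ => -(30 * Real.cos (τ - (s + t) / 2)), fun τ => ?_, fun τ => ?_, fun τ hτ => ?_⟩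
    · have a0 : HasDerivAt (fun r => r - (s + t) / 2) 1 τ := by
        simpa using (hasDerivAt_id τ).sub_const ((s + t) / 2)
      refine ((a0.cos.const_mul 30).const_add (-1)).congr_deriv ?_
      ring
    · have a0 : HasDerivAt (fun r => r - (s + t) / 2) 1 τ := by
        simpa using (hasDerivAt_id τ).sub_const ((s + t) / 2)
      refine ((a0.sin.const_mul 30).fun_neg).congr_deriv ?_
      ring
    · have h1 : |τ - (s + t) / 2| ≤ 3 / 2 := by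
        rw [abs_le]; constructor <;> linarith [hτ.1, hτ.2]
      have h2 : Real.cos (3 / 2) ≤ Real.cos (τ - (s + t) / 2) := by
        rw [← Real.cos_abs (τ - (s + t) / 2)]
        exact Real.cos_le_cos_of_nonneg_of_le_pi (abs_nonneg _) (by linarith) h1
      have h3 := cos_three_half
      have h4 := Real.cos_le_one (τ - (s + t) / 2)
      refine ⟨by linarith, by linarith, Or.inl (by linarith)⟩
  · obtain ⟨p, hp, hgood⟩ := good_interval P S.ε0 S.ε1 hκ hN S.d3 hg h3 hπ hM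
    refine ⟨c0 om p, c1 om p, c2 om p, c0_hasDerivAt S.om0 p, c1_hasDerivAt S.om0 p, fun τ hτ => ?_⟩
    have h1 : |τ - p| ≤ Real.pi - 1 / 4 := by
      rw [abs_le]; constructor <;> linarith [hτ.1, hτ.2, hp.1, hp.2]
    obtain ⟨k1, k2, k3, k4⟩ := S.cp p τ h1
    refine ⟨k1, k2, ?_⟩
    rcases le_total ε |τ - p| with h2 | h2
    · exact Or.inl (k4 h2)
    · exact Or.inr ⟨k3, hgood τ hτ h2⟩

/-- **Supersolution.** -/
theorem exists_super (P : Par κ χ X h η Y1 Ck b δ) (S : Sml ε om B ε8 η Y1 Ck b δ)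
    {N : Set V} (hκ : ∀ y, 2 * ε ≤ infDist y N → κ y = 0)
    (hN : ∀ a b : V, |‖a‖ ^ 2 - 1| ≤ ε → |‖b‖ ^ 2 - 1| ≤ ε →
      |⟪a, b⟫_ℝ| ≤ ε → ∃ t ∈ Icc (1 / 4 : ℝ) (11 / 4),
        4 * ε ≤ infDist (Real.cos t • a + Real.sin t • b) N)
    (hg : Geo (uu κ X b δ) x v w s t) (hπ : t - s ≤ Real.pi)
    (hM : ∀ τ ∈ Icc s t, ‖x τ‖ ^ 2 ≤ 1 - 2 * δ) :
    ∃ ψ ψ1 ψ2 : ℝ → ℝ, (∀ τ ∈ Icc s t, 0 < ψ τ) ∧ (∀ τ ∈ Icc s t, HasDerivAt ψ (ψ1 τ) τ) ∧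
      (∀ τ ∈ Icc s t, HasDerivAt ψ1 (ψ2 τ) τ) ∧
      (∀ τ ∈ Icc s t, ψ2 τ + (1 + qq χ Y1 Ck δ (x τ)) * ψ τ < 0) := by
  obtain ⟨c, c', c'', hc, hc', hcp⟩ := exists_aux P S hκ hN hg hπ hM
  refine ⟨fun τ => (Z0 δ x τ - 1) + ε8 * c τ, fun τ => Z1 δ x v τ + ε8 * c' τ,
    fun τ => Z2 δ x v w τ + ε8 * c'' τ, fun τ hτ => ?_, fun τ hτ => ?_, fun τ hτ => ?_,
    fun τ hτ => ?_⟩
  · have h1 : 1 ≤ Z0 δ x τ := Z0_ge_one P.δ0 (hM τ hτ)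
    have h2 := mul_pos S.e0 (hcp τ hτ).1
    linarith
  · exact ((Z0_d hg hτ).sub_const 1).add ((hc τ).const_mul ε8)
  · exact (Z1_d hg hτ).add ((hc' τ).const_mul ε8)
  · obtain ⟨k1, k2, k3⟩ := hcp τ hτ
    have h1 : 1 ≤ Z0 δ x τ := Z0_ge_one P.δ0 (hM τ hτ)
    have h2 := (Z_bounds P hg hτ (norm_le_of P.δ0 (hM τ hτ))).1
    have h3 : qq χ Y1 Ck δ (x τ) * Z0 δ x τ
      ≤ 8 * (δ * (Ck * Y1)) + 8 * (δ * ((2 * Ck + 1) * (1 + Y1))) + 8 * η := qq_Z P (hM τ hτ)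
    have h4 := qq_nonneg P (x τ)
    set q := qq χ Y1 Ck δ (x τ) with hq
    set Z := Z0 δ x τ with hZ
    have e0 := S.e0
    have e1 := S.e1
    have h5 : q * Z ≤ ε8 / 8 := by linarith [S.d2, S.hη]
    have h6 : q ≤ ε8 / 8 := by nlinarith
    have h7 : q * (ε8 * c τ) ≤ ε8 / 16 := by
      have a1 : ε8 * c τ ≤ 1 / 2 := by nlinarith
      have a2 : 0 ≤ ε8 * c τ := by positivity
      have a3 : q * (ε8 * c τ) ≤ ε8 / 8 * (1 / 2) := mul_le_mul h6 a1 a2 (by positivity)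
      linarith
    have h8 := S.d1
    have hb := S.hb
    have e : Z2 δ x v w τ + ε8 * c'' τ + (1 + q) * (Z - 1 + ε8 * c τ)
        = (Z2 δ x v w τ + Z) - 1 + (q * Z - q) + ε8 * (c'' τ + c τ) + q * (ε8 * c τ) := by ring
    rw [e]
    rcases k3 with k3 | ⟨k3, k4⟩
    · have a1 : b * (κ (x τ) * χ (dep δ (x τ))) ≤ b := by
        have b1 := P.κ0 (x τ)
        have b2 := P.κ1 (x τ)
        have b3 := P.prof.χ0 (dep δ (x τ))
        have b4 := P.prof.χ1 (dep δ (x τ))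
        have b5 : κ (x τ) * χ (dep δ (x τ)) ≤ 1 * 1 := mul_le_mul b2 b4 b3 (by norm_num)
        have b6 := mul_le_mul_of_nonneg_left b5 (by linarith [P.b1] : (0 : ℝ) ≤ b)
        linarith
      have a2 : ε8 * (c'' τ + c τ) ≤ ε8 * -(1 / 2) := mul_le_mul_of_nonneg_left k3 e0.le
      linarith
    · rw [k4, mul_zero] at h2
      have a2 : ε8 * (c'' τ + c τ) ≤ ε8 * B := mul_le_mul_of_nonneg_left k3 e0.le
      have := S.eB
      linarith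

/-- **No long geodesics.** -/
theorem short (P : Par κ χ X h η Y1 Ck b δ) (S : Sml ε om B ε8 η Y1 Ck b δ)
    {N : Set V} (hκ : ∀ y, 2 * ε ≤ infDist y N → κ y = 0)
    (hN : ∀ a b : V, |‖a‖ ^ 2 - 1| ≤ ε → |‖b‖ ^ 2 - 1| ≤ ε →
      |⟪a, b⟫_ℝ| ≤ ε → ∃ t ∈ Icc (1 / 4 : ℝ) (11 / 4),
        4 * ε ≤ infDist (Real.cos t • a + Real.sin t • b) N)
    (hg : Geo (uu κ X b δ) x v w s t)
    (hM : ∀ τ ∈ Icc s t, ‖x τ‖ ^ 2 ≤ 1 - 2 * δ) : t - s < Real.pi := by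
  by_contra hcon
  push Not at hcon
  have hpi := Real.pi_pos
  have hsub : Icc s (s + Real.pi) ⊆ Icc s t := Icc_subset_Icc le_rfl (by linarith)
  have hg' : Geo (uu κ X b δ) x v w s (s + Real.pi) :=
    ⟨fun τ hτ => hg.d1 τ (hsub hτ), fun τ hτ => hg.d2 τ (hsub hτ),
      fun τ hτ => hg.sp τ (hsub hτ), fun τ hτ => hg.eq τ (hsub hτ)⟩
  obtain ⟨ψ, ψ1, ψ2, hψ, hd1, hd2, hs⟩ := exists_super P S hκ hN hg' (by linarith)
    (fun τ hτ => hM τ (hsub hτ))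
  have h1 := step_fwd (f := fun r => -ψ r) (f1 := fun r => -ψ1 r) (f2 := fun r => -ψ2 r)
    (s := s) (t := s + Real.pi) (by linarith) (by linarith)
    (fun r hr => (hd1 r hr).fun_neg) (fun r hr => (hd2 r hr).fun_neg) (fun r hr => by
      have a1 := hs r hr
      have a2 := qq_nonneg P (x r)
      have a3 := hψ r hr
      nlinarith)
  have e : s + Real.pi - s = Real.pi := by ring
  rw [e, Real.cos_pi, Real.sin_pi] at h1
  have h2 := hψ s (left_mem_Icc.2 (by linarith))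
  have h3 := hψ (s + Real.pi) (right_mem_Icc.2 (by linarith))
  linarith

end

end

end Pool.Agent.Y495.SM
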