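import Pool.Agent.Y495.SM.Obs
import Pool.Agent.Y495.SM.Super

/-!
A simple Riemannian ball of dimension `n ≥ 3` without strictly convex function.
-/

set_option autoImplicit false

namespace Pool.Agent.Y495.SM

open scoped ContDiff InnerProductSpace
open Set Metric

noncomputable section

section

variable {n : ℕ} {κ : E n → ℝ} {χ X : ℝ → ℝ} {h η Y1 Ck b δ ε om B ε8 : ℝ}

lemma geo_restrict {u : E n → ℝ} {x v w : ℝ → E n} {s t s' t' : ℝ} (hg : Geo u x v w s t)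
    (h1 : s ≤ s') (h2 : t' ≤ t) : Geo u x v w s' t' :=
  ⟨fun τ hτ => hg.d1 τ ⟨h1.trans hτ.1, hτ.2.trans h2⟩,
    fun τ hτ => hg.d2 τ ⟨h1.trans hτ.1, hτ.2.trans h2⟩,
    fun τ hτ => hg.sp τ ⟨h1.trans hτ.1, hτ.2.trans h2⟩,
    fun τ hτ => hg.eq τ ⟨h1.trans hτ.1, hτ.2.trans h2⟩⟩

lemma sq_of_le {δ : ℝ} (hδ1 : δ ≤ 1 / 4) {y : E n} (hy : ‖y‖ ≤ Real.sqrt (1 - 2 * δ)) :
    ‖y‖ ^ 2 ≤ 1 - 2 * δ := by
  have h1 : ‖y‖ ^ 2 ≤ Real.sqrt (1 - 2 * δ) ^ 2 := by gcongr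
  rwa [Real.sq_sqrt (by linarith)] at h1

/-- **The metric is simple.** -/
theorem simple_of (P : Par κ χ X h η Y1 Ck b δ) (S : Sml ε om B ε8 η Y1 Ck b δ)
    {N : Set (E n)} (hκ : ∀ y, 2 * ε ≤ infDist y N → κ y = 0)
    (hN : ∀ a b : E n, |‖a‖ ^ 2 - 1| ≤ ε → |‖b‖ ^ 2 - 1| ≤ ε →
      |⟪a, b⟫_ℝ| ≤ ε → ∃ t ∈ Icc (1 / 4 : ℝ) (11 / 4),
        4 * ε ≤ infDist (Real.cos t • a + Real.sin t • b) N) :
    IsSimple (mt (uu κ X b δ)) (Real.sqrt (1 - 2 * δ)) := by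
  have hδ := P.δ0
  have hδ1 := P.δ1
  have hpi := Real.pi_pos
  have hus := uu_smooth P
  have hup := uu_pos P
  refine ⟨mt_riem hus hup, Real.sqrt_pos.2 (by linarith), convex_bd P, ?_, ?_⟩
  · refine ⟨Real.pi, fun γ a c hγ hin => ?_⟩
    by_contra hcon
    push Not at hcon
    have hg := geo_of hus hup hγ (s := a + (c - a - Real.pi) / 2)
      (t := a + (c - a - Real.pi) / 2 + Real.pi) (by linarith) (by linarith)
    have h1 := short P S hκ hN hg (fun τ hτ => sq_of_le hδ1 (hin τ ⟨by linarith [hτ.1], by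
      linarith [hτ.2]⟩))
    linarith
  · intro γ J a c hγ hJ s t has hst htc hin hJs hJt
    have hg := geo_of hus hup hγ has htc
    have hM : ∀ τ ∈ Icc s t, ‖γ τ‖ ^ 2 ≤ 1 - 2 * δ := fun τ hτ => sq_of_le hδ1 (hin τ hτ)
    have h1 := short P S hκ hN hg hM
    obtain ⟨ψ, ψ1, ψ2, hψ, hd1, hd2, hs⟩ := exists_super P S hκ hN hg h1.le hM
    refine jac_zero (two_of_smooth hus) hup hst hg (jac_of hus hup hγ hJ has htc) hJs hJt
      (K := fun τ => 1 + qq χ Y1 Ck δ (γ τ)) (ψ := ψ) (ψ1 := ψ1) (ψ2 := ψ2)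
      (G := fun τ => grad (uu κ X b δ) (γ τ)) (fun τ _ => inner_grad _ _) (fun τ hτ z => ?_) hψ hd1
      hd2 (fun τ hτ => (hs τ hτ).le)
    exact curv_le P (norm_le_of hδ (hM τ hτ)) (hg.sp τ hτ) (inner_grad _ _) z

end

/-- bounds of the derivatives of the cut-off function -/
lemma exists_Ck {V : Type*} [NormedAddCommGroup V] [InnerProductSpace ℝ V]
    [FiniteDimensional ℝ V] {κ : V → ℝ} (hκ : ContDiff ℝ ∞ κ) :
    ∃ Ck : ℝ, 0 ≤ Ck ∧ (∀ x, ‖x‖ ≤ 1 → ∀ v, |fderiv ℝ κ x v| ≤ Ck * ‖v‖) ∧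
      (∀ x, ‖x‖ ≤ 1 → ∀ v, |fderiv ℝ (fderiv ℝ κ) x v v| ≤ Ck * ‖v‖ ^ 2) := by
  have h2 : ContDiff ℝ 2 κ := contDiff_infty.1 hκ 2
  have c1 : Continuous (fderiv ℝ κ) := h2.continuous_fderiv (by norm_num)
  have h3 : ContDiff ℝ 1 (fderiv ℝ κ) := h2.fderiv_right (by norm_num)
  have c2 := h3.continuous_fderiv (by norm_num)
  have hcpt : IsCompact (closedBall (0 : V) 1) := isCompact_closedBall 0 1
  obtain ⟨C1, hC1⟩ := hcpt.exists_bound_of_continuousOn c1.continuousOn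
  obtain ⟨C2, hC2⟩ := hcpt.exists_bound_of_continuousOn c2.continuousOn
  refine ⟨max 0 (max C1 C2), le_max_left _ _, fun x hx v => ?_, fun x hx v => ?_⟩
  · have h4 := hC1 x (by rwa [mem_closedBall_zero_iff])
    rw [← Real.norm_eq_abs]
    refine (ContinuousLinearMap.le_opNorm _ _).trans ?_
    gcongr
    exact h4.trans ((le_max_left _ _).trans (le_max_right _ _))
  · have h4 := hC2 x (by rwa [mem_closedBall_zero_iff])
    rw [← Real.norm_eq_abs]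
    refine (ContinuousLinearMap.le_opNorm _ _).trans ?_
    have h5 := ContinuousLinearMap.le_opNorm (fderiv ℝ (fderiv ℝ κ) x) v
    calc ‖fderiv ℝ (fderiv ℝ κ) x v‖ * ‖v‖ ≤ (‖fderiv ℝ (fderiv ℝ κ) x‖ * ‖v‖) * ‖v‖ := by gcongr
      _ ≤ (max 0 (max C1 C2) * ‖v‖) * ‖v‖ := by
        gcongr
        exact h4.trans ((le_max_right _ _).trans (le_max_right _ _))
      _ = max 0 (max C1 C2) * ‖v‖ ^ 2 := by ring

/-- **A simple Riemannian ball without strictly convex function.** -/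
theorem simple_no_convex (n : ℕ) (hn : 3 ≤ n) :
    ∃ (g : MetricField n) (R : ℝ), IsSimple g R ∧
      ∀ f : E n → ℝ, ContDiffOn ℝ 2 f (ball 0 R) →
        ∃ x ∈ ball (0 : E n) R, ∃ v, v ≠ 0 ∧ hess g f x v ≤ 0 := by
  -- three orthonormal vectors
  obtain ⟨e, he⟩ : ∃ e : Fin 3 → E n, Orthonormal ℝ e := by
    refine ⟨fun i => EuclideanSpace.basisFun (Fin n) ℝ (Fin.castLE hn i), ?_⟩
    exact (EuclideanSpace.basisFun (Fin n) ℝ).orthonormal.comp _ (Fin.castLE_injective hn)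
  obtain ⟨ε, hε, hε1, hN⟩ := Net_unif he
  obtain ⟨κ, hκs, hκ0, hκ1, hκon, hκoff⟩ := exists_cutoff e hε
  obtain ⟨Ck, hCk, hd, hdd⟩ := exists_Ck hκs
  obtain ⟨om, B, hom, hB, hcp⟩ := c0_props hε hε1
  obtain ⟨ε8, he8, he8a, he8b⟩ : ∃ ε8 : ℝ, 0 < ε8 ∧ ε8 ≤ 1 / 60 ∧ ε8 * B ≤ 1 / 2 := by
    refine ⟨min (1 / 60) (1 / (2 * B)), by positivity, min_le_left _ _, ?_⟩
    calc min (1 / 60) (1 / (2 * B)) * B ≤ 1 / (2 * B) * B := by
          gcongr
          exact min_le_right _ _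
      _ = 1 / 2 := by field_simp
  obtain ⟨Y1, χ, X, hY1, hprof⟩ := exists_prof (h := ε8 / 64) (η := ε8 / 128) (by positivity)
    (by positivity)
  have hCC2 := CC2_ge hY1 hCk
  have hAA0 := AA0_ge hY1 hCk
  have hBB0 : 0 ≤ BB0 Y1 Ck := by unfold BB0; linarith
  have hCC3 : 0 ≤ CC3 Y1 Ck := by
    unfold CC3
    have : 0 ≤ Ck * Y1 := by positivity
    linarith
  obtain ⟨K, hK⟩ : ∃ K, K = 1 + Y1 + Y1 * (1 + 3 * Ck) + Ck * Y1 + (2 * Ck + 1) * (1 + Y1)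
      + CC3 Y1 Ck := ⟨_, rfl⟩
  have p1 : 0 ≤ Y1 * (1 + 3 * Ck) := by positivity
  have p2 : 0 ≤ Ck * Y1 := by positivity
  have p3 : 0 ≤ (2 * Ck + 1) * (1 + Y1) := by positivity
  have hK1 : 1 ≤ K := by rw [hK]; linarith
  obtain ⟨m, hm0, hm1, hm2⟩ : ∃ m : ℝ, 0 < m ∧ m ≤ ε ∧ m ≤ ε8 :=
    ⟨min ε ε8, lt_min hε he8, min_le_left _ _, min_le_right _ _⟩
  obtain ⟨δ, hδ⟩ : ∃ δ, δ = m / (1024 * K) := ⟨_, rfl⟩
  have hδ0 : 0 < δ := by rw [hδ]; positivity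
  have hδK : δ * K = m / 1024 := by rw [hδ]; field_simp
  have hle : ∀ c, c ≤ K → δ * c ≤ m / 1024 := by
    intro c hc
    rw [← hδK]
    exact mul_le_mul_of_nonneg_left hc hδ0.le
  have hδm : δ ≤ m / 1024 := by
    have := hle 1 hK1
    linarith
  have hδ1 : δ ≤ 1 / 4 := by linarith
  have P : Par κ χ X (ε8 / 64) (ε8 / 128) Y1 Ck (1 + ε8 / 16) δ := by
    refine ⟨hκs, hκ0, hκ1, hd, hdd, hCk, hprof, by positivity, by positivity, hY1, by linarith,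
      by linarith, hδ0, hδ1, ?_⟩
    have h1 := hle Y1 (by rw [hK]; linarith)
    have h2 : δ * (δ * Y1) ≤ 1 / 4 * (m / 1024) := mul_le_mul hδ1 h1 (by positivity) (by norm_num)
    have e : δ ^ 2 * Y1 = δ * (δ * Y1) := by ring
    rw [e]
    linarith
  have S : Sml ε om B ε8 (ε8 / 128) Y1 Ck (1 + ε8 / 16) δ := by
    refine ⟨hε, hε1, hom, hcp, he8, he8a, he8b, by linarith, by linarith, ?_, ?_, ?_⟩
    · have h1 := hle (Y1 * (1 + 3 * Ck)) (by rw [hK]; linarith)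
      linarith
    · have h1 := hle (Ck * Y1) (by rw [hK]; linarith)
      have h2 := hle ((2 * Ck + 1) * (1 + Y1)) (by rw [hK]; linarith)
      linarith
    · have h1 := hle (CC3 Y1 Ck) (by rw [hK]; linarith)
      linarith
  have hb : 1 + ε8 / 64 ≤ (1 + ε8 / 16) * (1 - 2 * δ * (1 + ε8 / 64)) := by
    have h1 : 2 * δ * (1 + ε8 / 64) ≤ 4 * (m / 1024) := by
      have : δ * (1 + ε8 / 64) ≤ m / 1024 * 2 :=
        mul_le_mul hδm (by linarith) (by positivity) (by positivity)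
      linarith
    have h2 : (1 + ε8 / 16) * (2 * δ * (1 + ε8 / 64)) ≤ 2 * (4 * (m / 1024)) :=
      mul_le_mul (by linarith) h1 (by positivity) (by norm_num)
    nlinarith
  obtain ⟨Y, hY0, hY1', hYeq⟩ := exists_rad P (by linarith) hb
  have hYpos : 0 < Y := by linarith
  obtain ⟨r, hr⟩ : ∃ r, r = Real.sqrt (1 - 2 * δ * (1 + Y)) := ⟨_, rfl⟩
  have hin : 0 < 1 - 2 * δ * (1 + Y) := by
    have : δ * (1 + Y) ≤ 1 / 1024 * 2 := by
      apply mul_le_mul _ (by linarith) (by positivity) (by norm_num)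
      linarith
    linarith
  have hr0 : 0 < r := by rw [hr]; exact Real.sqrt_pos.2 hin
  have hrr : r ^ 2 = 1 - 2 * δ * (1 + Y) := by rw [hr]; exact Real.sq_sqrt hin.le
  have hRad : Rad χ X (1 + ε8 / 16) δ r Y := ⟨hr0, hrr, hYeq⟩
  have hrR : r < Real.sqrt (1 - 2 * δ) := by
    rw [hr]
    apply Real.sqrt_lt_sqrt hin.le
    nlinarith
  have hr1 : r ≤ 1 := by
    have : 0 < δ * (1 + Y) := by positivity
    nlinarith
  have hrε : 1 - r < ε := by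
    have h1 : δ * (1 + Y) ≤ m / 1024 * 2 :=
      mul_le_mul hδm (by linarith) (by positivity) (by positivity)
    nlinarith
  refine ⟨mt (uu κ X (1 + ε8 / 16) δ), Real.sqrt (1 - 2 * δ), simple_of P S hκoff hN,
    fun f hf => ?_⟩
  exact no_convex P hRad hrR hr1 hrε he hκon hf

end

end Pool.Agent.Y495.SM
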