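import Pool.Agent.Y495.SM.Prof
import Pool.Agent.Y495.SM.Jac

/-!
The conformal factor: a spherical cap slightly smaller than a hemisphere, perturbed in a thin layer
along its boundary.
-/

set_option autoImplicit false

namespace Pool.Agent.Y495.SM

open scoped ContDiff InnerProductSpace
open Set Metric

noncomputable section

variable {V : Type*} [NormedAddCommGroup V] [InnerProductSpace ℝ V]

/-- the rescaled depth -/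
def dep (δ : ℝ) (x : V) : ℝ := ((1 - ‖x‖ ^ 2) / 2 - δ) / δ

/-- the perturbation -/
def rho (κ : V → ℝ) (X : ℝ → ℝ) (b δ : ℝ) (x : V) : ℝ := b * (δ ^ 2 * (κ x * X (dep δ x)))

/-- the conformal factor -/
def uu (κ : V → ℝ) (X : ℝ → ℝ) (b δ : ℝ) (x : V) : ℝ := (1 + ‖x‖ ^ 2) / 2 - rho κ X b δ x

/-- the derivative of the perturbation -/
def drho (κ : V → ℝ) (χ X : ℝ → ℝ) (b δ : ℝ) (x v : V) : ℝ :=
  b * (δ ^ 2 * (fderiv ℝ κ x v * X (dep δ x)) - δ * (κ x * (χ (dep δ x) * ⟪x, v⟫_ℝ)))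

/-- The assumptions on the parameters. -/
structure Par (κ : V → ℝ) (χ X : ℝ → ℝ) (h η Y1 Ck b δ : ℝ) : Prop where
  κs : ContDiff ℝ ∞ κ
  κ0 : ∀ x, 0 ≤ κ x
  κ1 : ∀ x, κ x ≤ 1
  κd : ∀ x, ‖x‖ ≤ 1 → ∀ v, |fderiv ℝ κ x v| ≤ Ck * ‖v‖
  κdd : ∀ x, ‖x‖ ≤ 1 → ∀ v, |fderiv ℝ (fderiv ℝ κ) x v v| ≤ Ck * ‖v‖ ^ 2
  Ck0 : 0 ≤ Ck
  prof : Prof h η Y1 χ X
  h0 : 0 < h
  η0 : 0 < η
  Y11 : 1 ≤ Y1
  b1 : 1 ≤ b
  b2 : b ≤ 2
  δ0 : 0 < δ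
  δ1 : δ ≤ 1 / 4
  δ2 : δ ^ 2 * Y1 ≤ 1 / 16

section

variable {κ : V → ℝ} {χ X : ℝ → ℝ} {h η Y1 Ck b δ : ℝ}

lemma dep_smooth (δ : ℝ) : ContDiff ℝ ∞ (dep δ : V → ℝ) := by
  unfold dep
  exact (((contDiff_const.sub (contDiff_norm_sq ℝ)).div_const 2).sub contDiff_const).div_const δ

lemma rho_smooth (P : Par κ χ X h η Y1 Ck b δ) : ContDiff ℝ ∞ (rho κ X b δ) := by
  unfold rho
  exact contDiff_const.mul (contDiff_const.mul (P.κs.mul (P.prof.smooth.comp (dep_smooth δ))))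

lemma uu_smooth (P : Par κ χ X h η Y1 Ck b δ) : ContDiff ℝ ∞ (uu κ X b δ) := by
  unfold uu
  exact ((contDiff_const.add (contDiff_norm_sq ℝ)).div_const 2).sub (rho_smooth P)

lemma rho_nonneg (P : Par κ χ X h η Y1 Ck b δ) (x : V) : 0 ≤ rho κ X b δ x := by
  unfold rho
  have h1 := P.κ0 x
  have h2 := P.prof.X0 (dep δ x)
  have h3 := P.b1
  positivity

lemma rho_le (P : Par κ χ X h η Y1 Ck b δ) (x : V) : rho κ X b δ x ≤ 2 * (δ ^ 2 * Y1) := by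
  unfold rho
  have h1 := P.κ0 x
  have h2 := P.prof.X0 (dep δ x)
  have h3 := P.κ1 x
  have h4 := P.prof.X1 (dep δ x)
  have h5 : κ x * X (dep δ x) ≤ 1 * Y1 := mul_le_mul h3 h4 h2 (by norm_num)
  rw [one_mul] at h5
  have h6 := P.b1
  exact mul_le_mul P.b2 (mul_le_mul_of_nonneg_left h5 (sq_nonneg δ)) (by positivity) (by norm_num)

lemma rho_small (P : Par κ χ X h η Y1 Ck b δ) (x : V) : rho κ X b δ x ≤ 1 / 8 := by
  have h1 := rho_le P x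
  have h2 := P.δ2
  linarith

lemma uu_pos (P : Par κ χ X h η Y1 Ck b δ) (x : V) : 0 < uu κ X b δ x := by
  unfold uu
  have h1 := rho_small P x
  have h2 : 0 ≤ ‖x‖ ^ 2 := by positivity
  linarith

lemma uu_ge (P : Par κ χ X h η Y1 Ck b δ) (x : V) : 1 / 4 ≤ uu κ X b δ x := by
  unfold uu
  have h1 := rho_small P x
  have h2 : 0 ≤ ‖x‖ ^ 2 := by positivity
  linarith

lemma uu_le (P : Par κ χ X h η Y1 Ck b δ) (x : V) : uu κ X b δ x ≤ (1 + ‖x‖ ^ 2) / 2 := by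
  unfold uu
  have h1 := rho_nonneg P x
  linarith

lemma dep_curve {x : ℝ → V} {v : V} {τ : ℝ} (hx : HasDerivAt x v τ) (hδ : δ ≠ 0) :
    HasDerivAt (fun r => dep δ (x r)) (-(⟪x τ, v⟫_ℝ / δ)) τ := by
  have h1 := (((hx.norm_sq).const_sub 1).div_const 2).sub_const δ
  have h2 := h1.div_const δ
  refine h2.congr_deriv ?_
  field_simp

lemma rho_curve (P : Par κ χ X h η Y1 Ck b δ) {x : ℝ → V} {v : V} {τ : ℝ}
    (hx : HasDerivAt x v τ) :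
    HasDerivAt (fun r => rho κ X b δ (x r)) (drho κ χ X b δ (x τ) v) τ := by
  have hδ := P.δ0.ne'
  have h1 := dep_curve hx hδ
  have h2 : HasDerivAt (fun r => κ (x r)) (fderiv ℝ κ (x τ) v) τ :=
    ((P.κs.differentiable (by simp)) (x τ)).hasFDerivAt.comp_hasDerivAt τ hx
  have h3 : HasDerivAt (fun r => X (dep δ (x r))) (χ (dep δ (x τ)) * (-(⟪x τ, v⟫_ℝ / δ))) τ :=
    (P.prof.der _).comp τ h1
  have h4 := ((h2.fun_mul h3).const_mul (δ ^ 2)).const_mul b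
  refine h4.congr_deriv ?_
  unfold drho
  field_simp
  ring

lemma uu_curve (P : Par κ χ X h η Y1 Ck b δ) {x : ℝ → V} {v : V} {τ : ℝ}
    (hx : HasDerivAt x v τ) :
    HasDerivAt (fun r => uu κ X b δ (x r)) (⟪x τ, v⟫_ℝ - drho κ χ X b δ (x τ) v) τ := by
  have h1 := ((hx.norm_sq.const_add 1).div_const 2).sub (rho_curve P hx)
  refine h1.congr_deriv ?_
  ring

lemma uu_fderiv (P : Par κ χ X h η Y1 Ck b δ) (x v : V) :
    fderiv ℝ (uu κ X b δ) x v = ⟪x, v⟫_ℝ - drho κ χ X b δ x v := by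
  have h1 : HasDerivAt (fun r : ℝ => x + r • v) v 0 := by
    have := ((hasDerivAt_id (0 : ℝ)).smul_const v).const_add x
    simpa using this
  have h2 := uu_curve P h1
  simp only [zero_smul, add_zero] at h2
  have h3 : HasFDerivAt (uu κ X b δ) (fderiv ℝ (uu κ X b δ) (x + (0 : ℝ) • v)) (x + (0 : ℝ) • v) :=
    (((uu_smooth P).differentiable (by simp)) _).hasFDerivAt
  have h4 := h3.comp_hasDerivAt 0 h1
  have h5 := h4.unique h2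
  simpa using h5

lemma uu_fderiv2 (P : Par κ χ X h η Y1 Ck b δ) (x v : V) :
    fderiv ℝ (fderiv ℝ (uu κ X b δ)) x v v = ‖v‖ ^ 2
      - b * (δ ^ 2 * (fderiv ℝ (fderiv ℝ κ) x v v * X (dep δ x))
        - 2 * δ * (χ (dep δ x) * (fderiv ℝ κ x v * ⟪x, v⟫_ℝ))
        + κ x * (deriv χ (dep δ x) * ⟪x, v⟫_ℝ ^ 2)
        - δ * (κ x * (χ (dep δ x) * ‖v‖ ^ 2))) := by
  have hδ := P.δ0.ne'
  have h1 : HasDerivAt (fun r : ℝ => x + r • v) v 0 := by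
    have := ((hasDerivAt_id (0 : ℝ)).smul_const v).const_add x
    simpa using this
  have hu2 : ContDiff ℝ 2 (uu κ X b δ) := contDiff_infty.1 (uu_smooth P) 2
  have hκ2 : ContDiff ℝ 2 κ := contDiff_infty.1 P.κs 2
  have h2 : HasDerivAt (fun r : ℝ => fderiv ℝ (uu κ X b δ) (x + r • v) v)
      (fderiv ℝ (fderiv ℝ (uu κ X b δ)) (x + (0 : ℝ) • v) v v
        + fderiv ℝ (uu κ X b δ) (x + (0 : ℝ) • v) 0) 0 :=
    du_deriv (v := fun _ => v) (J1 := fun _ => 0) hu2 h1 (hasDerivAt_const 0 v)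
  have hκd : HasDerivAt (fun r : ℝ => fderiv ℝ κ (x + r • v) v)
      (fderiv ℝ (fderiv ℝ κ) (x + (0 : ℝ) • v) v v + fderiv ℝ κ (x + (0 : ℝ) • v) 0) 0 :=
    du_deriv (v := fun _ => v) (J1 := fun _ => 0) hκ2 h1 (hasDerivAt_const 0 v)
  have hdep := dep_curve h1 hδ
  have hX : HasDerivAt (fun r : ℝ => X (dep δ (x + r • v)))
      (χ (dep δ (x + (0 : ℝ) • v)) * (-(⟪x + (0 : ℝ) • v, v⟫_ℝ / δ))) 0 :=
    (P.prof.der _).comp 0 hdep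
  have hχ : HasDerivAt (fun r : ℝ => χ (dep δ (x + r • v)))
      (deriv χ (dep δ (x + (0 : ℝ) • v)) * (-(⟪x + (0 : ℝ) • v, v⟫_ℝ / δ))) 0 :=
    (((P.prof.χsmooth.differentiable (by simp)) _).hasDerivAt).comp 0 hdep
  have hκ : HasDerivAt (fun r : ℝ => κ (x + r • v)) (fderiv ℝ κ (x + (0 : ℝ) • v) v) 0 :=
    ((P.κs.differentiable (by simp)) _).hasFDerivAt.comp_hasDerivAt 0 h1
  have hin : HasDerivAt (fun r : ℝ => ⟪x + r • v, v⟫_ℝ)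
      (⟪x + (0 : ℝ) • v, (0 : V)⟫_ℝ + ⟪v, v⟫_ℝ) 0 := h1.inner ℝ (hasDerivAt_const 0 v)
  have h3 := hin.sub (((hκd.fun_mul hX).const_mul (δ ^ 2)).sub
    ((hκ.fun_mul (hχ.fun_mul hin)).const_mul δ) |>.const_mul b)
  have h4 : (fun r : ℝ => fderiv ℝ (uu κ X b δ) (x + r • v) v)
      = fun r : ℝ => ⟪x + r • v, v⟫_ℝ - b * (δ ^ 2 * (fderiv ℝ κ (x + r • v) v
        * X (dep δ (x + r • v))) - δ * (κ (x + r • v) * (χ (dep δ (x + r • v))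
          * ⟪x + r • v, v⟫_ℝ))) := by
    funext r
    rw [uu_fderiv P]
    rfl
  rw [h4] at h2
  have h5 := h2.unique h3
  simp only [zero_smul, add_zero, map_zero, inner_zero_right, zero_add,
    real_inner_self_eq_norm_sq] at h5
  rw [h5]
  field_simp
  ring

/-- bounds for the derivative of the perturbation -/
lemma drho_le (P : Par κ χ X h η Y1 Ck b δ) {x : V} (hx : ‖x‖ ≤ 1) (v : V) :
    |drho κ χ X b δ x v| ≤ 2 * (δ ^ 2 * (Ck * Y1 * ‖v‖) + δ * |⟪x, v⟫_ℝ|) := by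
  unfold drho
  have h1 := P.κd x hx v
  have h2 := P.prof.X0 (dep δ x)
  have h3 := P.prof.X1 (dep δ x)
  have h4 := P.κ0 x
  have h5 := P.κ1 x
  have h6 := P.prof.χ0 (dep δ x)
  have h7 := P.prof.χ1 (dep δ x)
  have h8 := P.b1
  have h9 := P.δ0
  rw [abs_mul, abs_of_nonneg (by linarith : (0 : ℝ) ≤ b)]
  have k1 : |fderiv ℝ κ x v * X (dep δ x)| ≤ Ck * Y1 * ‖v‖ := by
    rw [abs_mul, abs_of_nonneg h2]
    calc |fderiv ℝ κ x v| * X (dep δ x) ≤ (Ck * ‖v‖) * Y1 :=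
          mul_le_mul h1 h3 h2 (mul_nonneg P.Ck0 (norm_nonneg _))
      _ = Ck * Y1 * ‖v‖ := by ring
  have k2 : |κ x * (χ (dep δ x) * ⟪x, v⟫_ℝ)| ≤ |⟪x, v⟫_ℝ| := by
    rw [abs_mul, abs_mul, abs_of_nonneg h4, abs_of_nonneg h6]
    have : χ (dep δ x) * |⟪x, v⟫_ℝ| ≤ 1 * |⟪x, v⟫_ℝ| :=
      mul_le_mul_of_nonneg_right h7 (abs_nonneg _)
    calc κ x * (χ (dep δ x) * |⟪x, v⟫_ℝ|) ≤ 1 * (1 * |⟪x, v⟫_ℝ|) :=
          mul_le_mul h5 this (mul_nonneg h6 (abs_nonneg _)) (by norm_num)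
      _ = |⟪x, v⟫_ℝ| := by ring
  have k3 : |δ ^ 2 * (fderiv ℝ κ x v * X (dep δ x)) - δ * (κ x * (χ (dep δ x) * ⟪x, v⟫_ℝ))|
      ≤ δ ^ 2 * (Ck * Y1 * ‖v‖) + δ * |⟪x, v⟫_ℝ| := by
    refine (abs_sub _ _).trans ?_
    rw [abs_mul (δ ^ 2), abs_mul δ, abs_of_nonneg (sq_nonneg δ), abs_of_nonneg h9.le]
    gcongr
  exact mul_le_mul P.b2 k3 (abs_nonneg _) (by norm_num)

/-- the excess of the curvature -/
def qq (χ : ℝ → ℝ) (Y1 Ck δ : ℝ) (x : V) : ℝ :=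
  8 * (δ ^ 2 * (Ck * Y1)) + 4 * (δ * (χ (dep δ x) * (2 * Ck + 1)))
    + 4 * max (-deriv χ (dep δ x)) 0

lemma uu_fderiv2_le (P : Par κ χ X h η Y1 Ck b δ) {x : V} (hx : ‖x‖ ≤ 1) (z : V) :
    fderiv ℝ (fderiv ℝ (uu κ X b δ)) x z z
      ≤ (1 + 2 * (δ ^ 2 * (Ck * Y1) + δ * (χ (dep δ x) * (2 * Ck + 1))
        + max (-deriv χ (dep δ x)) 0)) * ‖z‖ ^ 2 := by
  rw [uu_fderiv2 P]
  have h1 := P.κdd x hx z
  have h1' := P.κd x hx z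
  have h2 := P.prof.X0 (dep δ x)
  have h3 := P.prof.X1 (dep δ x)
  have h4 := P.κ0 x
  have h5 := P.κ1 x
  have h6 := P.prof.χ0 (dep δ x)
  have h7 := P.prof.χ1 (dep δ x)
  have h8 := P.b1
  have h9 := P.δ0
  have hin : |⟪x, z⟫_ℝ| ≤ ‖z‖ := by
    refine (abs_real_inner_le_norm x z).trans ?_
    calc ‖x‖ * ‖z‖ ≤ 1 * ‖z‖ := by gcongr
      _ = ‖z‖ := one_mul _
  have hin2 : ⟪x, z⟫_ℝ ^ 2 ≤ ‖z‖ ^ 2 := by
    rw [← sq_abs]; gcongr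
  set m := max (-deriv χ (dep δ x)) 0 with hm
  have hm0 : 0 ≤ m := le_max_right _ _
  have hm1 : -deriv χ (dep δ x) ≤ m := le_max_left _ _
  have k1 : -(fderiv ℝ (fderiv ℝ κ) x z z * X (dep δ x)) ≤ Ck * Y1 * ‖z‖ ^ 2 := by
    have a1 : |fderiv ℝ (fderiv ℝ κ) x z z * X (dep δ x)| ≤ Ck * Y1 * ‖z‖ ^ 2 := by
      rw [abs_mul, abs_of_nonneg h2]
      calc |fderiv ℝ (fderiv ℝ κ) x z z| * X (dep δ x) ≤ (Ck * ‖z‖ ^ 2) * Y1 :=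
            mul_le_mul h1 h3 h2 (mul_nonneg P.Ck0 (by positivity))
        _ = Ck * Y1 * ‖z‖ ^ 2 := by ring
    linarith [neg_abs_le (fderiv ℝ (fderiv ℝ κ) x z z * X (dep δ x))]
  have k2 : fderiv ℝ κ x z * ⟪x, z⟫_ℝ ≤ Ck * ‖z‖ ^ 2 := by
    refine (le_abs_self _).trans ?_
    rw [abs_mul]
    calc |fderiv ℝ κ x z| * |⟪x, z⟫_ℝ| ≤ (Ck * ‖z‖) * ‖z‖ :=
          mul_le_mul h1' hin (abs_nonneg _) (mul_nonneg P.Ck0 (norm_nonneg _))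
      _ = Ck * ‖z‖ ^ 2 := by ring
  have k2' : χ (dep δ x) * (fderiv ℝ κ x z * ⟪x, z⟫_ℝ) ≤ χ (dep δ x) * (Ck * ‖z‖ ^ 2) :=
    mul_le_mul_of_nonneg_left k2 h6
  have k3 : -(κ x * (deriv χ (dep δ x) * ⟪x, z⟫_ℝ ^ 2)) ≤ m * ‖z‖ ^ 2 := by
    have a1 : -deriv χ (dep δ x) * ⟪x, z⟫_ℝ ^ 2 ≤ m * ‖z‖ ^ 2 := by
      calc -deriv χ (dep δ x) * ⟪x, z⟫_ℝ ^ 2 ≤ m * ⟪x, z⟫_ℝ ^ 2 :=
            mul_le_mul_of_nonneg_right hm1 (sq_nonneg _)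
        _ ≤ m * ‖z‖ ^ 2 := mul_le_mul_of_nonneg_left hin2 hm0
    have a2 : κ x * (-deriv χ (dep δ x) * ⟪x, z⟫_ℝ ^ 2) ≤ κ x * (m * ‖z‖ ^ 2) :=
      mul_le_mul_of_nonneg_left a1 h4
    have a3 : κ x * (m * ‖z‖ ^ 2) ≤ 1 * (m * ‖z‖ ^ 2) :=
      mul_le_mul_of_nonneg_right h5 (by positivity)
    linarith
  have k4 : κ x * (χ (dep δ x) * ‖z‖ ^ 2) ≤ χ (dep δ x) * ‖z‖ ^ 2 := by
    have : κ x * (χ (dep δ x) * ‖z‖ ^ 2) ≤ 1 * (χ (dep δ x) * ‖z‖ ^ 2) :=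
      mul_le_mul_of_nonneg_right h5 (by positivity)
    linarith
  have k5 : -(δ ^ 2 * (fderiv ℝ (fderiv ℝ κ) x z z * X (dep δ x))
        - 2 * δ * (χ (dep δ x) * (fderiv ℝ κ x z * ⟪x, z⟫_ℝ))
        + κ x * (deriv χ (dep δ x) * ⟪x, z⟫_ℝ ^ 2)
        - δ * (κ x * (χ (dep δ x) * ‖z‖ ^ 2)))
      ≤ (δ ^ 2 * (Ck * Y1) + δ * (χ (dep δ x) * (2 * Ck + 1)) + m) * ‖z‖ ^ 2 := by
    have a1 := mul_le_mul_of_nonneg_left k1 (sq_nonneg δ)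
    have a2 := mul_le_mul_of_nonneg_left k2' h9.le
    have a3 := mul_le_mul_of_nonneg_left k4 h9.le
    nlinarith
  have hR : 0 ≤ (δ ^ 2 * (Ck * Y1) + δ * (χ (dep δ x) * (2 * Ck + 1)) + m) * ‖z‖ ^ 2 := by
    have := P.Ck0
    have := P.Y11
    positivity
  have k6 := mul_le_mul_of_nonneg_left k5 (by linarith : (0 : ℝ) ≤ b)
  have k7 := mul_le_mul_of_nonneg_right P.b2 hR
  linarith

/-- **Curvature bound.** -/
lemma curv_le (P : Par κ χ X h η Y1 Ck b δ) {x v G : V} (hx : ‖x‖ ≤ 1)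
    (hv : ‖v‖ = uu κ X b δ x) (hG : ∀ z, ⟪G, z⟫_ℝ = fderiv ℝ (uu κ X b δ) x z) (z : V) :
    uu κ X b δ x * fderiv ℝ (fderiv ℝ (uu κ X b δ)) x z z
      + fderiv ℝ (fderiv ℝ (uu κ X b δ)) x v v / uu κ X b δ x * ‖z‖ ^ 2
      - ‖G‖ ^ 2 * ‖z‖ ^ 2 ≤ (1 + qq χ Y1 Ck δ x) * ‖z‖ ^ 2 := by
  have hU := uu_pos P x
  have hU1 : uu κ X b δ x ≤ 1 := by
    have := uu_le P x
    nlinarith [norm_nonneg x]
  have h1 := uu_fderiv2_le P hx z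
  have h2 := uu_fderiv2_le P hx v
  rw [hv] at h2
  have h6 := P.prof.χ0 (dep δ x)
  have hC := P.Ck0
  have hY := P.Y11
  have hδ := P.δ0
  set T := δ ^ 2 * (Ck * Y1) + δ * (χ (dep δ x) * (2 * Ck + 1)) + max (-deriv χ (dep δ x)) 0
    with hT
  have hT0 : 0 ≤ T := by
    have : 0 ≤ max (-deriv χ (dep δ x)) 0 := le_max_right _ _
    positivity
  have a1 : uu κ X b δ x * fderiv ℝ (fderiv ℝ (uu κ X b δ)) x z z
      ≤ uu κ X b δ x * ((1 + 2 * T) * ‖z‖ ^ 2) := mul_le_mul_of_nonneg_left h1 hU.le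
  have a2 : fderiv ℝ (fderiv ℝ (uu κ X b δ)) x v v / uu κ X b δ x * ‖z‖ ^ 2
      ≤ ((1 + 2 * T) * uu κ X b δ x) * ‖z‖ ^ 2 := by
    refine mul_le_mul_of_nonneg_right ?_ (sq_nonneg _)
    rw [div_le_iff₀ hU]
    linarith
  have a3 : ‖x‖ ^ 2 - 2 * drho κ χ X b δ x x ≤ ‖G‖ ^ 2 := by
    have e1 : ⟪G, x⟫_ℝ = ‖x‖ ^ 2 - drho κ χ X b δ x x := by
      rw [hG, uu_fderiv P, real_inner_self_eq_norm_sq]
    have e2 : 0 ≤ ‖G - x‖ ^ 2 := by positivity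
    rw [norm_sub_sq_real, e1] at e2
    linarith
  have a4 : drho κ χ X b δ x x ≤ 2 * (δ ^ 2 * (Ck * Y1)) := by
    unfold drho
    have b1 := P.κd x hx x
    have b2 := P.prof.X0 (dep δ x)
    have b3 := P.prof.X1 (dep δ x)
    have b4 := P.κ0 x
    have b8 := P.b1
    have c1 : fderiv ℝ κ x x * X (dep δ x) ≤ Ck * Y1 := by
      refine (le_abs_self _).trans ?_
      rw [abs_mul, abs_of_nonneg b2]
      have : |fderiv ℝ κ x x| ≤ Ck := by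
        refine b1.trans ?_
        calc Ck * ‖x‖ ≤ Ck * 1 := by gcongr
          _ = Ck := mul_one _
      exact mul_le_mul this b3 b2 hC
    have c2 : 0 ≤ δ * (κ x * (χ (dep δ x) * ⟪x, x⟫_ℝ)) := by
      rw [real_inner_self_eq_norm_sq]; positivity
    have c3 : δ ^ 2 * (fderiv ℝ κ x x * X (dep δ x)) - δ * (κ x * (χ (dep δ x) * ⟪x, x⟫_ℝ))
        ≤ δ ^ 2 * (Ck * Y1) := by
      have := mul_le_mul_of_nonneg_left c1 (sq_nonneg δ)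
      linarith
    have c4 := mul_le_mul_of_nonneg_left c3 (by linarith : (0 : ℝ) ≤ b)
    have c5 := mul_le_mul_of_nonneg_right P.b2 (by positivity : 0 ≤ δ ^ 2 * (Ck * Y1))
    linarith
  have a5 : 2 * uu κ X b δ x - ‖x‖ ^ 2 ≤ 1 := by
    have := uu_le P x
    linarith
  have a6 := mul_le_mul_of_nonneg_right a3 (sq_nonneg ‖z‖)
  have a7 : 2 * uu κ X b δ x * (1 + 2 * T) - ‖x‖ ^ 2 + 2 * drho κ χ X b δ x x
      ≤ 1 + qq χ Y1 Ck δ x := by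
    unfold qq
    have : uu κ X b δ x * T ≤ 1 * T := mul_le_mul_of_nonneg_right hU1 hT0
    rw [hT] at this ⊢
    nlinarith
  have a8 := mul_le_mul_of_nonneg_right a7 (sq_nonneg ‖z‖)
  linarith

end

end

end Pool.Agent.Y495.SM
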