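import Mathlib

/-!
The tetrahedral net on the unit sphere: a great circle leaves it, uniformly; a cut-off function.
-/

set_option autoImplicit false

namespace Pool.Agent.Y495.SM

open scoped ContDiff InnerProductSpace
open Set Metric

noncomputable section

/-- the coordinates of the points on the edges of the spherical tetrahedron -/
def NetR (κ p q r : ℝ) : Prop :=
  (q = r ∧ κ ≤ p) ∨ (q = -r ∧ κ ≤ -p) ∨ (r = p ∧ κ ≤ q) ∨ (r = -p ∧ κ ≤ -q) ∨
    (p = q ∧ κ ≤ r) ∨ (p = -q ∧ κ ≤ -r)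

lemma NetR.cyc {κ p q r : ℝ} (h : NetR κ p q r) : NetR κ q r p := by
  unfold NetR at *
  tauto

lemma netR_plane_pos {κ p q r : ℝ} (hκ : 0 < κ) (h1 : p ^ 2 + q ^ 2 + r ^ 2 = 1)
    (h : NetR κ p q r) (hqr : q = r) : κ ≤ p ∨ p = -1 := by
  unfold NetR at h
  rcases h with h | h | h | h | h | h
  · exact Or.inl h.2
  · right
    have h2 : q = 0 := by linarith [h.1]
    have h3 : r = 0 := by linarith [h.1]
    rw [h2, h3] at h1
    nlinarith [h.2]
  · left; linarith [h.1, h.2]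
  · left; linarith [h.1, h.2]
  · left; linarith [h.1, h.2]
  · left; linarith [h.1, h.2]

lemma netR_plane_neg {κ p q r : ℝ} (hκ : 0 < κ) (h1 : p ^ 2 + q ^ 2 + r ^ 2 = 1)
    (h : NetR κ p q r) (hqr : q = -r) : κ ≤ -p ∨ p = 1 := by
  unfold NetR at h
  rcases h with h | h | h | h | h | h
  · right
    have h2 : q = 0 := by linarith [h.1]
    have h3 : r = 0 := by linarith [h.1]
    rw [h2, h3] at h1
    nlinarith [h.2]
  · exact Or.inl h.2
  · left; linarith [h.1, h.2]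
  · left; linarith [h.1, h.2]
  · left; linarith [h.1, h.2]
  · left; linarith [h.1, h.2]

/-- Two points of the interval `[1/4, 11/4]` with the same extreme value coincide. -/
lemma extreme_unique {A B τ t t' : ℝ} (hAB : A ^ 2 + B ^ 2 ≤ 1) (hτ : τ ^ 2 = 1)
    (h1 : Real.cos t * A + Real.sin t * B = τ) (h2 : Real.cos t' * A + Real.sin t' * B = τ)
    (ht : t ∈ Icc (1 / 4 : ℝ) (11 / 4)) (ht' : t' ∈ Icc (1 / 4 : ℝ) (11 / 4)) : t = t' := by
  have hpi := Real.pi_gt_three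
  have e1 := Real.sin_sq_add_cos_sq t
  have e2 := Real.sin_sq_add_cos_sq t'
  -- `A = τ cos t`, `B = τ sin t`
  have key : ∀ s : ℝ, Real.cos s * A + Real.sin s * B = τ → A = τ * Real.cos s ∧
      B = τ * Real.sin s := by
    intro s hs
    have e := Real.sin_sq_add_cos_sq s
    have h3 : (A - τ * Real.cos s) ^ 2 + (B - τ * Real.sin s) ^ 2 ≤ 0 := by
      have : (A - τ * Real.cos s) ^ 2 + (B - τ * Real.sin s) ^ 2
          = A ^ 2 + B ^ 2 - 2 * τ * (Real.cos s * A + Real.sin s * B)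
            + τ ^ 2 * (Real.sin s ^ 2 + Real.cos s ^ 2) := by ring
      rw [this, hs, e, hτ]
      nlinarith
    have q1 := sq_nonneg (A - τ * Real.cos s)
    have q2 := sq_nonneg (B - τ * Real.sin s)
    have h4 : (A - τ * Real.cos s) ^ 2 = 0 := by linarith
    have h5 : (B - τ * Real.sin s) ^ 2 = 0 := by linarith
    rw [pow_eq_zero_iff (by norm_num)] at h4 h5
    exact ⟨by linarith, by linarith⟩
  obtain ⟨a1, b1⟩ := key t h1
  obtain ⟨a2, b2⟩ := key t' h2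
  have hτ0 : τ ≠ 0 := by
    rintro rfl; norm_num at hτ
  have h3 : Real.cos t = Real.cos t' := by
    have := a1.symm.trans a2
    exact mul_left_cancel₀ hτ0 this
  refine Real.injOn_cos ⟨by linarith [ht.1], by linarith [ht.2]⟩
    ⟨by linarith [ht'.1], by linarith [ht'.2]⟩ h3

/-- Zeros of a nonzero linear form along a great circle. -/
lemma zero_unique {A B t t' : ℝ} (hAB : ¬ (A = 0 ∧ B = 0))
    (h1 : Real.cos t * A + Real.sin t * B = 0) (h2 : Real.cos t' * A + Real.sin t' * B = 0)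
    (ht : t ∈ Icc (1 / 4 : ℝ) (11 / 4)) (ht' : t' ∈ Icc (1 / 4 : ℝ) (11 / 4)) : t = t' := by
  have hpi := Real.pi_gt_three
  by_contra hne
  have h3 : Real.sin (t' - t) ≠ 0 := by
    rcases lt_or_gt_of_ne hne with h | h
    · exact (Real.sin_pos_of_pos_of_lt_pi (by linarith) (by linarith [ht.1, ht'.2])).ne'
    · have : Real.sin (t' - t) = -Real.sin (t - t') := by rw [← Real.sin_neg]; ring_nf
      rw [this]
      have := Real.sin_pos_of_pos_of_lt_pi (x := t - t') (by linarith) (by linarith [ht'.1, ht.2])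
      linarith
  rw [Real.sin_sub] at h3
  apply hAB
  have e1 : (Real.sin t' * Real.cos t - Real.cos t' * Real.sin t) * A = 0 := by
    linear_combination Real.sin t' * h1 - Real.sin t * h2
  have e2 : (Real.sin t' * Real.cos t - Real.cos t' * Real.sin t) * B = 0 := by
    linear_combination Real.cos t * h2 - Real.cos t' * h1
  exact ⟨(mul_eq_zero.1 e1).resolve_left h3, (mul_eq_zero.1 e2).resolve_left h3⟩

/-- A great circle in a plane of symmetry leaves the net. -/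
lemma plane_leaves {κ : ℝ} (hκ : 1 / 2 < κ) {A B σ : ℝ} (hσ : σ ^ 2 = 1)
    (hAB : A ^ 2 + B ^ 2 ≤ 1)
    (h : ∀ t ∈ Icc (1 / 4 : ℝ) (11 / 4), κ ≤ σ * (Real.cos t * A + Real.sin t * B) ∨
      Real.cos t * A + Real.sin t * B = -σ) : False := by
  have hpi := Real.pi_gt_three
  have hpi' := Real.pi_lt_d2
  have key : ∀ d : ℝ, Real.cos d ≤ 1 / 2 → 0 ≤ Real.cos d →
      ¬ (κ ≤ σ * (Real.cos (3 / 2 - d) * A + Real.sin (3 / 2 - d) * B) ∧
        κ ≤ σ * (Real.cos (3 / 2 + d) * A + Real.sin (3 / 2 + d) * B)) := by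
    rintro d hd hd0 ⟨h1, h2⟩
    have h3 : σ * (Real.cos (3 / 2 - d) * A + Real.sin (3 / 2 - d) * B)
        + σ * (Real.cos (3 / 2 + d) * A + Real.sin (3 / 2 + d) * B)
        = 2 * Real.cos d * (σ * (Real.cos (3 / 2) * A + Real.sin (3 / 2) * B)) := by
      rw [Real.cos_sub, Real.cos_add, Real.sin_sub, Real.sin_add]; ring
    have h4 : σ * (Real.cos (3 / 2) * A + Real.sin (3 / 2) * B) ≤ 1 := by
      have e := Real.sin_sq_add_cos_sq (3 / 2 : ℝ)
      have h5 : (σ * (Real.cos (3 / 2) * A + Real.sin (3 / 2) * B)) ^ 2 ≤ 1 := by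
        rw [mul_pow, hσ, one_mul]
        have : (Real.cos (3 / 2) * A + Real.sin (3 / 2) * B) ^ 2
            + (Real.sin (3 / 2) * A - Real.cos (3 / 2) * B) ^ 2
            = (Real.sin (3 / 2) ^ 2 + Real.cos (3 / 2) ^ 2) * (A ^ 2 + B ^ 2) := by ring
        rw [e, one_mul] at this
        nlinarith [sq_nonneg (Real.sin (3 / 2) * A - Real.cos (3 / 2) * B)]
      nlinarith
    nlinarith
  have hc1 : Real.cos (Real.pi / 3) = 1 / 2 := Real.cos_pi_div_three
  have hc2 : Real.cos (6 / 5) ≤ 1 / 2 := by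
    rw [← hc1]
    exact Real.cos_le_cos_of_nonneg_of_le_pi (by linarith) (by linarith) (by linarith)
  have hc3 : 0 ≤ Real.cos (6 / 5) := Real.cos_nonneg_of_mem_Icc ⟨by linarith, by linarith⟩
  have k1 := key (Real.pi / 3) hc1.le (by rw [hc1]; norm_num)
  have k2 := key (6 / 5) hc2 hc3
  have m1 : (3 / 2 - Real.pi / 3) ∈ Icc (1 / 4 : ℝ) (11 / 4) := ⟨by linarith, by linarith⟩
  have m2 : (3 / 2 + Real.pi / 3) ∈ Icc (1 / 4 : ℝ) (11 / 4) := ⟨by linarith, by linarith⟩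
  have m3 : (3 / 2 - 6 / 5 : ℝ) ∈ Icc (1 / 4 : ℝ) (11 / 4) := ⟨by norm_num, by norm_num⟩
  have m4 : (3 / 2 + 6 / 5 : ℝ) ∈ Icc (1 / 4 : ℝ) (11 / 4) := ⟨by norm_num, by norm_num⟩
  have hσ' : (-σ) ^ 2 = 1 := by rw [neg_sq]; exact hσ
  have hu : ∀ t ∈ Icc (1 / 4 : ℝ) (11 / 4), ∀ t' ∈ Icc (1 / 4 : ℝ) (11 / 4),
      Real.cos t * A + Real.sin t * B = -σ → Real.cos t' * A + Real.sin t' * B = -σ → t = t' :=
    fun t ht t' ht' h1 h2 => extreme_unique hAB hσ' h1 h2 ht ht'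
  rcases h _ m1 with a1 | a1
  · rcases h _ m2 with a2 | a2
    · exact k1 ⟨a1, a2⟩
    · rcases h _ m3 with a3 | a3
      · rcases h _ m4 with a4 | a4
        · exact k2 ⟨a3, a4⟩
        · have := hu _ m2 _ m4 a2 a4
          linarith
      · have := hu _ m2 _ m3 a2 a3
        linarith
  · rcases h _ m3 with a3 | a3
    · rcases h _ m4 with a4 | a4
      · exact k2 ⟨a3, a4⟩
      · have := hu _ m1 _ m4 a1 a4
        linarith
    · have := hu _ m1 _ m3 a1 a3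
      linarith

/-- A great circle leaves the net. -/
lemma circle_leaves {κ : ℝ} (hκ : 1 / 2 < κ) {a b : Fin 3 → ℝ}
    (hab : ∀ i, a i ^ 2 + b i ^ 2 ≤ 1)
    (h1 : ∀ t ∈ Icc (1 / 4 : ℝ) (11 / 4),
      (Real.cos t * a 0 + Real.sin t * b 0) ^ 2 + (Real.cos t * a 1 + Real.sin t * b 1) ^ 2
        + (Real.cos t * a 2 + Real.sin t * b 2) ^ 2 = 1)
    (h : ∀ t ∈ Icc (1 / 4 : ℝ) (11 / 4), NetR κ (Real.cos t * a 0 + Real.sin t * b 0)
      (Real.cos t * a 1 + Real.sin t * b 1) (Real.cos t * a 2 + Real.sin t * b 2)) : False := by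
  have hκ0 : 0 < κ := by linarith
  -- one of the six linear forms vanishes on the circle
  let Z : ℝ → ℝ → Set ℝ := fun A B => {t | t ∈ Icc (1 / 4 : ℝ) (11 / 4) ∧
    Real.cos t * A + Real.sin t * B = 0}
  have hZ : ∀ A B : ℝ, ¬ (A = 0 ∧ B = 0) → (Z A B).Finite := by
    intro A B hAB
    refine Set.Subsingleton.finite ?_
    rintro t ⟨ht, h2⟩ t' ⟨ht', h3⟩
    exact zero_unique hAB h2 h3 ht ht'
  have hsix : (a 1 - a 2 = 0 ∧ b 1 - b 2 = 0) ∨ (a 1 + a 2 = 0 ∧ b 1 + b 2 = 0) ∨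
      (a 2 - a 0 = 0 ∧ b 2 - b 0 = 0) ∨ (a 2 + a 0 = 0 ∧ b 2 + b 0 = 0) ∨
      (a 0 - a 1 = 0 ∧ b 0 - b 1 = 0) ∨ (a 0 + a 1 = 0 ∧ b 0 + b 1 = 0) := by
    by_contra hcon
    push Not at hcon
    obtain ⟨c1, c2, c3, c4, c5, c6⟩ := hcon
    have hfin : (Z (a 1 - a 2) (b 1 - b 2) ∪ (Z (a 1 + a 2) (b 1 + b 2) ∪
        (Z (a 2 - a 0) (b 2 - b 0) ∪ (Z (a 2 + a 0) (b 2 + b 0) ∪
        (Z (a 0 - a 1) (b 0 - b 1) ∪ Z (a 0 + a 1) (b 0 + b 1)))))).Finite := by
      refine (hZ _ _ fun hh => c1 hh.1 hh.2).union ((hZ _ _ fun hh => c2 hh.1 hh.2).union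
        ((hZ _ _ fun hh => c3 hh.1 hh.2).union ((hZ _ _ fun hh => c4 hh.1 hh.2).union
        ((hZ _ _ fun hh => c5 hh.1 hh.2).union (hZ _ _ fun hh => c6 hh.1 hh.2)))))
    have hsub : Icc (1 / 4 : ℝ) (11 / 4) ⊆ (Z (a 1 - a 2) (b 1 - b 2) ∪ (Z (a 1 + a 2) (b 1 + b 2) ∪
        (Z (a 2 - a 0) (b 2 - b 0) ∪ (Z (a 2 + a 0) (b 2 + b 0) ∪
        (Z (a 0 - a 1) (b 0 - b 1) ∪ Z (a 0 + a 1) (b 0 + b 1)))))) := by
      intro t ht
      rcases h t ht with h2 | h2 | h2 | h2 | h2 | h2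
      · left; exact ⟨ht, by linarith [h2.1]⟩
      · right; left; exact ⟨ht, by linarith [h2.1]⟩
      · right; right; left; exact ⟨ht, by linarith [h2.1]⟩
      · right; right; right; left; exact ⟨ht, by linarith [h2.1]⟩
      · right; right; right; right; left; exact ⟨ht, by linarith [h2.1]⟩
      · right; right; right; right; right; exact ⟨ht, by linarith [h2.1]⟩
    exact (Set.Icc_infinite (by norm_num : (1 / 4 : ℝ) < 11 / 4)) (hfin.subset hsub)
  have cyc1 : ∀ t ∈ Icc (1 / 4 : ℝ) (11 / 4),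
      (Real.cos t * a 1 + Real.sin t * b 1) ^ 2 + (Real.cos t * a 2 + Real.sin t * b 2) ^ 2
        + (Real.cos t * a 0 + Real.sin t * b 0) ^ 2 = 1 := fun t ht => by linarith [h1 t ht]
  have cyc2 : ∀ t ∈ Icc (1 / 4 : ℝ) (11 / 4),
      (Real.cos t * a 2 + Real.sin t * b 2) ^ 2 + (Real.cos t * a 0 + Real.sin t * b 0) ^ 2
        + (Real.cos t * a 1 + Real.sin t * b 1) ^ 2 = 1 := fun t ht => by linarith [h1 t ht]
  rcases hsix with ⟨c, d⟩ | ⟨c, d⟩ | ⟨c, d⟩ | ⟨c, d⟩ | ⟨c, d⟩ | ⟨c, d⟩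
  · refine plane_leaves hκ (σ := 1) (by norm_num) (hab 0) fun t ht => ?_
    rw [one_mul]
    refine netR_plane_pos hκ0 (h1 t ht) (h t ht) ?_
    rw [show a 1 = a 2 by linarith, show b 1 = b 2 by linarith]
  · refine plane_leaves hκ (σ := -1) (by norm_num) (hab 0) fun t ht => ?_
    rw [neg_one_mul, neg_neg]
    refine netR_plane_neg hκ0 (h1 t ht) (h t ht) ?_
    rw [show a 1 = -a 2 by linarith, show b 1 = -b 2 by linarith]; ring
  · refine plane_leaves hκ (σ := 1) (by norm_num) (hab 1) fun t ht => ?_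
    rw [one_mul]
    refine netR_plane_pos hκ0 (cyc1 t ht) (h t ht).cyc ?_
    rw [show a 2 = a 0 by linarith, show b 2 = b 0 by linarith]
  · refine plane_leaves hκ (σ := -1) (by norm_num) (hab 1) fun t ht => ?_
    rw [neg_one_mul, neg_neg]
    refine netR_plane_neg hκ0 (cyc1 t ht) (h t ht).cyc ?_
    rw [show a 2 = -a 0 by linarith, show b 2 = -b 0 by linarith]; ring
  · refine plane_leaves hκ (σ := 1) (by norm_num) (hab 2) fun t ht => ?_
    rw [one_mul]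
    refine netR_plane_pos hκ0 (cyc2 t ht) (h t ht).cyc.cyc ?_
    rw [show a 0 = a 1 by linarith, show b 0 = b 1 by linarith]
  · refine plane_leaves hκ (σ := -1) (by norm_num) (hab 2) fun t ht => ?_
    rw [neg_one_mul, neg_neg]
    refine netR_plane_neg hκ0 (cyc2 t ht) (h t ht).cyc.cyc ?_
    rw [show a 0 = -a 1 by linarith, show b 0 = -b 1 by linarith]; ring

variable {V : Type*} [NormedAddCommGroup V] [InnerProductSpace ℝ V]

/-- The net: the edges of a regular tetrahedron projected to the unit sphere. -/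
def Net (e : Fin 3 → V) : Set V :=
  {x | ‖x‖ = 1 ∧ ⟪e 0, x⟫_ℝ ^ 2 + ⟪e 1, x⟫_ℝ ^ 2 + ⟪e 2, x⟫_ℝ ^ 2 = 1 ∧
    NetR (Real.sqrt 3 / 3) ⟪e 0, x⟫_ℝ ⟪e 1, x⟫_ℝ ⟪e 2, x⟫_ℝ}

lemma Net_closed (e : Fin 3 → V) : IsClosed (Net e) := by
  unfold Net NetR
  have c : ∀ i, Continuous fun x : V => ⟪e i, x⟫_ℝ := fun i => continuous_const.inner continuous_id
  refine (isClosed_eq continuous_norm continuous_const).inter
    ((isClosed_eq ((((c 0).pow 2).add ((c 1).pow 2)).add ((c 2).pow 2)) continuous_const).inter ?_)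
  refine IsClosed.union ?_ (IsClosed.union ?_ (IsClosed.union ?_ (IsClosed.union ?_
    (IsClosed.union ?_ ?_))))
  · exact (isClosed_eq (c 1) (c 2)).inter (isClosed_le continuous_const (c 0))
  · exact (isClosed_eq (c 1) (c 2).neg).inter (isClosed_le continuous_const (c 0).neg)
  · exact (isClosed_eq (c 2) (c 0)).inter (isClosed_le continuous_const (c 1))
  · exact (isClosed_eq (c 2) (c 0).neg).inter (isClosed_le continuous_const (c 1).neg)
  · exact (isClosed_eq (c 0) (c 1)).inter (isClosed_le continuous_const (c 2))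
  · exact (isClosed_eq (c 0) (c 1).neg).inter (isClosed_le continuous_const (c 2).neg)

lemma bessel2 {a b e : V} (ha : ‖a‖ = 1) (hb : ‖b‖ = 1) (hab : ⟪a, b⟫_ℝ = 0) (he : ‖e‖ = 1) :
    ⟪e, a⟫_ℝ ^ 2 + ⟪e, b⟫_ℝ ^ 2 ≤ 1 := by
  have h : 0 ≤ ‖e - (⟪e, a⟫_ℝ • a + ⟪e, b⟫_ℝ • b)‖ ^ 2 := by positivity
  rw [norm_sub_sq_real, norm_add_sq_real, inner_add_right] at h
  simp only [norm_smul, inner_smul_left, inner_smul_right, mul_pow, Real.norm_eq_abs, sq_abs,
    conj_trivial, ha, hb, hab, he] at h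
  nlinarith

lemma Net_circle {e : Fin 3 → V} (he : Orthonormal ℝ e) {a b : V} (ha : ‖a‖ = 1) (hb : ‖b‖ = 1)
    (hab : ⟪a, b⟫_ℝ = 0) :
    ∃ t ∈ Icc (1 / 4 : ℝ) (11 / 4), Real.cos t • a + Real.sin t • b ∉ Net e := by
  by_contra hcon
  push Not at hcon
  have hs : 1 / 2 < Real.sqrt 3 / 3 := by
    have h1 : (3 / 2 : ℝ) < Real.sqrt 3 := by
      rw [Real.lt_sqrt (by norm_num)]; norm_num
    linarith
  refine circle_leaves hs (a := fun i => ⟪e i, a⟫_ℝ) (b := fun i => ⟪e i, b⟫_ℝ)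
    (fun i => bessel2 ha hb hab (he.1 i)) (fun t ht => ?_) (fun t ht => ?_)
  · have := (hcon t ht).2.1
    simpa only [inner_add_right, inner_smul_right] using this
  · have := (hcon t ht).2.2
    simpa only [inner_add_right, inner_smul_right] using this

/-- Uniform version: nearly orthonormal pairs. -/
theorem Net_unif [FiniteDimensional ℝ V] {e : Fin 3 → V} (he : Orthonormal ℝ e) :
    ∃ ε : ℝ, 0 < ε ∧ ε ≤ 1 / 100 ∧ ∀ a b : V, |‖a‖ ^ 2 - 1| ≤ ε → |‖b‖ ^ 2 - 1| ≤ ε →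
      |⟪a, b⟫_ℝ| ≤ ε → ∃ t ∈ Icc (1 / 4 : ℝ) (11 / 4),
        4 * ε ≤ infDist (Real.cos t • a + Real.sin t • b) (Net e) := by
  let F : ℕ → Set (V × V) := fun k => {z | |‖z.1‖ ^ 2 - 1| ≤ 1 / ((k : ℝ) + 1) ∧
    |‖z.2‖ ^ 2 - 1| ≤ 1 / ((k : ℝ) + 1) ∧ |⟪z.1, z.2⟫_ℝ| ≤ 1 / ((k : ℝ) + 1) ∧
    ∀ t ∈ Icc (1 / 4 : ℝ) (11 / 4),
      infDist (Real.cos t • z.1 + Real.sin t • z.2) (Net e) ≤ 1 / ((k : ℝ) + 1)}
  have hFcl : ∀ k, IsClosed (F k) := by
    intro k
    have c1 : IsClosed {z : V × V | |‖z.1‖ ^ 2 - 1| ≤ 1 / ((k : ℝ) + 1)} :=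
      isClosed_le (by fun_prop) continuous_const
    have c2 : IsClosed {z : V × V | |‖z.2‖ ^ 2 - 1| ≤ 1 / ((k : ℝ) + 1)} :=
      isClosed_le (by fun_prop) continuous_const
    have c3 : IsClosed {z : V × V | |⟪z.1, z.2⟫_ℝ| ≤ 1 / ((k : ℝ) + 1)} :=
      isClosed_le (by fun_prop) continuous_const
    refine c1.inter (c2.inter (c3.inter ?_))
    have : {z : V × V | ∀ t ∈ Icc (1 / 4 : ℝ) (11 / 4),
        infDist (Real.cos t • z.1 + Real.sin t • z.2) (Net e) ≤ 1 / ((k : ℝ) + 1)}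
        = ⋂ t ∈ Icc (1 / 4 : ℝ) (11 / 4), {z : V × V |
          infDist (Real.cos t • z.1 + Real.sin t • z.2) (Net e) ≤ 1 / ((k : ℝ) + 1)} := by
      ext z; simp
    change IsClosed {z : V × V | ∀ t ∈ Icc (1 / 4 : ℝ) (11 / 4),
        infDist (Real.cos t • z.1 + Real.sin t • z.2) (Net e) ≤ 1 / ((k : ℝ) + 1)}
    rw [this]
    refine isClosed_biInter fun t _ => isClosed_le ?_ continuous_const
    exact (continuous_infDist_pt _).comp (by fun_prop)
  have hbd : F 0 ⊆ closedBall 0 2 := by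
    rintro ⟨a, b⟩ ⟨h1, h2, -, -⟩
    simp only [Nat.cast_zero, zero_add, div_one] at h1 h2
    rw [mem_closedBall, dist_zero_right, Prod.norm_def, max_le_iff]
    have k1 := (abs_le.1 h1).2
    have k2 := (abs_le.1 h2).2
    simp only at *
    constructor
    · nlinarith [norm_nonneg a]
    · nlinarith [norm_nonneg b]
  have hF0 : IsCompact (F 0) := (isCompact_closedBall (0 : V × V) 2).of_isClosed_subset (hFcl 0) hbd
  have hdec : ∀ k, F (k + 1) ⊆ F k := by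
    rintro k ⟨a, b⟩ ⟨h1, h2, h3, h4⟩
    have hk : 1 / (((k + 1 : ℕ) : ℝ) + 1) ≤ 1 / ((k : ℝ) + 1) := by
      push_cast
      apply one_div_le_one_div_of_le (by positivity)
      linarith
    exact ⟨h1.trans hk, h2.trans hk, h3.trans hk, fun t ht => (h4 t ht).trans hk⟩
  have hex : ∃ k, F k = ∅ := by
    by_contra hcon
    push Not at hcon
    obtain ⟨⟨a, b⟩, hab⟩ := IsCompact.nonempty_iInter_of_sequence_nonempty_isCompact_isClosed F
      hdec hcon hF0 hFcl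
    rw [mem_iInter] at hab
    have hlim : ∀ c : ℝ, (∀ k : ℕ, c ≤ 1 / ((k : ℝ) + 1)) → c ≤ 0 := fun c hc =>
      ge_of_tendsto' tendsto_one_div_add_atTop_nhds_zero_nat hc
    have h1 : ‖a‖ = 1 := by
      have : |‖a‖ ^ 2 - 1| ≤ 0 := hlim _ fun k => (hab k).1
      have h2 : ‖a‖ ^ 2 - 1 = 0 := abs_eq_zero.1 (le_antisymm this (abs_nonneg _))
      nlinarith [norm_nonneg a]
    have h2 : ‖b‖ = 1 := by
      have : |‖b‖ ^ 2 - 1| ≤ 0 := hlim _ fun k => (hab k).2.1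
      have h2 : ‖b‖ ^ 2 - 1 = 0 := abs_eq_zero.1 (le_antisymm this (abs_nonneg _))
      nlinarith [norm_nonneg b]
    have h3 : ⟪a, b⟫_ℝ = 0 := by
      have : |⟪a, b⟫_ℝ| ≤ 0 := hlim _ fun k => (hab k).2.2.1
      exact abs_eq_zero.1 (le_antisymm this (abs_nonneg _))
    obtain ⟨t, ht, hout⟩ := Net_circle he h1 h2 h3
    apply hout
    have h4 : infDist (Real.cos t • a + Real.sin t • b) (Net e) = 0 := by
      refine le_antisymm (hlim _ fun k => (hab k).2.2.2 t ht) infDist_nonneg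
    have hne : (Net e).Nonempty := by
      refine ⟨e 0, he.1 0, ?_, ?_⟩
      · have h5 : ⟪e 1, e 0⟫_ℝ = 0 := he.2 (by decide)
        have h6 : ⟪e 2, e 0⟫_ℝ = 0 := he.2 (by decide)
        rw [real_inner_self_eq_norm_sq, he.1 0, h5, h6]; norm_num
      · left
        have h5 : ⟪e 1, e 0⟫_ℝ = 0 := he.2 (by decide)
        have h6 : ⟪e 2, e 0⟫_ℝ = 0 := he.2 (by decide)
        rw [real_inner_self_eq_norm_sq, he.1 0, h5, h6]
        refine ⟨rfl, ?_⟩
        have : Real.sqrt 3 ≤ 3 := by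
          rw [Real.sqrt_le_left (by norm_num)]; norm_num
        linarith
    exact ((Net_closed e).mem_iff_infDist_zero hne).2 h4
  obtain ⟨k, hk⟩ := hex
  refine ⟨min (1 / 100) (1 / (8 * ((k : ℝ) + 1))), by positivity, min_le_left _ _, ?_⟩
  intro a b h1 h2 h3
  by_contra hcon
  push Not at hcon
  have hle : min (1 / 100) (1 / (8 * ((k : ℝ) + 1))) ≤ 1 / (8 * ((k : ℝ) + 1)) := min_le_right _ _
  have h8 : 1 / (8 * ((k : ℝ) + 1)) = 1 / 8 * (1 / ((k : ℝ) + 1)) := by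
    field_simp
  have hpos : 0 < 1 / ((k : ℝ) + 1) := by positivity
  have hmem : (a, b) ∈ F k := by
    refine ⟨by simp only; linarith, by simp only; linarith, by simp only; linarith, ?_⟩
    intro t ht
    have := hcon t ht
    simp only
    linarith
  rw [hk] at hmem
  exact hmem

open scoped Manifold in
/-- The cut-off function. -/
theorem exists_cutoff [FiniteDimensional ℝ V] (e : Fin 3 → V) {ε : ℝ} (hε : 0 < ε) :
    ∃ κ : V → ℝ, ContDiff ℝ ∞ κ ∧ (∀ x, 0 ≤ κ x) ∧ (∀ x, κ x ≤ 1) ∧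
      (∀ x, infDist x (Net e) ≤ ε → κ x = 1) ∧ (∀ x, 2 * ε ≤ infDist x (Net e) → κ x = 0) := by
  have hs : IsClosed {x : V | 2 * ε ≤ infDist x (Net e)} :=
    isClosed_le continuous_const (continuous_infDist_pt _)
  have ht : IsClosed {x : V | infDist x (Net e) ≤ ε} :=
    isClosed_le (continuous_infDist_pt _) continuous_const
  have hd : Disjoint {x : V | 2 * ε ≤ infDist x (Net e)} {x : V | infDist x (Net e) ≤ ε} := by
    rw [Set.disjoint_left]
    intro x h1 h2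
    have h1' : 2 * ε ≤ infDist x (Net e) := h1
    have h2' : infDist x (Net e) ≤ ε := h2
    linarith
  obtain ⟨f, hf0, hf1, hf⟩ := exists_contMDiffMap_zero_one_of_isClosed (n := ⊤) 𝓘(ℝ, V) hs ht hd
  exact ⟨f, f.contMDiff.contDiff, fun x => (hf x).1, fun x => (hf x).2, fun x hx => hf1 hx,
    fun x hx => hf0 hx⟩

end

end Pool.Agent.Y495.SM
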