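import Mathlib

/-!
Comparison with `f'' + f = 0`, and the auxiliary functions used to build supersolutions.
-/

set_option autoImplicit false

namespace Pool.Agent.Y495.SM

open Set

noncomputable section

section step

variable {f f1 f2 : ℝ → ℝ} {s t : ℝ}

lemma step_fwd (hst : s ≤ t) (hπ : t - s ≤ Real.pi)
    (h1 : ∀ r ∈ Icc s t, HasDerivAt f (f1 r) r) (h2 : ∀ r ∈ Icc s t, HasDerivAt f1 (f2 r) r)
    (h : ∀ r ∈ Icc s t, 0 ≤ f2 r + f r) :
    f s * Real.cos (t - s) + f1 s * Real.sin (t - s) ≤ f t := by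
  have hd : ∀ r ∈ Icc s t, HasDerivAt (fun r => f1 r * Real.sin (t - r) + f r * Real.cos (t - r))
      ((f2 r + f r) * Real.sin (t - r)) r := by
    intro r hr
    have a0 : HasDerivAt (fun r => t - r) (-1) r := by
      simpa using (hasDerivAt_id r).const_sub t
    have a1 := (h2 r hr).mul (a0.sin)
    have a2 := (h1 r hr).mul (a0.cos)
    refine (a1.add a2).congr_deriv ?_
    ring
  have hmono : MonotoneOn (fun r => f1 r * Real.sin (t - r) + f r * Real.cos (t - r)) (Icc s t) := by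
    refine monotoneOn_of_deriv_nonneg (convex_Icc s t)
      (fun r hr => (hd r hr).continuousAt.continuousWithinAt)
      (fun r hr => (hd r (interior_subset hr)).differentiableAt.differentiableWithinAt)
      (fun r hr => ?_)
    have hr' := interior_subset hr
    rw [(hd r hr').deriv]
    refine mul_nonneg (h r hr') (Real.sin_nonneg_of_nonneg_of_le_pi ?_ ?_)
    · linarith [hr'.2]
    · linarith [hr'.1]
  have := hmono (left_mem_Icc.2 hst) (right_mem_Icc.2 hst) hst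
  simp only [sub_self, Real.sin_zero, Real.cos_zero, mul_zero, mul_one, zero_add] at this
  linarith

lemma step_bwd (hst : s ≤ t) (hπ : t - s ≤ Real.pi)
    (h1 : ∀ r ∈ Icc s t, HasDerivAt f (f1 r) r) (h2 : ∀ r ∈ Icc s t, HasDerivAt f1 (f2 r) r)
    (h : ∀ r ∈ Icc s t, 0 ≤ f2 r + f r) :
    f t * Real.cos (t - s) - f1 t * Real.sin (t - s) ≤ f s := by
  have hd : ∀ r ∈ Icc s t, HasDerivAt (fun r => f r * Real.cos (r - s) - f1 r * Real.sin (r - s))
      (-((f2 r + f r) * Real.sin (r - s))) r := by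
    intro r hr
    have a0 : HasDerivAt (fun r => r - s) 1 r := by
      simpa using (hasDerivAt_id r).sub_const s
    have a1 := (h2 r hr).mul (a0.sin)
    have a2 := (h1 r hr).mul (a0.cos)
    refine (a2.sub a1).congr_deriv ?_
    ring
  have hmono : AntitoneOn (fun r => f r * Real.cos (r - s) - f1 r * Real.sin (r - s)) (Icc s t) := by
    refine antitoneOn_of_deriv_nonpos (convex_Icc s t)
      (fun r hr => (hd r hr).continuousAt.continuousWithinAt)
      (fun r hr => (hd r (interior_subset hr)).differentiableAt.differentiableWithinAt)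
      (fun r hr => ?_)
    have hr' := interior_subset hr
    rw [(hd r hr').deriv]
    refine neg_nonpos.2 (mul_nonneg (h r hr') (Real.sin_nonneg_of_nonneg_of_le_pi ?_ ?_))
    · linarith [hr'.1]
    · linarith [hr'.2]
  have := hmono (left_mem_Icc.2 hst) (right_mem_Icc.2 hst) hst
  simp only [sub_self, Real.sin_zero, Real.cos_zero, mul_zero, mul_one, sub_zero] at this
  linarith

variable {C : ℝ}

lemma step_lower (hst : s ≤ t) (hπ : t - s ≤ Real.pi) (hC : 0 ≤ C)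
    (h1 : ∀ r ∈ Icc s t, HasDerivAt f (f1 r) r) (h2 : ∀ r ∈ Icc s t, HasDerivAt f1 (f2 r) r)
    (h : ∀ r ∈ Icc s t, -C ≤ f2 r + f r) :
    f s * Real.cos (t - s) + f1 s * Real.sin (t - s) - 2 * C ≤ f t := by
  have := step_fwd (f := fun r => f r + C) (f1 := f1) (f2 := f2) hst hπ
    (fun r hr => (h1 r hr).add_const C) h2 (fun r hr => by have := h r hr; linarith)
  have h3 := Real.neg_one_le_cos (t - s)
  nlinarith

lemma step_upper (hst : s ≤ t) (hπ : t - s ≤ Real.pi) (hC : 0 ≤ C)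
    (h1 : ∀ r ∈ Icc s t, HasDerivAt f (f1 r) r) (h2 : ∀ r ∈ Icc s t, HasDerivAt f1 (f2 r) r)
    (h : ∀ r ∈ Icc s t, f2 r + f r ≤ C) :
    f t ≤ f s * Real.cos (t - s) + f1 s * Real.sin (t - s) + 2 * C := by
  have := step_lower (f := fun r => -f r) (f1 := fun r => -f1 r) (f2 := fun r => -f2 r) hst hπ hC
    (fun r hr => (h1 r hr).fun_neg) (fun r hr => (h2 r hr).fun_neg)
    (fun r hr => by have := h r hr; linarith)
  linarith

lemma step_lower_b (hst : s ≤ t) (hπ : t - s ≤ Real.pi) (hC : 0 ≤ C)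
    (h1 : ∀ r ∈ Icc s t, HasDerivAt f (f1 r) r) (h2 : ∀ r ∈ Icc s t, HasDerivAt f1 (f2 r) r)
    (h : ∀ r ∈ Icc s t, -C ≤ f2 r + f r) :
    f t * Real.cos (t - s) - f1 t * Real.sin (t - s) - 2 * C ≤ f s := by
  have := step_bwd (f := fun r => f r + C) (f1 := f1) (f2 := f2) hst hπ
    (fun r hr => (h1 r hr).add_const C) h2 (fun r hr => by have := h r hr; linarith)
  have h3 := Real.neg_one_le_cos (t - s)
  nlinarith

lemma step_upper_b (hst : s ≤ t) (hπ : t - s ≤ Real.pi) (hC : 0 ≤ C)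
    (h1 : ∀ r ∈ Icc s t, HasDerivAt f (f1 r) r) (h2 : ∀ r ∈ Icc s t, HasDerivAt f1 (f2 r) r)
    (h : ∀ r ∈ Icc s t, f2 r + f r ≤ C) :
    f s ≤ f t * Real.cos (t - s) - f1 t * Real.sin (t - s) + 2 * C := by
  have := step_lower_b (f := fun r => -f r) (f1 := fun r => -f1 r) (f2 := fun r => -f2 r) hst hπ hC
    (fun r hr => (h1 r hr).fun_neg) (fun r hr => (h2 r hr).fun_neg)
    (fun r hr => by have := h r hr; linarith)
  linarith

end step

lemma sin_one_ge : 1 / 2 ≤ Real.sin 1 := by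
  have h1 : Real.sin (Real.pi / 6) = 1 / 2 := Real.sin_pi_div_six
  rw [← h1]
  have := Real.pi_gt_three
  have := Real.pi_lt_d2
  exact Real.sin_le_sin_of_le_of_le_pi_div_two (by linarith) (by linarith) (by linarith)

lemma cos_one_ge : 1 / 2 ≤ Real.cos 1 := by
  have h1 : Real.cos (Real.pi / 3) = 1 / 2 := Real.cos_pi_div_three
  rw [← h1]
  have := Real.pi_gt_three
  exact Real.cos_le_cos_of_nonneg_of_le_pi (by linarith) (by linarith) (by linarith)

lemma cos_three_le {t : ℝ} (h3 : 3 ≤ t) (hπ : t ≤ Real.pi) : Real.cos t ≤ -(1 / 2) := by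
  have h1 : Real.cos (Real.pi - Real.pi / 3) = -(1 / 2) := by
    rw [Real.cos_pi_sub, Real.cos_pi_div_three]
  rw [← h1]
  have := Real.pi_lt_d2
  exact Real.cos_le_cos_of_nonneg_of_le_pi (by linarith) hπ (by linarith)

lemma sin_quarter : 1 / 5 ≤ Real.sin (1 / 4) := by
  have := Real.sin_gt_sub_cube (x := 1 / 4) (by norm_num)
  norm_num at this ⊢
  linarith

/-- the auxiliary functions for long geodesics -/
def c0 (ω p t : ℝ) : ℝ := -1 + 16 * Real.sqrt (Real.sin (t - p) ^ 2 + ω ^ 2) + 2 * Real.cos (t - p)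

/-- derivative -/
def c1 (ω p t : ℝ) : ℝ := 16 * (Real.sin (t - p) * Real.cos (t - p)
  / Real.sqrt (Real.sin (t - p) ^ 2 + ω ^ 2)) - 2 * Real.sin (t - p)

/-- second derivative -/
def c2 (ω p t : ℝ) : ℝ := 1 + 16 * ((ω ^ 2 + ω ^ 4) / Real.sqrt (Real.sin (t - p) ^ 2 + ω ^ 2) ^ 3)
  - 2 - c0 ω p t

lemma c0_hasDerivAt {ω : ℝ} (hω : 0 < ω) (p t : ℝ) : HasDerivAt (c0 ω p) (c1 ω p t) t := by
  have a0 : HasDerivAt (fun r => r - p) 1 t := by
    simpa using (hasDerivAt_id t).sub_const p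
  have hG : 0 < Real.sin (t - p) ^ 2 + ω ^ 2 := by positivity
  have a1 : HasDerivAt (fun r => Real.sin (r - p) ^ 2 + ω ^ 2)
      (2 * Real.sin (t - p) * Real.cos (t - p)) t := by
    have := (a0.sin.pow 2).add_const (ω ^ 2)
    refine this.congr_deriv ?_
    ring
  have a2 := a1.sqrt hG.ne'
  have a3 := ((a2.const_mul 16).const_add (-1)).add ((a0.cos).const_mul 2)
  refine a3.congr_deriv ?_
  have hs : Real.sqrt (Real.sin (t - p) ^ 2 + ω ^ 2) ≠ 0 := (Real.sqrt_pos.2 hG).ne'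
  unfold c1
  field_simp
  ring

lemma c1_hasDerivAt {ω : ℝ} (hω : 0 < ω) (p t : ℝ) : HasDerivAt (c1 ω p) (c2 ω p t) t := by
  have a0 : HasDerivAt (fun r => r - p) 1 t := by
    simpa using (hasDerivAt_id t).sub_const p
  have hG : 0 < Real.sin (t - p) ^ 2 + ω ^ 2 := by positivity
  have a1 : HasDerivAt (fun r => Real.sin (r - p) ^ 2 + ω ^ 2)
      (2 * Real.sin (t - p) * Real.cos (t - p)) t := by
    have := (a0.sin.pow 2).add_const (ω ^ 2)
    refine this.congr_deriv ?_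
    ring
  have a2 := a1.sqrt hG.ne'
  have hs0 := Real.sqrt_pos.2 hG
  have a3 := (((a0.sin.fun_mul a0.cos).fun_div a2 hs0.ne').const_mul 16).sub (a0.sin.const_mul 2)
  refine a3.congr_deriv ?_
  unfold c2 c0
  have hsq := Real.sq_sqrt hG.le
  have hsc := Real.sin_sq_add_cos_sq (t - p)
  generalize Real.sqrt (Real.sin (t - p) ^ 2 + ω ^ 2) = r at *
  generalize Real.sin (t - p) = S at *
  generalize Real.cos (t - p) = K at *
  have hr := hs0.ne'
  have hK : K ^ 2 = 1 - S ^ 2 := by linarith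
  have hω2 : ω ^ 2 = r ^ 2 - S ^ 2 := by linarith
  have hω4 : ω ^ 4 = (r ^ 2 - S ^ 2) ^ 2 := by rw [← hω2]; ring
  rw [hω2, hω4]
  field_simp
  have e1 : K ^ 3 = K * (1 - S ^ 2) := by rw [← hK]; ring
  ring_nf
  simp only [hK]
  ring

lemma sin_ge_of_mem {ε x : ℝ} (hε : 0 ≤ ε) (h1 : ε ≤ x) (h2 : x ≤ Real.pi - ε) :
    Real.sin ε ≤ Real.sin x := by
  rcases le_total x (Real.pi / 2) with h | h
  · exact Real.sin_le_sin_of_le_of_le_pi_div_two (by linarith [Real.pi_pos]) h h1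
  · rw [← Real.sin_pi_sub x]
    exact Real.sin_le_sin_of_le_of_le_pi_div_two (by linarith [Real.pi_pos]) (by linarith)
      (by linarith)

lemma c0_props {ε : ℝ} (hε : 0 < ε) (hε1 : ε ≤ 1 / 100) :
    ∃ ω B : ℝ, 0 < ω ∧ 0 < B ∧ ∀ p t : ℝ, |t - p| ≤ Real.pi - 1 / 4 →
      0 < c0 ω p t ∧ c0 ω p t ≤ 30 ∧ c2 ω p t + c0 ω p t ≤ B ∧
        (ε ≤ |t - p| → c2 ω p t + c0 ω p t ≤ -(1 / 2)) := by
  have hpi := Real.pi_gt_three
  have hm0 : 0 < Real.sin ε := Real.sin_pos_of_pos_of_lt_pi hε (by linarith)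
  have hm1 : Real.sin ε ≤ 1 := Real.sin_le_one ε
  obtain ⟨m, hm⟩ : ∃ m, m = Real.sin ε := ⟨_, rfl⟩
  rw [← hm] at hm0 hm1
  obtain ⟨ω, hω⟩ : ∃ ω, ω = m ^ 2 / 10 := ⟨_, rfl⟩
  have hω0 : 0 < ω := by rw [hω]; positivity
  have hω1 : ω ≤ 1 / 10 := by rw [hω]; nlinarith
  have hω2 : ω ^ 2 + ω ^ 4 ≤ 2 * ω ^ 2 := by
    have h1 : ω ^ 2 ≤ 1 := by nlinarith
    have h2 : ω ^ 4 = ω ^ 2 * ω ^ 2 := by ring
    have h3 : ω ^ 2 * ω ^ 2 ≤ ω ^ 2 * 1 := mul_le_mul_of_nonneg_left h1 (sq_nonneg ω)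
    linarith
  refine ⟨ω, 32 / ω, hω0, by positivity, fun p t ht => ?_⟩
  have hsq : Real.sin (t - p) ^ 2 = Real.sin |t - p| ^ 2 := by
    rcases abs_cases (t - p) with ⟨h, _⟩ | ⟨h, _⟩
    · rw [h]
    · rw [h, Real.sin_neg, neg_sq]
  have hcos : Real.cos (t - p) = Real.cos |t - p| := (Real.cos_abs _).symm
  have hG : 0 < Real.sin (t - p) ^ 2 + ω ^ 2 := by positivity
  have hr0 := Real.sqrt_pos.2 hG
  have hrsq := Real.sq_sqrt hG.le
  have hrω : ω ≤ Real.sqrt (Real.sin (t - p) ^ 2 + ω ^ 2) :=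
    Real.le_sqrt_of_sq_le (by nlinarith [sq_nonneg (Real.sin (t - p))])
  have hrs : ∀ y, 0 ≤ y → y ≤ Real.sin |t - p| → y ≤ Real.sqrt (Real.sin (t - p) ^ 2 + ω ^ 2) := by
    intro y hy0 hy
    refine Real.le_sqrt_of_sq_le ?_
    rw [hsq]
    nlinarith [sq_nonneg ω]
  have e0 : c0 ω p t = -1 + 16 * Real.sqrt (Real.sin (t - p) ^ 2 + ω ^ 2)
      + 2 * Real.cos (t - p) := rfl
  have e1 : c2 ω p t + c0 ω p t = -1 + 16 * ((ω ^ 2 + ω ^ 4)
      / Real.sqrt (Real.sin (t - p) ^ 2 + ω ^ 2) ^ 3) := by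
    unfold c2; ring
  have hsin1 : Real.sin (t - p) ^ 2 ≤ 1 := Real.sin_sq_le_one _
  have habs := abs_nonneg (t - p)
  obtain ⟨r, hr⟩ : ∃ r, r = Real.sqrt (Real.sin (t - p) ^ 2 + ω ^ 2) := ⟨_, rfl⟩
  rw [← hr] at hr0 hrsq hrω hrs e0 e1
  refine ⟨?_, ?_, ?_, fun hτ => ?_⟩
  · rw [e0, hcos]
    rcases le_total |t - p| (Real.pi / 3) with h | h
    · have h1 : 1 / 2 ≤ Real.cos |t - p| := by
        rw [← Real.cos_pi_div_three]
        exact Real.cos_le_cos_of_nonneg_of_le_pi habs (by linarith) h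
      linarith
    · have h1 : 1 / 5 ≤ r := by
        refine hrs _ (by norm_num) (sin_quarter.trans ?_)
        exact sin_ge_of_mem (by norm_num) (by linarith) ht
      have h2 := Real.neg_one_le_cos |t - p|
      linarith
  · rw [e0]
    have h1 : r ≤ 11 / 10 := by nlinarith
    have h2 := Real.cos_le_one (t - p)
    linarith
  · rw [e1]
    have h1 : 16 * ((ω ^ 2 + ω ^ 4) / r ^ 3) ≤ 32 / ω := by
      have h2 : (ω ^ 2 + ω ^ 4) / r ^ 3 ≤ 2 * ω ^ 2 / ω ^ 3 := by gcongr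
      have h3 : 2 * ω ^ 2 / ω ^ 3 = 2 / ω := by field_simp
      rw [h3] at h2
      have h4 : 32 / ω = 16 * (2 / ω) := by ring
      rw [h4]; linarith
    linarith
  · rw [e1]
    have hmr : m ≤ r := by
      refine hrs _ hm0.le ?_
      rw [hm]
      exact sin_ge_of_mem hε.le hτ (by linarith)
    have h1 : 16 * ((ω ^ 2 + ω ^ 4) / r ^ 3) ≤ 1 / 2 := by
      have h2 : (ω ^ 2 + ω ^ 4) / r ^ 3 ≤ 2 * ω ^ 2 / m ^ 3 := by gcongr
      have h3 : 2 * ω ^ 2 / m ^ 3 = m / 50 := by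
        rw [hω]; field_simp; ring
      rw [h3] at h2
      linarith
    linarith

end

end Pool.Agent.Y495.SM
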