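import Pool.Agent.Y495.SM.Met
import Pool.Agent.Y495.SM.Ode
import Pool.Agent.Y495.SM.Net

/-!
The rescaled height along a geodesic.
-/

set_option autoImplicit false

namespace Pool.Agent.Y495.SM

open scoped ContDiff InnerProductSpace
open Set Metric

noncomputable section

variable {V : Type*} [NormedAddCommGroup V] [InnerProductSpace ℝ V]

lemma Z_ident {U ρ m p a c k δ : ℝ} (hU : U ≠ 0) (hS : U + ρ ≠ 0) (hδ : δ ≠ 0)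
    (hm : m = 2 * (U + ρ) - 1) :
    (-(4 * (U ^ 2 + (2 / U * (p - (c - δ * (k * p))) * p
        - U * (m - (a - δ * (k * m)))))) / (1 + m) ^ 2
      + 16 * p ^ 2 / (1 + m) ^ 3) / δ + (1 - m) / (1 + m) / δ
      = (1 / (U + ρ) ^ 2) * (ρ * (1 - ρ) - U * a - 2 * p ^ 2 * ρ / (U * (U + ρ))
          + 2 / U * (c * p) - 2 * δ / U * (k * p ^ 2)) / δ + U * m / (U + ρ) ^ 2 * k := by
  have h1 : 1 + m = 2 * (U + ρ) := by linarith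
  obtain ⟨S, hSd⟩ : ∃ S, S = U + ρ := ⟨_, rfl⟩
  have hρ : ρ = S - U := by linarith
  rw [← hSd] at hS h1 hm ⊢
  rw [h1, hρ]
  have e1 : (-(4 * (U ^ 2 + (2 / U * (p - (c - δ * (k * p))) * p
        - U * (m - (a - δ * (k * m)))))) / (2 * S) ^ 2
      + 16 * p ^ 2 / (2 * S) ^ 3)
      = (-(U ^ 2) - 2 * p ^ 2 / U + 2 / U * (c * p) - 2 * δ / U * (k * p ^ 2) + U * m - U * a
        + δ * (U * (k * m))) / S ^ 2 + 2 * p ^ 2 / S ^ 3 := by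
    field_simp
    ring
  have e2 : (1 - m) / (2 * S) = (1 - S) / S := by rw [hm]; field_simp; ring
  have e3 : 2 * p ^ 2 * (S - U) / (U * S) = 2 * p ^ 2 / U - 2 * p ^ 2 / S := by
    field_simp
  have e4 : (S - U) * (1 - (S - U)) = -(U ^ 2) + U * m + S * (1 - S) := by rw [hm]; ring
  rw [e1, e2, e3, e4, ← add_div]
  have e5 : 2 * p ^ 2 / S ^ 3 = (2 * p ^ 2 / S) / S ^ 2 := by field_simp
  have e6 : (1 - S) / S = (S * (1 - S)) / S ^ 2 := by field_simp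
  rw [e5, e6]
  generalize 2 * p ^ 2 / S = q1
  generalize 2 * p ^ 2 / U = q2
  generalize 2 / U * (c * p) = q3
  generalize 2 * δ / U * (k * p ^ 2) = q4
  field_simp
  ring

lemma Z_est {U ρ m p a c k δ Ck Y1 : ℝ} (hδ : 0 < δ) (hδ1 : δ ≤ 1 / 4) (hU : 0 < U)
    (hU1 : U ≤ 1) (hm0 : 0 ≤ m) (hm1 : m ≤ 1) (hp : |p| ≤ U) (hrho : 0 ≤ ρ)
    (hrho2 : ρ ≤ 2 * (δ ^ 2 * Y1)) (hrho8 : ρ ≤ 1 / 8) (hS : (1 + m) / 2 = U + ρ)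
    (hk0 : 0 ≤ k) (hk2 : k ≤ 2) (haa : |a| ≤ 2 * (δ ^ 2 * (Ck * Y1)))
    (hcc : |c| ≤ 2 * (δ ^ 2 * (Ck * U * Y1))) (hCk : 0 ≤ Ck) (hY : 1 ≤ Y1) :
    (1 / (U + ρ) ^ 2) * (ρ * (1 - ρ) - U * a - 2 * p ^ 2 * ρ / (U * (U + ρ))
          + 2 / U * (c * p) - 2 * δ / U * (k * p ^ 2)) / δ + U * m / (U + ρ) ^ 2 * k
        ≤ k + 8 * (δ * (Y1 * (1 + 3 * Ck))) ∧
    -(8 * (Y1 * (1 + 3 * Ck)) + 20) ≤
      (1 / (U + ρ) ^ 2) * (ρ * (1 - ρ) - U * a - 2 * p ^ 2 * ρ / (U * (U + ρ))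
          + 2 / U * (c * p) - 2 * δ / U * (k * p ^ 2)) / δ + U * m / (U + ρ) ^ 2 * k := by
  have hS0 : 0 < U + ρ := by linarith
  have hS1 : 1 / 2 ≤ U + ρ := by linarith
  have hSinv : 1 / (U + ρ) ^ 2 ≤ 4 := by
    rw [div_le_iff₀ (by positivity)]; nlinarith
  have hSinv0 : 0 ≤ 1 / (U + ρ) ^ 2 := by positivity
  have hUm : U * m / (U + ρ) ^ 2 ≤ 1 := by
    rw [div_le_one (by positivity)]
    have h1 : m ≤ U + ρ := by linarith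
    have h2 : U ≤ U + ρ := by linarith
    calc U * m ≤ (U + ρ) * (U + ρ) := mul_le_mul h2 h1 hm0 hS0.le
      _ = (U + ρ) ^ 2 := by ring
  have hUm0 : 0 ≤ U * m / (U + ρ) ^ 2 := by positivity
  have hp2 : p ^ 2 ≤ U ^ 2 := by rw [← sq_abs]; gcongr
  have hCY : 0 ≤ Ck * Y1 := by positivity
  have t1 : |U * a| ≤ 2 * (δ ^ 2 * (Ck * Y1)) := by
    rw [abs_mul, abs_of_pos hU]
    calc U * |a| ≤ 1 * (2 * (δ ^ 2 * (Ck * Y1))) := mul_le_mul hU1 haa (abs_nonneg _) (by norm_num)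
      _ = 2 * (δ ^ 2 * (Ck * Y1)) := by ring
  have t2 : |2 / U * (c * p)| ≤ 4 * (δ ^ 2 * (Ck * Y1)) := by
    rw [abs_mul, abs_mul, abs_of_pos (by positivity : 0 < 2 / U)]
    calc 2 / U * (|c| * |p|) ≤ 2 / U * ((2 * (δ ^ 2 * (Ck * U * Y1))) * U) := by gcongr
      _ = 4 * (δ ^ 2 * (Ck * Y1)) * U := by field_simp; ring
      _ ≤ 4 * (δ ^ 2 * (Ck * Y1)) * 1 := by gcongr
      _ = 4 * (δ ^ 2 * (Ck * Y1)) := by ring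
  have t3 : 0 ≤ 2 * δ / U * (k * p ^ 2) := by positivity
  have t3' : 2 * δ / U * (k * p ^ 2) ≤ 4 * δ := by
    calc 2 * δ / U * (k * p ^ 2) ≤ 2 * δ / U * (2 * U ^ 2) := by gcongr
      _ = 4 * δ * U := by field_simp; ring
      _ ≤ 4 * δ * 1 := by gcongr
      _ = 4 * δ := by ring
  have t4 : 0 ≤ 2 * p ^ 2 * ρ / (U * (U + ρ)) := by positivity
  have t4' : 2 * p ^ 2 * ρ / (U * (U + ρ)) ≤ 4 * (δ ^ 2 * Y1) := by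
    calc 2 * p ^ 2 * ρ / (U * (U + ρ)) ≤ 2 * U ^ 2 * ρ / (U * (U + ρ)) := by gcongr
      _ = 2 * ρ * (U / (U + ρ)) := by field_simp
      _ ≤ 2 * ρ * 1 := by
          gcongr
          rw [div_le_one hS0]; linarith
      _ ≤ 4 * (δ ^ 2 * Y1) := by linarith
  have t5 : 0 ≤ ρ * (1 - ρ) := mul_nonneg hrho (by linarith)
  have t5' : ρ * (1 - ρ) ≤ 2 * (δ ^ 2 * Y1) := by nlinarith
  obtain ⟨E, hE⟩ : ∃ E, E = ρ * (1 - ρ) - U * a - 2 * p ^ 2 * ρ / (U * (U + ρ))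
          + 2 / U * (c * p) - 2 * δ / U * (k * p ^ 2) := ⟨_, rfl⟩
  rw [← hE]
  have a1 := abs_le.1 t1
  have a2 := abs_le.1 t2
  have hE1 : E ≤ 2 * (δ ^ 2 * Y1) + 6 * (δ ^ 2 * (Ck * Y1)) := by rw [hE]; linarith [a1.1, a2.2]
  have hE2 : -(4 * (δ ^ 2 * Y1) + 6 * (δ ^ 2 * (Ck * Y1)) + 4 * δ) ≤ E := by
    rw [hE]; linarith [a1.2, a2.1]
  have hB : 0 ≤ 2 * (δ ^ 2 * Y1) + 6 * (δ ^ 2 * (Ck * Y1)) := by positivity
  have hB' : 0 ≤ 4 * (δ ^ 2 * Y1) + 6 * (δ ^ 2 * (Ck * Y1)) + 4 * δ := by positivity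
  have hF1 : 1 / (U + ρ) ^ 2 * E ≤ 4 * (2 * (δ ^ 2 * Y1) + 6 * (δ ^ 2 * (Ck * Y1))) :=
    (mul_le_mul_of_nonneg_left hE1 hSinv0).trans (mul_le_mul_of_nonneg_right hSinv hB)
  have hF2 : -(4 * (4 * (δ ^ 2 * Y1) + 6 * (δ ^ 2 * (Ck * Y1)) + 4 * δ)) ≤ 1 / (U + ρ) ^ 2 * E := by
    have h1 := mul_le_mul_of_nonneg_left hE2 hSinv0
    have h2 := mul_le_mul_of_nonneg_right hSinv hB'
    linarith
  have hG1 : 1 / (U + ρ) ^ 2 * E / δ ≤ 8 * (δ * (Y1 * (1 + 3 * Ck))) := by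
    rw [div_le_iff₀ hδ]
    have e : 4 * (2 * (δ ^ 2 * Y1) + 6 * (δ ^ 2 * (Ck * Y1)))
        = 8 * (δ * (Y1 * (1 + 3 * Ck))) * δ := by ring
    rw [← e]; exact hF1
  have hG2 : -(8 * (Y1 * (1 + 3 * Ck)) + 20) ≤ 1 / (U + ρ) ^ 2 * E / δ := by
    rw [le_div_iff₀ hδ]
    have h1 : δ ^ 2 * Y1 ≤ δ * Y1 := by nlinarith [mul_pos hδ (by linarith : 0 < Y1)]
    have h2 : δ ^ 2 * (Ck * Y1) ≤ δ * (Ck * Y1) / 4 := by nlinarith [mul_nonneg hδ.le hCY]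
    have h3 : δ ^ 2 * Y1 ≤ δ * Y1 / 4 := by nlinarith [mul_pos hδ (by linarith : 0 < Y1)]
    have h4 : 0 ≤ δ * (Ck * Y1) := by positivity
    have h5 : 0 ≤ δ * Y1 := by positivity
    have e : -(8 * (Y1 * (1 + 3 * Ck)) + 20) * δ
        = -(8 * (δ * Y1) + 24 * (δ * (Ck * Y1)) + 20 * δ) := by ring
    rw [e]
    linarith
  constructor
  · have : U * m / (U + ρ) ^ 2 * k ≤ 1 * k := mul_le_mul_of_nonneg_right hUm hk0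
    linarith
  · have : 0 ≤ U * m / (U + ρ) ^ 2 * k := by positivity
    linarith

/-- the rescaled height and its derivatives along a curve -/
def Z0 (δ : ℝ) (x : ℝ → V) (τ : ℝ) : ℝ := (1 - ‖x τ‖ ^ 2) / (1 + ‖x τ‖ ^ 2) / δ

/-- first derivative -/
def Z1 (δ : ℝ) (x v : ℝ → V) (τ : ℝ) : ℝ := -(4 * ⟪x τ, v τ⟫_ℝ) / (1 + ‖x τ‖ ^ 2) ^ 2 / δ

/-- second derivative -/
def Z2 (δ : ℝ) (x v w : ℝ → V) (τ : ℝ) : ℝ :=
  (-(4 * (‖v τ‖ ^ 2 + ⟪x τ, w τ⟫_ℝ)) / (1 + ‖x τ‖ ^ 2) ^ 2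
    + 16 * ⟪x τ, v τ⟫_ℝ ^ 2 / (1 + ‖x τ‖ ^ 2) ^ 3) / δ

section

variable {κ : V → ℝ} {χ X : ℝ → ℝ} {h η Y1 Ck b δ : ℝ} {x v w : ℝ → V} {s t : ℝ}

lemma Z0_d (hg : Geo (uu κ X b δ) x v w s t) {τ : ℝ} (hτ : τ ∈ Icc s t) :
    HasDerivAt (Z0 δ x) (Z1 δ x v τ) τ := by
  have h1 := (hg.d1 τ hτ).norm_sq
  have h2 := ((h1.const_sub 1).fun_div (h1.const_add 1) (by positivity)).div_const δ
  refine h2.congr_deriv ?_
  unfold Z1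
  have : (1 + ‖x τ‖ ^ 2) ≠ 0 := by positivity
  field_simp
  ring

lemma Z1_d (hg : Geo (uu κ X b δ) x v w s t) {τ : ℝ} (hτ : τ ∈ Icc s t) :
    HasDerivAt (Z1 δ x v) (Z2 δ x v w τ) τ := by
  have h1 := (hg.d1 τ hτ).norm_sq
  have h3 := (hg.d1 τ hτ).inner ℝ (hg.d2 τ hτ)
  have h4 : HasDerivAt (fun r => (1 + ‖x r‖ ^ 2) ^ 2)
      (2 * (1 + ‖x τ‖ ^ 2) * (2 * ⟪x τ, v τ⟫_ℝ)) τ := by
    refine ((h1.const_add 1).pow 2).congr_deriv ?_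
    norm_num
  have h2 := (((h3.const_mul 4).fun_neg).fun_div h4 (by positivity)).div_const δ
  refine h2.congr_deriv ?_
  unfold Z2
  have : (1 + ‖x τ‖ ^ 2) ≠ 0 := by positivity
  rw [real_inner_self_eq_norm_sq]
  field_simp
  ring

/-- the basic identity and estimates -/
lemma Z_bounds (P : Par κ χ X h η Y1 Ck b δ) (hg : Geo (uu κ X b δ) x v w s t) {τ : ℝ}
    (hτ : τ ∈ Icc s t) (hx : ‖x τ‖ ≤ 1) :
    Z2 δ x v w τ + Z0 δ x τ ≤ b * (κ (x τ) * χ (dep δ (x τ))) + 8 * (δ * (Y1 * (1 + 3 * Ck))) ∧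
    -(8 * (Y1 * (1 + 3 * Ck)) + 20) ≤ Z2 δ x v w τ + Z0 δ x τ := by
  have hδ := P.δ0
  have hδ1 := P.δ1
  have hU := uu_pos P (x τ)
  have hU4 := uu_ge P (x τ)
  have hm0 : 0 ≤ ‖x τ‖ ^ 2 := by positivity
  have hm1 : ‖x τ‖ ^ 2 ≤ 1 := by nlinarith [norm_nonneg (x τ)]
  have hUle := uu_le P (x τ)
  have hsp := hg.sp τ hτ
  have hp : |⟪x τ, v τ⟫_ℝ| ≤ uu κ X b δ (x τ) := by
    refine (abs_real_inner_le_norm _ _).trans ?_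
    rw [hsp]
    nlinarith [norm_nonneg (x τ)]
  have hxw : ⟪x τ, w τ⟫_ℝ = 2 / uu κ X b δ (x τ) * (⟪x τ, v τ⟫_ℝ - drho κ χ X b δ (x τ) (v τ))
      * ⟪x τ, v τ⟫_ℝ - uu κ X b δ (x τ) * (‖x τ‖ ^ 2 - drho κ χ X b δ (x τ) (x τ)) := by
    rw [real_inner_comm, hg.eq τ hτ (x τ), uu_fderiv P, uu_fderiv P, real_inner_comm (x τ) (v τ),
      real_inner_self_eq_norm_sq]
  have hrho := rho_nonneg P (x τ)
  have hrho2 := rho_le P (x τ)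
  have hrho8 := rho_small P (x τ)
  have hS : (1 + ‖x τ‖ ^ 2) / 2 = uu κ X b δ (x τ) + rho κ X b δ (x τ) := by
    unfold uu; ring
  have hCk := P.Ck0
  have hY := P.Y11
  have hχ0 := P.prof.χ0 (dep δ (x τ))
  have hχ1 := P.prof.χ1 (dep δ (x τ))
  have hκ0 := P.κ0 (x τ)
  have hκ1 := P.κ1 (x τ)
  have hX0 := P.prof.X0 (dep δ (x τ))
  have hX1 := P.prof.X1 (dep δ (x τ))
  have hb1 := P.b1
  have hb2 := P.b2
  -- names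
  obtain ⟨a, ha⟩ : ∃ a, a = b * (δ ^ 2 * (fderiv ℝ κ (x τ) (x τ) * X (dep δ (x τ)))) := ⟨_, rfl⟩
  obtain ⟨c, hc⟩ : ∃ c, c = b * (δ ^ 2 * (fderiv ℝ κ (x τ) (v τ) * X (dep δ (x τ)))) := ⟨_, rfl⟩
  obtain ⟨k, hk⟩ : ∃ k, k = b * (κ (x τ) * χ (dep δ (x τ))) := ⟨_, rfl⟩
  have hk0 : 0 ≤ k := by rw [hk]; positivity
  have hk2 : k ≤ 2 := by
    rw [hk]
    have : κ (x τ) * χ (dep δ (x τ)) ≤ 1 * 1 := mul_le_mul hκ1 hχ1 hχ0 (by norm_num)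
    have h2 : b * (κ (x τ) * χ (dep δ (x τ))) ≤ 2 * (1 * 1) :=
      mul_le_mul hb2 this (by positivity) (by norm_num)
    linarith
  have hrx : drho κ χ X b δ (x τ) (x τ) = a - δ * (k * ‖x τ‖ ^ 2) := by
    unfold drho; rw [ha, hk, real_inner_self_eq_norm_sq]; ring
  have hrv : drho κ χ X b δ (x τ) (v τ) = c - δ * (k * ⟪x τ, v τ⟫_ℝ) := by
    unfold drho; rw [hc, hk]; ring
  have hgen : ∀ z : V, ‖z‖ ≤ 1 → ∀ r : ℝ, ‖z‖ ≤ r →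
      |b * (δ ^ 2 * (fderiv ℝ κ (x τ) z * X (dep δ (x τ))))| ≤ 2 * (δ ^ 2 * (Ck * r * Y1)) := by
    intro z hz r hr
    rw [abs_mul, abs_mul, abs_mul, abs_of_nonneg (by linarith : (0 : ℝ) ≤ b),
      abs_of_nonneg (sq_nonneg δ), abs_of_nonneg hX0]
    have h1 := P.κd (x τ) hx z
    have h2 : |fderiv ℝ κ (x τ) z| ≤ Ck * r := h1.trans (by gcongr)
    have h3 : 0 ≤ r := (norm_nonneg z).trans hr
    gcongr
  have hU1 : uu κ X b δ (x τ) ≤ 1 := by linarith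
  have haa : |a| ≤ 2 * (δ ^ 2 * (Ck * Y1)) := by
    have := hgen _ hx 1 hx
    rw [mul_one] at this
    rw [ha]; exact this
  have hcc : |c| ≤ 2 * (δ ^ 2 * (Ck * uu κ X b δ (x τ) * Y1)) := by
    rw [hc]; exact hgen _ (by rw [hsp]; exact hU1) _ hsp.le
  rw [hrx, hrv] at hxw
  unfold Z2 Z0
  have hS0 : uu κ X b δ (x τ) + rho κ X b δ (x τ) ≠ 0 := by linarith
  rw [hxw, hsp, Z_ident hU.ne' hS0 hδ.ne' (by linarith), ← hk]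
  exact Z_est hδ hδ1 hU hU1 hm0 hm1 hp hrho hrho2 hrho8 hS hk0 hk2 haa hcc hCk hY

end

end

end Pool.Agent.Y495.SM
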