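import Pool.Agent.Y495.SM.Conf
import Pool.Agent.Y495.SM.Traj

/-!
The boundary is strictly convex; the geodesic net excludes strictly convex functions.
-/

set_option autoImplicit false

namespace Pool.Agent.Y495.SM

open scoped ContDiff InnerProductSpace
open Set Metric

noncomputable section

section

variable {n : ℕ} {κ : E n → ℝ} {χ X : ℝ → ℝ} {h η Y1 Ck b δ : ℝ}

/-- the Riesz gradient -/
def grad (u : E n → ℝ) (x : E n) : E n := (InnerProductSpace.toDual ℝ (E n)).symm (fderiv ℝ u x)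

lemma inner_grad (u : E n → ℝ) (x z : E n) : ⟪grad u x, z⟫_ℝ = fderiv ℝ u x z := by
  unfold grad
  rw [InnerProductSpace.toDual_symm_apply]

lemma fderiv_normsq (x : E n) : fderiv ℝ (fun z : E n => ‖z‖ ^ 2) x = 2 • innerSL ℝ x :=
  (hasStrictFDerivAt_norm_sq x).hasFDerivAt.fderiv

lemma fderiv2_normsq (x v : E n) :
    fderiv ℝ (fderiv ℝ (fun z : E n => ‖z‖ ^ 2)) x v v = 2 * ‖v‖ ^ 2 := by
  have h1 : fderiv ℝ (fun z : E n => ‖z‖ ^ 2) = fun z => (2 : ℕ) • innerSL ℝ z := by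
    funext z; exact fderiv_normsq z
  rw [h1]
  have h2 : HasFDerivAt (fun z : E n => (2 : ℕ) • innerSL ℝ z) ((2 : ℕ) • (innerSL ℝ : E n →L[ℝ] _)) x :=
    ((innerSL ℝ : E n →L[ℝ] _).hasFDerivAt).const_smul 2
  rw [h2.fderiv]
  have h3 : innerSL ℝ v v = ‖v‖ ^ 2 := real_inner_self_eq_norm_sq v
  simp [h3]

/-- **The boundary is strictly convex.** -/
lemma convex_bd (P : Par κ χ X h η Y1 Ck b δ) :
    ConvexBoundary (mt (uu κ X b δ)) (Real.sqrt (1 - 2 * δ)) := by
  intro x hx v hv hxv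
  have hδ := P.δ0
  have hδ1 := P.δ1
  have hx2 : ‖x‖ ^ 2 = 1 - 2 * δ := by
    rw [hx, Real.sq_sqrt (by linarith)]
  have hdep : dep δ x = 0 := by
    unfold dep
    rw [hx2]
    have : (1 - (1 - 2 * δ)) / 2 - δ = 0 := by ring
    rw [this, zero_div]
  have hX : X (dep δ x) = 0 := by rw [hdep]; exact P.prof.Xlow 0 (by linarith [P.h0])
  have hχ : χ (dep δ x) = 0 := by rw [hdep]; exact P.prof.low 0 (by linarith [P.h0])
  have hdr : ∀ z, drho κ χ X b δ x z = 0 := by
    intro z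
    unfold drho
    rw [hX, hχ]
    ring
  have hU : uu κ X b δ x = (1 + ‖x‖ ^ 2) / 2 := by
    unfold uu rho
    rw [hX]
    ring
  have hU0 := uu_pos P x
  rw [hess_mt (uu_smooth P) (uu_pos P) (contDiff_norm_sq ℝ).contDiffAt v
    (grad (uu κ X b δ) x) (inner_grad _ _), fderiv2_normsq, fderiv_normsq]
  have h1 : ((2 : ℕ) • innerSL ℝ x) v = 2 * ⟪x, v⟫_ℝ := by simp
  have h2 : ((2 : ℕ) • innerSL ℝ x) (grad (uu κ X b δ) x) = 2 * ‖x‖ ^ 2 := by
    have : ((2 : ℕ) • innerSL ℝ x) (grad (uu κ X b δ) x) = 2 * ⟪x, grad (uu κ X b δ) x⟫_ℝ := by simp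
    rw [this, real_inner_comm, inner_grad, uu_fderiv P, hdr, real_inner_self_eq_norm_sq, sub_zero]
  rw [h1, h2, hxv]
  have hv2 : 0 < ‖v‖ ^ 2 := by positivity
  have e : 2 * ‖v‖ ^ 2 + (2 * fderiv ℝ (uu κ X b δ) x v * (2 * 0) - ‖v‖ ^ 2 * (2 * ‖x‖ ^ 2))
      / uu κ X b δ x = 2 * ‖v‖ ^ 2 * (uu κ X b δ x - ‖x‖ ^ 2) / uu κ X b δ x := by
    field_simp
    ring
  rw [e]
  apply div_pos _ hU0
  apply mul_pos (by positivity)
  rw [hU, hx2]
  linarith

/-- the radius of the net -/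
lemma exists_rad (P : Par κ χ X h η Y1 Ck b δ) (hh : h ≤ 1) (hb : 1 + h ≤ b * (1 - 2 * δ * (1 + h))) :
    ∃ Y : ℝ, h / 2 < Y ∧ Y ≤ 1 ∧
      1 + Y = b * (χ Y * (1 - 2 * δ * (1 + Y))) + δ * (b * X Y) := by
  have hδ := P.δ0
  have hh0 := P.h0
  have hcX : Continuous X := P.prof.smooth.continuous
  have hcχ : Continuous χ := P.prof.χsmooth.continuous
  have hcont : ContinuousOn (fun Y => b * (χ Y * (1 - 2 * δ * (1 + Y))) + δ * (b * X Y) - (1 + Y))
      (Icc (h / 2) h) := by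
    apply Continuous.continuousOn
    fun_prop
  have h1 : b * (χ (h / 2) * (1 - 2 * δ * (1 + h / 2))) + δ * (b * X (h / 2)) - (1 + h / 2) < 0 := by
    rw [P.prof.low _ le_rfl, P.prof.Xlow _ le_rfl]
    linarith
  have h2 : 0 ≤ b * (χ h * (1 - 2 * δ * (1 + h))) + δ * (b * X h) - (1 + h) := by
    rw [P.prof.top, one_mul]
    have : 0 ≤ δ * (b * X h) := mul_nonneg hδ.le (mul_nonneg (by linarith [P.b1]) (P.prof.X0 h))
    linarith
  obtain ⟨Y, hY, hY0⟩ := intermediate_value_Icc (by linarith : h / 2 ≤ h) hcont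
    (show (0 : ℝ) ∈ Icc _ _ from ⟨h1.le, h2⟩)
  simp only at hY0
  refine ⟨Y, lt_of_le_of_ne hY.1 ?_, by linarith [hY.2], by linarith⟩
  rintro rfl
  linarith

/-- the data of the radius of the net -/
structure Rad (χ X : ℝ → ℝ) (b δ r Y : ℝ) : Prop where
  r0 : 0 < r
  rr : r ^ 2 = 1 - 2 * δ * (1 + Y)
  eq : 1 + Y = b * (χ Y * (1 - 2 * δ * (1 + Y))) + δ * (b * X Y)

/-- near the net the gradient of `u` is radial -/
lemma arc_grad (P : Par κ χ X h η Y1 Ck b δ) {r Y : ℝ} (hr : Rad χ X b δ r Y)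
    {c : E n} (hc : ‖c‖ = r) (hκ : κ =ᶠ[nhds c] fun _ => 1) (z : E n) :
    fderiv ℝ (uu κ X b δ) c z = uu κ X b δ c / r ^ 2 * ⟪c, z⟫_ℝ := by
  have hδ := P.δ0
  have hκ1 : κ c = 1 := hκ.self_of_nhds
  have hκ2 : fderiv ℝ κ c = 0 := by
    rw [hκ.fderiv_eq]
    simp
  have hdep : dep δ c = Y := by
    unfold dep
    rw [hc, hr.rr]
    field_simp
    ring
  have hr2 : 0 < r ^ 2 := pow_pos hr.r0 2
  rw [uu_fderiv P]
  have hU : uu κ X b δ c = r ^ 2 * (1 + b * (δ * χ Y)) := by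
    unfold uu rho
    rw [hdep, hκ1, hc]
    have h1 := hr.eq
    have h2 := hr.rr
    rw [h2]
    linear_combination (δ : ℝ) * h1
  rw [hU]
  unfold drho
  rw [hdep, hκ1, hκ2]
  have hrne := hr.r0.ne'
  have h0 : (0 : E n →L[ℝ] ℝ) z = 0 := rfl
  rw [h0]
  field_simp
  ring

lemma du_deriv_at {f : E n → ℝ} {x v : ℝ → E n} {w : E n} {τ : ℝ} (hf : ContDiffAt ℝ 2 f (x τ))
    (hx : HasDerivAt x (v τ) τ) (hv : HasDerivAt v w τ) :
    HasDerivAt (fun r => fderiv ℝ f (x r) (v r))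
      (fderiv ℝ (fderiv ℝ f) (x τ) (v τ) (v τ) + fderiv ℝ f (x τ) w) τ := by
  have h1 : HasFDerivAt (fderiv ℝ f) (fderiv ℝ (fderiv ℝ f) (x τ)) (x τ) :=
    ((hf.fderiv_right (m := 1) (by norm_num)).differentiableAt (by simp)).hasFDerivAt
  have h2 := h1.comp_hasDerivAt τ hx
  exact h2.clm_apply hv

/-- A strictly convex function is strictly convex along an edge of the net. -/
lemma arc_lt (P : Par κ χ X h η Y1 Ck b δ) {r Y R α : ℝ} (hr : Rad χ X b δ r Y) (hrR : r < R)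
    {f : E n → ℝ} (hf : ContDiffOn ℝ 2 f (ball 0 R))
    (hconv : ∀ x ∈ ball (0 : E n) R, ∀ v, v ≠ 0 → 0 < hess (mt (uu κ X b δ)) f x v)
    {m d : E n} (hm : ‖m‖ = 1) (hd : ‖d‖ = 1) (hmd : ⟪m, d⟫_ℝ = 0) (hα : 0 < α)
    (hκ : ∀ t ∈ Icc (-α) α, κ =ᶠ[nhds (r • (Real.cos t • m + Real.sin t • d))] fun _ => 1) :
    fderiv ℝ f (r • (Real.cos α • m - Real.sin α • d)) (r • (Real.sin α • m + Real.cos α • d))
      < fderiv ℝ f (r • (Real.cos α • m + Real.sin α • d))
        (r • (-(Real.sin α • m) + Real.cos α • d)) := by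
  have hr0 := hr.r0
  set c : ℝ → E n := fun t => r • (Real.cos t • m + Real.sin t • d) with hc
  set c' : ℝ → E n := fun t => r • (-(Real.sin t • m) + Real.cos t • d) with hc'
  have hdc : ∀ t, HasDerivAt c (c' t) t := by
    intro t
    have := (((Real.hasDerivAt_cos t).smul_const m).add
      ((Real.hasDerivAt_sin t).smul_const d)).const_smul r
    refine this.congr_deriv ?_
    simp only [hc', neg_smul]
  have hdc' : ∀ t, HasDerivAt c' (-c t) t := by
    intro t
    have := ((((Real.hasDerivAt_sin t).smul_const m).neg).add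
      ((Real.hasDerivAt_cos t).smul_const d)).const_smul r
    refine this.congr_deriv ?_
    simp only [hc, neg_smul, smul_add, smul_neg]
    abel
  have hns : ∀ p q : ℝ, ‖p • m + q • d‖ ^ 2 = p ^ 2 + q ^ 2 := by
    intro p q
    rw [norm_add_sq_real, inner_smul_left, inner_smul_right, hmd]
    simp only [norm_smul, mul_pow, Real.norm_eq_abs, sq_abs, hm, hd]
    simp
  have hcn : ∀ t, ‖c t‖ = r := by
    intro t
    have h1 : ‖c t‖ ^ 2 = r ^ 2 := by
      simp only [hc, norm_smul, mul_pow, Real.norm_eq_abs, sq_abs, hns]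
      rw [add_comm, Real.sin_sq_add_cos_sq, mul_one]
    have h2 := norm_nonneg (c t)
    nlinarith
  have hcn' : ∀ t, ‖c' t‖ ^ 2 = r ^ 2 := by
    intro t
    have e : c' t = r • ((-Real.sin t) • m + Real.cos t • d) := by
      simp only [hc', neg_smul]
    rw [e, norm_smul, mul_pow, Real.norm_eq_abs, sq_abs, hns, neg_sq, Real.sin_sq_add_cos_sq,
      mul_one]
  have hcc : ∀ t, ⟪c t, c' t⟫_ℝ = 0 := by
    intro t
    simp only [hc, hc', inner_smul_left, inner_smul_right, inner_add_left, inner_add_right,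
      inner_neg_right, hmd, real_inner_comm m d, real_inner_self_eq_norm_sq, hm, hd, conj_trivial]
    ring
  have hball : ∀ t, c t ∈ ball (0 : E n) R := by
    intro t
    rw [mem_ball_zero_iff, hcn]
    exact hrR
  have hfat : ∀ t, ContDiffAt ℝ 2 f (c t) := fun t => hf.contDiffAt (isOpen_ball.mem_nhds (hball t))
  have hF : ∀ t, HasDerivAt (fun t => fderiv ℝ f (c t) (c' t))
      (fderiv ℝ (fderiv ℝ f) (c t) (c' t) (c' t) + fderiv ℝ f (c t) (-c t)) t := fun t =>
    du_deriv_at (hfat t) (hdc t) (hdc' t)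
  have hpos : ∀ t ∈ Icc (-α) α, 0 < fderiv ℝ (fderiv ℝ f) (c t) (c' t) (c' t)
      + fderiv ℝ f (c t) (-c t) := by
    intro t ht
    have hne : c' t ≠ 0 := by
      intro h0
      have := hcn' t
      rw [h0, norm_zero] at this
      have h2 : 0 < r ^ 2 := pow_pos hr0 2
      linarith
    have h1 := hconv (c t) (hball t) (c' t) hne
    rw [hess_mt (uu_smooth P) (uu_pos P) (hfat t) (c' t) (grad (uu κ X b δ) (c t))
      (inner_grad _ _)] at h1
    have hg : grad (uu κ X b δ) (c t) = (uu κ X b δ (c t) / r ^ 2) • c t := by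
      refine ext_inner_right ℝ fun z => ?_
      rw [inner_grad, inner_smul_left, arc_grad P hr (hcn t) (hκ t ht)]
      simp
    have hz : fderiv ℝ (uu κ X b δ) (c t) (c' t) = 0 := by
      rw [arc_grad P hr (hcn t) (hκ t ht), hcc, mul_zero]
    have e0 : fderiv ℝ f (c t) ((uu κ X b δ (c t) / r ^ 2) • c t)
        = uu κ X b δ (c t) / r ^ 2 * fderiv ℝ f (c t) (c t) := by
      rw [map_smul, smul_eq_mul]
    rw [hg, hz, hcn', e0] at h1
    have hU := (uu_pos P (c t)).ne'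
    have hr2 : r ^ 2 ≠ 0 := (pow_pos hr0 2).ne'
    have e : (2 * 0 * fderiv ℝ f (c t) (c' t) - r ^ 2 * (uu κ X b δ (c t) / r ^ 2
        * fderiv ℝ f (c t) (c t))) / uu κ X b δ (c t) = fderiv ℝ f (c t) (-c t) := by
      rw [map_neg]
      field_simp
      ring
    rw [e] at h1
    exact h1
  have hmono : StrictMonoOn (fun t => fderiv ℝ f (c t) (c' t)) (Icc (-α) α) := by
    refine strictMonoOn_of_deriv_pos (convex_Icc _ _)
      (fun t ht => (hF t).continuousAt.continuousWithinAt) (fun t ht => ?_)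
    rw [(hF t).deriv]
    exact hpos t (interior_subset ht)
  have := hmono (left_mem_Icc.2 (by linarith)) (right_mem_Icc.2 (by linarith))
    (by linarith : -α < α)
  simp only [hc, hc', Real.cos_neg, Real.sin_neg, neg_smul, neg_neg] at this
  simpa only [sub_eq_add_neg] using this

lemma net_coords {e : Fin 3 → E n} (he : Orthonormal ℝ e) {p q r : ℝ}
    (h1 : p ^ 2 + q ^ 2 + r ^ 2 = 1) (hN : NetR (Real.sqrt 3 / 3) p q r) :
    p • e 0 + q • e 1 + r • e 2 ∈ Net e := by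
  have n0 := he.1 0
  have n1 := he.1 1
  have n2 := he.1 2
  have o01 : ⟪e 0, e 1⟫_ℝ = 0 := he.2 (by decide)
  have o02 : ⟪e 0, e 2⟫_ℝ = 0 := he.2 (by decide)
  have o12 : ⟪e 1, e 2⟫_ℝ = 0 := he.2 (by decide)
  have o10 : ⟪e 1, e 0⟫_ℝ = 0 := he.2 (by decide)
  have o20 : ⟪e 2, e 0⟫_ℝ = 0 := he.2 (by decide)
  have o21 : ⟪e 2, e 1⟫_ℝ = 0 := he.2 (by decide)
  have i0 : ⟪e 0, p • e 0 + q • e 1 + r • e 2⟫_ℝ = p := by
    simp only [inner_add_right, inner_smul_right, real_inner_self_eq_norm_sq, n0, o01, o02]; ring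
  have i1 : ⟪e 1, p • e 0 + q • e 1 + r • e 2⟫_ℝ = q := by
    simp only [inner_add_right, inner_smul_right, real_inner_self_eq_norm_sq, n1, o10, o12]; ring
  have i2 : ⟪e 2, p • e 0 + q • e 1 + r • e 2⟫_ℝ = r := by
    simp only [inner_add_right, inner_smul_right, real_inner_self_eq_norm_sq, n2, o20, o21]; ring
  have hn : ‖p • e 0 + q • e 1 + r • e 2‖ ^ 2 = 1 := by
    rw [← real_inner_self_eq_norm_sq]
    conv_lhs => rw [inner_add_left, inner_add_left, inner_smul_left, inner_smul_left,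
      inner_smul_left, i0, i1, i2]
    simp only [conj_trivial]
    linarith
  refine ⟨?_, ?_, ?_⟩
  · have := norm_nonneg (p • e 0 + q • e 1 + r • e 2)
    nlinarith
  · rw [i0, i1, i2]; exact h1
  · rw [i0, i1, i2]; exact hN

/-- **No strictly convex function.** -/
theorem no_convex (P : Par κ χ X h η Y1 Ck b δ) {r Y R ε : ℝ} (hr : Rad χ X b δ r Y)
    (hrR : r < R) (hr1 : r ≤ 1) (hrε : 1 - r < ε) {e : Fin 3 → E n} (he : Orthonormal ℝ e)
    (hκ : ∀ x, infDist x (Net e) ≤ ε → κ x = 1)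
    {f : E n → ℝ} (hf : ContDiffOn ℝ 2 f (ball 0 R)) :
    ∃ x ∈ ball (0 : E n) R, ∃ v, v ≠ 0 ∧ hess (mt (uu κ X b δ)) f x v ≤ 0 := by
  by_contra hcon
  push Not at hcon
  -- the angle
  obtain ⟨k, hk⟩ : ∃ k, k = Real.sqrt 3 / 3 := ⟨_, rfl⟩
  have h3 := Real.sq_sqrt (show (0 : ℝ) ≤ 3 by norm_num)
  have h30 := Real.sqrt_pos.2 (show (0 : ℝ) < 3 by norm_num)
  have hk2 : k ^ 2 = 1 / 3 := by rw [hk, div_pow, h3]; norm_num
  have hk0 : 0 < k := by rw [hk]; positivity
  have hk1 : k ≤ 1 := by nlinarith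
  set α := Real.arccos k with hα
  have hcosα : Real.cos α = k := Real.cos_arccos (by linarith) hk1
  have hα0 : 0 < α := by rw [hα, Real.arccos_pos]; nlinarith
  have hαπ : α ≤ Real.pi := Real.arccos_le_pi k
  obtain ⟨S, hS⟩ : ∃ S, S = Real.sin α := ⟨_, rfl⟩
  have hS0 : 0 < S := by
    rw [hS, hα, Real.sin_arccos]
    apply Real.sqrt_pos.2
    nlinarith
  have hS2 : S ^ 2 = 2 / 3 := by
    have := Real.sin_sq_add_cos_sq α
    rw [← hS, hcosα, hk2] at this
    linarith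
  obtain ⟨q, hq⟩ : ∃ q, q = Real.sqrt 2 / 2 := ⟨_, rfl⟩
  have h2 := Real.sq_sqrt (show (0 : ℝ) ≤ 2 by norm_num)
  have h20 := Real.sqrt_pos.2 (show (0 : ℝ) < 2 by norm_num)
  have hq2 : q ^ 2 = 1 / 2 := by rw [hq, div_pow, h2]; norm_num
  have hq0 : 0 < q := by rw [hq]; positivity
  have hSq : S * q = k := by
    have h1 : (S * q) ^ 2 = k ^ 2 := by rw [mul_pow, hS2, hq2, hk2]; norm_num
    have h2 : 0 < S * q := mul_pos hS0 hq0
    nlinarith
  have hkq : k * q = S / 2 := by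
    rw [← hSq]
    calc S * q * q = S * q ^ 2 := by ring
      _ = S / 2 := by rw [hq2]; ring
  have hcost : ∀ t ∈ Icc (-α) α, Real.sqrt 3 / 3 ≤ Real.cos t := by
    intro t ht
    rw [← hk, ← hcosα, ← Real.cos_abs t]
    exact Real.cos_le_cos_of_nonneg_of_le_pi (abs_nonneg t) hαπ (abs_le.2 ht)
  have n0 := he.1 0
  have n1 := he.1 1
  have n2 := he.1 2
  have o01 : ⟪e 0, e 1⟫_ℝ = 0 := he.2 (by decide)
  have o02 : ⟪e 0, e 2⟫_ℝ = 0 := he.2 (by decide)
  have o12 : ⟪e 1, e 2⟫_ℝ = 0 := he.2 (by decide)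
  have o10 : ⟪e 1, e 0⟫_ℝ = 0 := he.2 (by decide)
  have o20 : ⟪e 2, e 0⟫_ℝ = 0 := he.2 (by decide)
  have o21 : ⟪e 2, e 1⟫_ℝ = 0 := he.2 (by decide)
  have hr0 := hr.r0
  -- the general edge
  have key : ∀ m a c : E n, ‖m‖ = 1 → ‖a‖ = 1 → ‖c‖ = 1 → ⟪m, a⟫_ℝ = 0 → ⟪m, c⟫_ℝ = 0 →
      ⟪a, c⟫_ℝ = 0 →
      (∀ C D : ℝ, C ^ 2 + 2 * D ^ 2 = 1 → Real.sqrt 3 / 3 ≤ C →
        C • m + D • (a + c) ∈ Net e) →
      2 * fderiv ℝ f ((r * k) • (m - a - c)) m + fderiv ℝ f ((r * k) • (m - a - c)) a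
        + fderiv ℝ f ((r * k) • (m - a - c)) c
      < -(2 * fderiv ℝ f ((r * k) • (m + a + c)) m) + fderiv ℝ f ((r * k) • (m + a + c)) a
        + fderiv ℝ f ((r * k) • (m + a + c)) c := by
    intro m a c hm ha hc hma hmc hac hnet
    have hd : ‖q • (a + c)‖ = 1 := by
      have h1 : ‖q • (a + c)‖ ^ 2 = 1 := by
        rw [norm_smul, mul_pow, Real.norm_eq_abs, sq_abs, norm_add_sq_real, hac, ha, hc, hq2]
        norm_num
      have h2 := norm_nonneg (q • (a + c))
      nlinarith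
    have hmd : ⟪m, q • (a + c)⟫_ℝ = 0 := by
      rw [inner_smul_right, inner_add_right, hma, hmc]; simp
    have hκ' : ∀ t ∈ Icc (-α) α,
        κ =ᶠ[nhds (r • (Real.cos t • m + Real.sin t • q • (a + c)))] fun _ => 1 := by
      intro t ht
      have hmem : Real.cos t • m + (Real.sin t * q) • (a + c) ∈ Net e := by
        refine hnet _ _ ?_ (hcost t ht)
        rw [mul_pow, hq2]
        have := Real.sin_sq_add_cos_sq t
        linarith
      rw [← smul_smul] at hmem
      have hnorm : ‖Real.cos t • m + Real.sin t • q • (a + c)‖ = 1 := hmem.1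
      have hlt : infDist (r • (Real.cos t • m + Real.sin t • q • (a + c))) (Net e) < ε := by
        refine lt_of_le_of_lt (infDist_le_dist_of_mem hmem) ?_
        rw [dist_eq_norm]
        have e1 : r • (Real.cos t • m + Real.sin t • q • (a + c))
            - (Real.cos t • m + Real.sin t • q • (a + c))
            = (r - 1) • (Real.cos t • m + Real.sin t • q • (a + c)) := by
          rw [sub_smul, one_smul]
        rw [e1, norm_smul, hnorm, mul_one, Real.norm_eq_abs, abs_sub_comm,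
          abs_of_nonneg (by linarith)]
        exact hrε
      have hopen : IsOpen {y : E n | infDist y (Net e) < ε} :=
        isOpen_lt (continuous_infDist_pt _) continuous_const
      filter_upwards [hopen.mem_nhds hlt] with y hy
      exact hκ y (le_of_lt hy)
    have h1 := arc_lt P hr hrR hf hcon hm hd hmd hα0 hκ'
    rw [hcosα, ← hS] at h1
    have e1 : r • (k • m - S • q • (a + c)) = (r * k) • (m - a - c) := by
      rw [smul_smul S, hSq]
      module
    have e2 : r • (k • m + S • q • (a + c)) = (r * k) • (m + a + c) := by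
      rw [smul_smul S, hSq]
      module
    have e3 : r • (S • m + k • q • (a + c)) = (r * S / 2) • ((2 : ℝ) • m + a + c) := by
      rw [smul_smul k, hkq]
      module
    have e4 : r • (-(S • m) + k • q • (a + c)) = (r * S / 2) • (-((2 : ℝ) • m) + a + c) := by
      rw [smul_smul k, hkq]
      module
    rw [e1, e2, e3, e4] at h1
    simp only [map_smul, map_add, map_neg, smul_eq_mul] at h1
    have hpos : 0 < r * S / 2 := by positivity
    exact lt_of_mul_lt_mul_left h1 hpos.le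
  -- the six edges
  have g1 := key (e 0) (e 1) (e 2) n0 n1 n2 o01 o02 o12 (fun C D h1 h2 => by
    have := net_coords he (p := C) (q := D) (r := D) (by linarith) (Or.inl ⟨rfl, h2⟩)
    convert this using 1
    module)
  have g2 := key (e 1) (e 2) (e 0) n1 n2 n0 o12 o10 o20 (fun C D h1 h2 => by
    have := net_coords he (p := D) (q := C) (r := D) (by linarith)
      (Or.inr (Or.inr (Or.inl ⟨rfl, h2⟩)))
    convert this using 1
    module)
  have g3 := key (e 2) (e 0) (e 1) n2 n0 n1 o20 o21 o01 (fun C D h1 h2 => by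
    have := net_coords he (p := D) (q := D) (r := C) (by linarith)
      (Or.inr (Or.inr (Or.inr (Or.inr (Or.inl ⟨rfl, h2⟩)))))
    convert this using 1
    module)
  have g4 := key (-e 0) (e 1) (-e 2) (by rw [norm_neg, n0]) n1 (by rw [norm_neg, n2])
    (by rw [inner_neg_left, o01, neg_zero]) (by rw [inner_neg_neg, o02])
    (by rw [inner_neg_right, o12, neg_zero]) (fun C D h1 h2 => by
    have := net_coords he (p := -C) (q := D) (r := -D) (by linarith [neg_sq C, neg_sq D])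
      (Or.inr (Or.inl ⟨by ring, by linarith⟩))
    convert this using 1
    module)
  have g5 := key (-e 1) (e 2) (-e 0) (by rw [norm_neg, n1]) n2 (by rw [norm_neg, n0])
    (by rw [inner_neg_left, o12, neg_zero]) (by rw [inner_neg_neg, o10])
    (by rw [inner_neg_right, o20, neg_zero]) (fun C D h1 h2 => by
    have := net_coords he (p := -D) (q := -C) (r := D) (by linarith [neg_sq C, neg_sq D])
      (Or.inr (Or.inr (Or.inr (Or.inl ⟨by ring, by linarith⟩))))
    convert this using 1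
    module)
  have g6 := key (-e 2) (e 0) (-e 1) (by rw [norm_neg, n2]) n0 (by rw [norm_neg, n1])
    (by rw [inner_neg_left, o20, neg_zero]) (by rw [inner_neg_neg, o21])
    (by rw [inner_neg_right, o01, neg_zero]) (fun C D h1 h2 => by
    have := net_coords he (p := D) (q := -D) (r := -C) (by linarith [neg_sq C, neg_sq D])
      (Or.inr (Or.inr (Or.inr (Or.inr (Or.inr ⟨by ring, by linarith⟩)))))
    convert this using 1
    module)
  have q1 : e 1 + e 2 + e 0 = e 0 + e 1 + e 2 := by abel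
  have q2 : e 2 + e 0 + e 1 = e 0 + e 1 + e 2 := by abel
  have q3 : -e 1 - e 2 - -e 0 = e 0 - e 1 - e 2 := by abel
  have q4 : -e 2 + e 0 + -e 1 = e 0 - e 1 - e 2 := by abel
  have q5 : -e 0 + e 1 + -e 2 = e 1 - e 2 - e 0 := by abel
  have q6 : -e 2 - e 0 - -e 1 = e 1 - e 2 - e 0 := by abel
  have q7 : -e 0 - e 1 - -e 2 = e 2 - e 0 - e 1 := by abel
  have q8 : -e 1 + e 2 + -e 0 = e 2 - e 0 - e 1 := by abel
  rw [q1] at g2
  rw [q2] at g3
  rw [q5, q7] at g4
  rw [q3, q8] at g5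
  rw [q4, q6] at g6
  simp only [map_neg] at g4 g5 g6
  linarith

end

end

end Pool.Agent.Y495.SM
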