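import Mathlib

/-!
The radial profile: a smooth function `χ` that rises quickly from `0` to `1` and then decreases
very slowly to `0`, and its primitive `X`.
-/

set_option autoImplicit false

namespace Pool.Agent.Y495.SM

open scoped ContDiff
open Set

noncomputable section

/-- The properties of the profile. -/
structure Prof (h η Y1 : ℝ) (χ X : ℝ → ℝ) : Prop where
  smooth : ContDiff ℝ ∞ X
  der : ∀ y, HasDerivAt X (χ y) y
  χsmooth : ContDiff ℝ ∞ χ
  χ0 : ∀ y, 0 ≤ χ y
  χ1 : ∀ y, χ y ≤ 1
  low : ∀ y, y ≤ h / 2 → χ y = 0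
  Xlow : ∀ y, y ≤ h / 2 → X y = 0
  top : χ h = 1
  high : ∀ y, Y1 ≤ y → χ y = 0
  slow : ∀ y, 0 ≤ y → -η ≤ (1 + y) * deriv χ y
  X0 : ∀ y, 0 ≤ X y
  X1 : ∀ y, X y ≤ Y1

lemma smoothTransition_deriv_bound : ∃ C : ℝ, 1 ≤ C ∧ ∀ x, deriv Real.smoothTransition x ≤ C := by
  have hc : Continuous (deriv Real.smoothTransition) :=
    (Real.smoothTransition.contDiff (n := 1)).continuous_deriv (by norm_num)
  obtain ⟨C, hC⟩ := isCompact_Icc.exists_bound_of_continuousOn (s := Icc (0 : ℝ) 1)
    hc.continuousOn
  refine ⟨max C 1, le_max_right _ _, fun x => ?_⟩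
  rcases lt_or_ge x 0 with h0 | h0
  · have : deriv Real.smoothTransition x = 0 := by
      have h1 : Real.smoothTransition =ᶠ[nhds x] fun _ => (0 : ℝ) := by
        filter_upwards [Iio_mem_nhds h0] with y hy
        exact Real.smoothTransition.zero_of_nonpos (le_of_lt hy)
      rw [h1.deriv_eq]; simp
    rw [this]; exact le_trans zero_le_one (le_max_right _ _)
  · rcases lt_or_ge 1 x with h1 | h1
    · have : deriv Real.smoothTransition x = 0 := by
        have h1 : Real.smoothTransition =ᶠ[nhds x] fun _ => (1 : ℝ) := by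
          filter_upwards [Ioi_mem_nhds h1] with y hy
          exact Real.smoothTransition.one_of_one_le (le_of_lt hy)
        rw [h1.deriv_eq]; simp
      rw [this]; exact le_trans zero_le_one (le_max_right _ _)
    · exact (le_abs_self _).trans ((hC x ⟨h0, h1⟩).trans (le_max_left _ _))

theorem exists_prof {h η : ℝ} (hh : 0 < h) (hη : 0 < η) :
    ∃ (Y1 : ℝ) (χ X : ℝ → ℝ), 1 ≤ Y1 ∧ Prof h η Y1 χ X := by
  obtain ⟨C, hC1, hC⟩ := smoothTransition_deriv_bound
  have hS0 : ∀ x, 0 ≤ deriv Real.smoothTransition x := fun x =>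
    Real.smoothTransition.monotone.deriv_nonneg
  obtain ⟨θ, hθ0, hθ⟩ : ∃ θ : ℝ, 0 < θ ∧ 3 * (C * θ) ≤ η := by
    refine ⟨η / (4 * C), by positivity, ?_⟩
    have : C ≠ 0 := by positivity
    field_simp
    linarith
  set L : ℝ → ℝ := fun y => Real.log ((1 + y ^ 2) / (1 + h ^ 2)) with hL
  have hLpos : ∀ y : ℝ, 0 < (1 + y ^ 2) / (1 + h ^ 2) := fun y => by positivity
  have hLd : ∀ y, HasDerivAt L (2 * y / (1 + y ^ 2)) y := by
    intro y
    have h1 : HasDerivAt (fun y : ℝ => (1 + y ^ 2) / (1 + h ^ 2)) (2 * y / (1 + h ^ 2)) y := by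
      have := ((hasDerivAt_pow 2 y).const_add 1).div_const (1 + h ^ 2)
      refine this.congr_deriv ?_
      norm_num
    have h2 := h1.log (hLpos y).ne'
    refine h2.congr_deriv ?_
    have : (1 + h ^ 2) ≠ 0 := by positivity
    have : (1 + y ^ 2) ≠ 0 := by positivity
    field_simp
  have hLs : ContDiff ℝ ∞ L := by
    refine ContDiff.log ?_ fun y => (hLpos y).ne'
    exact (contDiff_const.add (contDiff_id.pow 2)).div_const _
  set χ : ℝ → ℝ := fun y => Real.smoothTransition (2 * y / h - 1)
    * (1 - Real.smoothTransition (θ * L y)) with hχ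
  have hχs : ContDiff ℝ ∞ χ := by
    refine ContDiff.mul ?_ ?_
    · exact Real.smoothTransition.contDiff.comp
        (((contDiff_const.mul contDiff_id).div_const h).sub contDiff_const)
    · exact contDiff_const.sub (Real.smoothTransition.contDiff.comp (contDiff_const.mul hLs))
  have hχ0 : ∀ y, 0 ≤ χ y := fun y => mul_nonneg (Real.smoothTransition.nonneg _)
    (by have := Real.smoothTransition.le_one (θ * L y); linarith)
  have hχ1 : ∀ y, χ y ≤ 1 := fun y => by
    have h1 := Real.smoothTransition.le_one (2 * y / h - 1)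
    have h2 := Real.smoothTransition.nonneg (2 * y / h - 1)
    have h3 := Real.smoothTransition.le_one (θ * L y)
    have h4 := Real.smoothTransition.nonneg (θ * L y)
    simp only [hχ]
    nlinarith
  have hlow : ∀ y, y ≤ h / 2 → χ y = 0 := by
    intro y hy
    have : 2 * y / h - 1 ≤ 0 := by
      rw [sub_nonpos, div_le_one hh]; linarith
    simp only [hχ]
    rw [Real.smoothTransition.zero_of_nonpos this, zero_mul]
  have htop : χ h = 1 := by
    simp only [hχ, hL]
    rw [div_self (by positivity), Real.log_one, mul_zero, Real.smoothTransition.zero,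
      Real.smoothTransition.one_of_one_le]
    · norm_num
    · rw [mul_div_assoc, div_self hh.ne']; norm_num
  set Y1 : ℝ := (1 + h ^ 2) * Real.exp (1 / θ) with hY1
  have hY1' : 1 ≤ Y1 := by
    have h1 : 1 ≤ Real.exp (1 / θ) := Real.one_le_exp (by positivity)
    have h2 : 1 ≤ 1 + h ^ 2 := by nlinarith
    nlinarith
  have hhigh : ∀ y, Y1 ≤ y → χ y = 0 := by
    intro y hy
    have h1 : 1 ≤ θ * L y := by
      have h2 : Real.exp (1 / θ) ≤ (1 + y ^ 2) / (1 + h ^ 2) := by
        rw [le_div_iff₀ (by positivity), mul_comm]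
        have h3 : y ≤ y ^ 2 := by nlinarith
        linarith
      have h3 : 1 / θ ≤ L y := by
        simp only [hL]
        rw [Real.le_log_iff_exp_le (hLpos y)]; exact h2
      calc (1 : ℝ) = θ * (1 / θ) := by field_simp
        _ ≤ θ * L y := by gcongr
    simp only [hχ]
    rw [Real.smoothTransition.one_of_one_le h1]; ring
  have hslow : ∀ y, 0 ≤ y → -η ≤ (1 + y) * deriv χ y := by
    intro y hy
    have hSd : ∀ x, HasDerivAt Real.smoothTransition (deriv Real.smoothTransition x) x := fun x =>
      (((Real.smoothTransition.contDiff (n := 1)).differentiable (by norm_num)) x).hasDerivAt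
    have h1 : HasDerivAt (fun y => Real.smoothTransition (2 * y / h - 1))
        (deriv Real.smoothTransition (2 * y / h - 1) * (2 / h)) y := by
      have h2 : HasDerivAt (fun y : ℝ => 2 * y / h - 1) (2 / h) y := by
        have := ((((hasDerivAt_id y).const_mul 2).div_const h).sub_const 1)
        refine this.congr_deriv ?_
        ring
      exact (hSd _).comp y h2
    have h2 : HasDerivAt (fun y => 1 - Real.smoothTransition (θ * L y))
        (-(deriv Real.smoothTransition (θ * L y) * (θ * (2 * y / (1 + y ^ 2))))) y := by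
      exact ((hSd _).comp y ((hLd y).const_mul θ)).const_sub 1
    have h3 := (h1.fun_mul h2).deriv
    have h4 : deriv χ y = _ := h3
    rw [h4]
    have a1 := hS0 (2 * y / h - 1)
    have a2 := Real.smoothTransition.le_one (θ * L y)
    have a3 := Real.smoothTransition.le_one (2 * y / h - 1)
    have a4 := Real.smoothTransition.nonneg (2 * y / h - 1)
    have a5 := hS0 (θ * L y)
    have a6 := hC (θ * L y)
    have b1 : 0 ≤ (1 + y) * (deriv Real.smoothTransition (2 * y / h - 1) * (2 / h)
        * (1 - Real.smoothTransition (θ * L y))) := by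
      have : 0 ≤ 1 - Real.smoothTransition (θ * L y) := by linarith
      positivity
    have b2 : (1 + y) * (2 * y / (1 + y ^ 2)) ≤ 3 := by
      rw [← mul_div_assoc, div_le_iff₀ (by positivity)]
      nlinarith
    have b2' : 0 ≤ (1 + y) * (2 * y / (1 + y ^ 2)) := by positivity
    have b3 : (1 + y) * (Real.smoothTransition (2 * y / h - 1)
        * (deriv Real.smoothTransition (θ * L y) * (θ * (2 * y / (1 + y ^ 2)))))
        ≤ 3 * (C * θ) := by
      have c1 : Real.smoothTransition (2 * y / h - 1) * deriv Real.smoothTransition (θ * L y)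
          ≤ 1 * C := mul_le_mul a3 a6 a5 (by norm_num)
      calc (1 + y) * (Real.smoothTransition (2 * y / h - 1)
            * (deriv Real.smoothTransition (θ * L y) * (θ * (2 * y / (1 + y ^ 2)))))
          = (Real.smoothTransition (2 * y / h - 1) * deriv Real.smoothTransition (θ * L y)) * θ
            * ((1 + y) * (2 * y / (1 + y ^ 2))) := by ring
        _ ≤ (1 * C) * θ * 3 := by gcongr
        _ = 3 * (C * θ) := by ring
    have e1 : (1 + y) * (deriv Real.smoothTransition (2 * y / h - 1) * (2 / h)
          * (1 - Real.smoothTransition (θ * L y))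
        + Real.smoothTransition (2 * y / h - 1)
          * -(deriv Real.smoothTransition (θ * L y) * (θ * (2 * y / (1 + y ^ 2)))))
        = (1 + y) * (deriv Real.smoothTransition (2 * y / h - 1) * (2 / h)
          * (1 - Real.smoothTransition (θ * L y)))
          - (1 + y) * (Real.smoothTransition (2 * y / h - 1)
        * (deriv Real.smoothTransition (θ * L y) * (θ * (2 * y / (1 + y ^ 2))))) := by ring
    rw [e1]
    linarith
  have hint : ∀ a b, IntervalIntegrable χ MeasureTheory.volume a b := fun a b =>
    hχs.continuous.intervalIntegrable a b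
  set X : ℝ → ℝ := fun y => ∫ t in (0 : ℝ)..y, χ t with hX
  have hXd : ∀ y, HasDerivAt X (χ y) y := fun y =>
    intervalIntegral.integral_hasDerivAt_right (hint 0 y)
      (hχs.continuous.stronglyMeasurableAtFilter _ _) hχs.continuous.continuousAt
  have hXs : ContDiff ℝ ∞ X := by
    rw [contDiff_infty_iff_deriv]
    refine ⟨fun y => (hXd y).differentiableAt, ?_⟩
    have : deriv X = χ := funext fun y => (hXd y).deriv
    rw [this]; exact hχs
  have hXlow : ∀ y, y ≤ h / 2 → X y = 0 := by
    intro y hy
    simp only [hX]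
    rw [intervalIntegral.integral_congr (g := fun _ => (0 : ℝ))]
    · simp
    · intro t ht
      refine hlow t ?_
      rcases le_total 0 y with h0 | h0
      · rw [uIcc_of_le h0] at ht; exact ht.2.trans hy
      · rw [uIcc_of_ge h0] at ht; linarith [ht.2]
  have hXmono : Monotone X := monotone_of_deriv_nonneg (fun y => (hXd y).differentiableAt)
    fun y => by rw [(hXd y).deriv]; exact hχ0 y
  have hX0 : ∀ y, 0 ≤ X y := by
    intro y
    rcases le_total y 0 with h0 | h0
    · rw [hXlow y (by linarith)]
    · have h1 := hXmono h0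
      have h2 := hXlow 0 (by linarith)
      linarith
  have hXY : X Y1 ≤ Y1 := by
    have h1 : X Y1 ≤ ∫ t in (0 : ℝ)..Y1, (1 : ℝ) := by
      simp only [hX]
      exact intervalIntegral.integral_mono_on (by linarith) (hint _ _)
        intervalIntegrable_const fun t _ => hχ1 t
    simpa using h1
  have hX1 : ∀ y, X y ≤ Y1 := by
    intro y
    rcases le_total y Y1 with h0 | h0
    · exact (hXmono h0).trans hXY
    · have h1 : X y = X Y1 := by
        have h2 : (∫ t in Y1..y, χ t) = 0 := by
          rw [intervalIntegral.integral_congr (g := fun _ => (0 : ℝ))]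
          · simp
          · intro t ht
            rw [uIcc_of_le h0] at ht
            exact hhigh t ht.1
        have h3 := intervalIntegral.integral_add_adjacent_intervals (hint 0 Y1) (hint Y1 y)
        simp only [hX]
        rw [← h3, h2, add_zero]
      rw [h1]; exact hXY
  exact ⟨Y1, χ, X, hY1', hXs, hXd, hχs, hχ0, hχ1, hlow, hXlow, htop, hhigh, hslow, hX0, hX1⟩

end

end Pool.Agent.Y495.SM
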